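import Mathlib
import Pool.Agent.Lib.H81D.Defs

/-!
# Self-duality of the constituents for primes of density one: definitions

`Ω` is an algebraic closure of `ℚ`, `Γ` the absolute Galois group of a number field contained in
`Ω`. `IsCont`, `IsPolar`, `IsSemisimple` (for representations of `Γ` over `ℚ_p`) and `IsFrobAt` are
those of `GSD/Defs` and `GSem/Defs`, `IsFrobPoly`, `IsPureSys`, `IsOdd`, `commonField`, `oddClasses`,
`HasNatLower` those of `H81D/Defs`.
-/

namespace Pool.Agent.Lib.H90A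

open Polynomial Module Filter Topology Pool.Agent.GSem Pool.Agent.GSD Pool.Agent.Lib.H81D

section poly

variable (Ω : Type) [Field Ω] [CharZero Ω]

/-- The number of the different `k`-th powers of the roots of `P`. -/
noncomputable def numPow (P : ℚ[X]) (k : ℕ) : ℕ := ((fun z : Ω => z ^ k) '' P.rootSet Ω).ncard

/-- No quotient of two different roots of `P` is a root of unity. -/
def NoTors (P : ℚ[X]) : Prop :=
  ∀ z z' : Ω, aeval z P = 0 → aeval z' P = 0 → ∀ k : ℕ, 0 < k → z ^ k = z' ^ k → z = z'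

end poly

section

variable {Ω : Type} [Field Ω] [CharZero Ω]

/-- The neat Frobenius polynomials `P` of the system: no quotient of two different roots is a root
of unity, and no Frobenius polynomial has more roots modulo roots of unity. -/
def neatMax {Γ : Subgroup Gal(Ω/ℚ)} {n : ℕ}
    (ρ : ∀ (p : ℕ) [Fact p.Prime], Representation ℚ_[p] Γ (Fin n → ℚ_[p])) (w : ℤ) :
    Set (ℕ × ℚ[X]) :=
  {x | IsFrobPoly ρ w x.1 x.2 ∧ NoTors Ω x.2 ∧ ∀ (q : ℕ) (P : ℚ[X]), IsFrobPoly ρ w q P →
    ∃ k : ℕ, 0 < k ∧ numPow Ω P k ≤ (x.2.rootSet Ω).ncard}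

end

/-- The trace of `T` on the `T`-stable subspace `Y`. -/
noncomputable def trOn {K V : Type*} [Field K] [AddCommGroup V] [Module K V] (T : V →ₗ[K] V)
    (Y : Submodule K V) (h : ∀ x ∈ Y, T x ∈ Y) : K :=
  LinearMap.trace K Y (T.restrict h)

section rep

variable {p : ℕ} [Fact p.Prime] {Ω : Type} [Field Ω] [CharZero Ω] {Γ : Subgroup Gal(Ω/ℚ)}
variable {V : Type} [AddCommGroup V] [Module ℚ_[p] V]

/-- The subspace `Y` is stable under the subgroup `U`. -/
def StableBy (r : Representation ℚ_[p] Γ V) (U : Subgroup Γ) (Y : Submodule ℚ_[p] V) : Prop :=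
  ∀ u ∈ U, ∀ x ∈ Y, r u x ∈ Y

/-- There is an open subgroup `U₁` such that for every open subgroup `U` of `U₁` every `U`-stable
subspace `Y` (so every `U`-subquotient) has the same traces over `U` as `Y^∨(-w)`: the
semisimplifications of `Y` and of `Y^∨(-w)` over `U` are isomorphic. -/
def SelfDualSubs (r : Representation ℚ_[p] Γ V) (w : ℤ) : Prop :=
  ∃ U₁ : Subgroup Γ, IsOpen (U₁ : Set Γ) ∧ ∀ U : Subgroup Γ, U ≤ U₁ → IsOpen (U : Set Γ) →
    ∀ (Y : Submodule ℚ_[p] V) (hY : StableBy r U Y) (u : Γ) (hu : u ∈ U),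
      trOn (r u) Y (hY u hu) =
        toQ (cyc p Ω (u : Gal(Ω/ℚ))) ^ (-w) * trOn (r u⁻¹) Y (hY u⁻¹ (U.inv_mem hu))

/-- The semisimplification of `r` is potentially multiplicity free: for every open subgroup `U` and
all `U`-stable subspaces `A < B ≤ C < D` the traces of some `u ∈ U` on `B / A` and `D / C` are
different. -/
def PotMultFree (r : Representation ℚ_[p] Γ V) : Prop :=
  ∀ U : Subgroup Γ, IsOpen (U : Set Γ) → ∀ (A B C D : Submodule ℚ_[p] V) (hA : StableBy r U A)
    (hB : StableBy r U B) (hC : StableBy r U C) (hD : StableBy r U D), A < B → B ≤ C → C < D →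
      ∃ (u : Γ) (hu : u ∈ U), trOn (r u) B (hB u hu) - trOn (r u) A (hA u hu) ≠
        trOn (r u) D (hD u hu) - trOn (r u) C (hC u hu)

/-- The number of the different eigenvalues of `T` (in the algebraic closure of `ℚ_p`). -/
noncomputable def numEig [FiniteDimensional ℚ_[p] V] (T : V →ₗ[ℚ_[p]] V) : ℕ :=
  (T.charpoly.rootSet (PadicAlgCl p)).ncard

/-- Modulo roots of unity no element `h` of `Γ` has more eigenvalues than `g`: for every `k > 0` and
`h` some power `h ^ j`, `j > 0`, has at most as many different eigenvalues as `g ^ k`. -/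
def IsMaxElt [FiniteDimensional ℚ_[p] V] (r : Representation ℚ_[p] Γ V) (g : Γ) : Prop :=
  ∀ k : ℕ, 0 < k → ∀ h : Γ, ∃ j : ℕ, 0 < j ∧ numEig (r (h ^ j)) ≤ numEig (r (g ^ k))

end rep

end Pool.Agent.Lib.H90A
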