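import Mathlib
import Pool.Agent.Lib.H90A.Defs
import Pool.Agent.Lib.H81D.C2

/-!
# Chunk L1 (S): roots of monic polynomials are bounded, powers are Lipschitz
-/

namespace Pool.Agent.Lib.H90A

open Polynomial Module Filter Topology Pool.Agent.GSem Pool.Agent.GSD Pool.Agent.Lib.H81D

variable {l : ℕ} [Fact l.Prime]

/-- Proof. Suppose `K < ‖y‖`, `n` the degree. `y ^ n = - ∑_{i < n} c_i y ^ i` (`aeval_eq_sum_range`,
`Monic.coeff_natDegree`), every term has norm at most `K ‖y‖ ^ (n - 1)` as `‖y‖ ≥ 1`, so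
`‖y‖ ^ n ≤ K ‖y‖ ^ (n - 1)` (ultrametric sum: `IsUltrametricDist.norm_sum_le_of_forall_le_of_nonneg`),
contradiction; `n = 0` is impossible (`f = 1`). The norm of `algebraMap ℚ_[l] (PadicAlgCl l) c` is
`‖c‖` (`norm_algebraMap'` or `norm_smul` as in `C1.c1_close`). -/
theorem root_norm_le (f : ℚ_[l][X]) (hf : f.Monic) {K : ℝ} (hK : 1 ≤ K)
    (hc : ∀ i, ‖f.coeff i‖ ≤ K) (y : PadicAlgCl l) (hy : aeval y f = 0) : ‖y‖ ≤ K := by
  by_contra hcon
  rw [not_le] at hcon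
  have hy1 : 1 ≤ ‖y‖ := hK.trans hcon.le
  have hn : 0 < f.natDegree := by
    rcases Nat.eq_zero_or_pos f.natDegree with h | h
    · rw [hf.natDegree_eq_zero.1 h, map_one] at hy
      exact absurd hy one_ne_zero
    · exact h
  have h1 : y ^ f.natDegree = -∑ i ∈ Finset.range f.natDegree, f.coeff i • y ^ i := by
    rw [aeval_eq_sum_range, Finset.sum_range_succ, hf.coeff_natDegree, one_smul] at hy
    exact eq_neg_of_add_eq_zero_right hy
  have h2 : ‖y ^ f.natDegree‖ ≤ K * ‖y‖ ^ (f.natDegree - 1) := by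
    rw [h1, norm_neg]
    refine IsUltrametricDist.norm_sum_le_of_forall_le_of_nonneg (by positivity) fun i hi => ?_
    rw [norm_smul, norm_pow]
    have hi' : i ≤ f.natDegree - 1 := by
      have := Finset.mem_range.1 hi
      omega
    exact mul_le_mul (hc i) (pow_le_pow_right₀ hy1 hi') (by positivity) (by linarith)
  have h3 : ‖y ^ f.natDegree‖ = ‖y‖ * ‖y‖ ^ (f.natDegree - 1) := by
    rw [norm_pow, ← pow_succ']
    congr 1
    omega
  rw [h3] at h2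
  have h4 : 0 < ‖y‖ ^ (f.natDegree - 1) := by positivity
  exact absurd (le_of_mul_le_mul_right h2 h4) (not_le.2 hcon)

/-- `a ^ M - b ^ M = (a - b) ∑ a ^ i b ^ (M - 1 - i)` (`geom_sum₂_mul` / `Commute.geom_sum₂_mul`), or induction:
`a ^ (M + 1) - b ^ (M + 1) = a (a ^ M - b ^ M) + (a - b) b ^ M`, ultrametric inequality
(`H81D.c1_tri` shows how). -/
theorem pow_sub_le (a b : PadicAlgCl l) {K : ℝ} (hK : 1 ≤ K) (ha : ‖a‖ ≤ K) (hb : ‖b‖ ≤ K)
    (M : ℕ) : ‖a ^ M - b ^ M‖ ≤ ‖a - b‖ * K ^ M := by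
  have hK0 : 0 ≤ K := by linarith
  induction M with
  | zero =>
    rw [pow_zero, pow_zero, sub_self, norm_zero, pow_zero, mul_one]
    exact norm_nonneg _
  | succ M ih =>
    have e : a ^ (M + 1) - b ^ (M + 1) = a * (a ^ M - b ^ M) + (a - b) * b ^ M := by ring
    rw [e]
    refine (IsUltrametricDist.norm_add_le_max _ _).trans (max_le ?_ ?_)
    · rw [norm_mul]
      calc ‖a‖ * ‖a ^ M - b ^ M‖ ≤ K * (‖a - b‖ * K ^ M) :=
            mul_le_mul ha ih (norm_nonneg _) hK0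
        _ = ‖a - b‖ * K ^ (M + 1) := by ring
    · rw [norm_mul, norm_pow]
      refine mul_le_mul_of_nonneg_left ?_ (norm_nonneg _)
      calc ‖b‖ ^ M ≤ K ^ M := pow_le_pow_left₀ (norm_nonneg _) hb M
        _ ≤ K ^ (M + 1) := pow_le_pow_right₀ hK (Nat.le_succ M)

/-- The finite set of the roots of unity `ζ ≠ 1` with `ζ ^ M = 1` (roots of `X ^ M - 1`;
`Polynomial.nthRootsFinset` or `(Polynomial.nthRoots M 1).toFinset`) has positive distance to 1
(`H81D.c2_low`). -/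
theorem exists_unity_gap (l : ℕ) [Fact l.Prime] {M : ℕ} (hM : 0 < M) :
    ∃ ε : ℝ, 0 < ε ∧ ∀ ζ : PadicAlgCl l, ζ ^ M = 1 → ‖ζ - 1‖ < ε → ζ = 1 := by
  classical
  obtain ⟨μ, hμ, h⟩ := c2_low ((nthRoots M (1 : PadicAlgCl l)).toFinset.filter fun ζ => ζ ≠ 1)
    (fun ζ => ‖ζ - 1‖) fun ζ hζ => norm_pos_iff.2 (sub_ne_zero.2 (Finset.mem_filter.1 hζ).2)
  refine ⟨μ, hμ, fun ζ hζ hlt => ?_⟩
  by_contra hne
  have h1 : ζ ∈ (nthRoots M (1 : PadicAlgCl l)).toFinset.filter fun ζ => ζ ≠ 1 :=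
    Finset.mem_filter.2 ⟨Multiset.mem_toFinset.2 ((mem_nthRoots hM).2 hζ), hne⟩
  exact absurd (h ζ h1) (not_lt.2 hlt.le)

end Pool.Agent.Lib.H90A
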