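import Mathlib
import Pool.Agent.Lib.H90A.L1
import Pool.Agent.Lib.H81D.C1

/-!
# Chunk L2 (S/M): roots of close polynomials are close
-/

namespace Pool.Agent.Lib.H90A

open Polynomial Module Filter Topology Pool.Agent.GSem Pool.Agent.GSD Pool.Agent.Lib.H81D

/-- Proof. `P0` has finitely many coefficients (`coeff i = 0` for `i > natDegree`), so there is `K ≥ 1`
with `‖P0.coeff i‖ ≤ K` for all `i`; for `δ ≤ 1` the coefficients of `P'` have norm at most `K + 1`; take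
`K + 1` for `K`: `root_norm_le` bounds the roots of `P0` and of `P'`. Given `ε`, choose `δ ≤ 1`, `δ > 0` with
`(natDegree + 1) * (δ * (K + 1) ^ natDegree) < ε ^ natDegree`. `H81D.c1_close P0 P'` gives the first
closeness, `H81D.c1_close P' P0` (roles exchanged, `norm_sub_rev`) the second. -/
theorem exists_close {l : ℕ} [Fact l.Prime] (P0 : ℚ_[l][X]) (hm : P0.Monic) :
    ∃ K : ℝ, 1 ≤ K ∧ (∀ z : PadicAlgCl l, aeval z P0 = 0 → ‖z‖ ≤ K) ∧ ∀ ε : ℝ, 0 < ε →
      ∃ δ : ℝ, 0 < δ ∧ ∀ P' : ℚ_[l][X], P'.Monic → P'.natDegree = P0.natDegree →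
        (∀ i, ‖P'.coeff i - P0.coeff i‖ ≤ δ) →
          (∀ y : PadicAlgCl l, aeval y P' = 0 → ‖y‖ ≤ K) ∧
          (∀ z : PadicAlgCl l, aeval z P0 = 0 → ∃ y, aeval y P' = 0 ∧ ‖y - z‖ < ε) ∧
          (∀ y : PadicAlgCl l, aeval y P' = 0 → ∃ z, aeval z P0 = 0 ∧ ‖y - z‖ < ε) := by
  classical
  obtain ⟨K0, hK0⟩ : ∃ K0 : ℝ, ∀ i, ‖P0.coeff i‖ ≤ K0 := by
    obtain ⟨K0, hK0⟩ := ((Finset.range (P0.natDegree + 1)).finite_toSet.image
      fun i => ‖P0.coeff i‖).bddAbove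
    refine ⟨max K0 0, fun i => ?_⟩
    by_cases hi : i < P0.natDegree + 1
    · exact (hK0 ⟨i, Finset.mem_coe.2 (Finset.mem_range.2 hi), rfl⟩).trans (le_max_left _ _)
    · rw [coeff_eq_zero_of_natDegree_lt (by omega), norm_zero]
      exact le_max_right _ _
  obtain ⟨K, hK⟩ : ∃ K, K = max 1 K0 + 1 := ⟨_, rfl⟩
  have hK1 : 1 ≤ K := by
    have := le_max_left 1 K0
    rw [hK]
    linarith
  have hK2 : K0 + 1 ≤ K := by
    have := le_max_right 1 K0
    rw [hK]
    linarith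
  have hz : ∀ z : PadicAlgCl l, aeval z P0 = 0 → ‖z‖ ≤ K := fun z hz =>
    root_norm_le P0 hm hK1 (fun i => (hK0 i).trans (by linarith)) z hz
  refine ⟨K, hK1, hz, fun ε hε => ?_⟩
  have hD : (0 : ℝ) < 2 * (P0.natDegree + 1) * K ^ P0.natDegree := by positivity
  obtain ⟨δ, hδ⟩ : ∃ δ, δ = min 1 (ε ^ P0.natDegree / (2 * (P0.natDegree + 1) * K ^ P0.natDegree)) :=
    ⟨_, rfl⟩
  have hδ0 : 0 < δ := by
    rw [hδ]
    exact lt_min one_pos (by positivity)
  have hδ1 : δ ≤ 1 := by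
    rw [hδ]
    exact min_le_left _ _
  have hδ2 : ((P0.natDegree : ℝ) + 1) * (δ * K ^ P0.natDegree) < ε ^ P0.natDegree := by
    have h1 : δ ≤ ε ^ P0.natDegree / (2 * (P0.natDegree + 1) * K ^ P0.natDegree) := by
      rw [hδ]
      exact min_le_right _ _
    rw [le_div_iff₀ hD] at h1
    have h2 : 0 < ε ^ P0.natDegree := by positivity
    nlinarith
  refine ⟨δ, hδ0, fun P' hm' hd' hc => ⟨fun y hy => ?_, fun z hz' => ?_, fun y hy => ?_⟩⟩
  · refine root_norm_le P' hm' hK1 (fun i => ?_) y hy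
    have e : P'.coeff i = P0.coeff i + (P'.coeff i - P0.coeff i) := by ring
    rw [e]
    refine (norm_add_le _ _).trans ?_
    have h1 := hc i
    have h2 := hK0 i
    linarith
  · exact c1_close P0 P' hm' hd' hε hK1 hδ0.le hδ2 hc z hz' (hz z hz')
  · have hyK : ‖y‖ ≤ K := by
      refine root_norm_le P' hm' hK1 (fun i => ?_) y hy
      have e : P'.coeff i = P0.coeff i + (P'.coeff i - P0.coeff i) := by ring
      rw [e]
      refine (norm_add_le _ _).trans ?_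
      have h1 := hc i
      have h2 := hK0 i
      linarith
    obtain ⟨z, hz1, hz2⟩ := c1_close P' P0 hm hd'.symm hε hK1 hδ0.le (by rw [hd']; exact hδ2)
      (fun i => by rw [norm_sub_rev]; exact hc i) y hy hyK
    exact ⟨z, hz1, by rw [norm_sub_rev]; exact hz2⟩

end Pool.Agent.Lib.H90A
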