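import Mathlib
import Pool.Agent.Lib.H90A.L2
import Pool.Agent.Lib.H81D.C2

/-!
# Chunk L3 (M/L): the roots of a close polynomial with few roots modulo roots of unity
-/

namespace Pool.Agent.Lib.H90A

open Polynomial Module Filter Topology Pool.Agent.GSem Pool.Agent.GSD Pool.Agent.Lib.H81D

/-- `a ↦ a ^ M` is injective on the roots of `f` in the algebraic closure of `ℚ_[l]`. -/
def InjPow {l : ℕ} [Fact l.Prime] (f : ℚ_[l][X]) (M : ℕ) : Prop :=
  ∀ a a' : PadicAlgCl l, aeval a f = 0 → aeval a' f = 0 → a ^ M = a' ^ M → a = a'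

/-- Proof. Let `R0` be the (finite) set of the roots of `P0`. Let `K` be the constant of `exists_close P0`.
Let `s > 0` be smaller than all `‖z ^ M - z' ^ M‖`, `z ≠ z'` in `R0` (nonzero by `hinj`), and than all
`‖z - z'‖`; `μ > 0` smaller than all `‖z‖`, `z ∈ R0` (`h0`), `g > 0` the gap of `exists_unity_gap l hM`.
(`H81D.c2_low` for finite sets; see the beginning of the proof of `H81D.exists_rootMap`,
`H81D.exists_trans`.) Choose `ε' > 0` with `ε' ≤ ε`, `ε' ≤ s`, `ε' ≤ μ`, `ε' ≤ g μ`, `ε' K ^ M ≤ s`; take `δ` from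
`exists_close` for `ε'`. Let `P'` be given. For `z ∈ R0` choose a root `β z` of `P'` with `‖β z - z‖ < ε'`.
By `pow_sub_le`: `‖(β z) ^ M - z ^ M‖ < s` (strict, `K ^ M > 0`). So (ultrametric) `z ↦ (β z) ^ M` is
injective on `R0`: its image in the set of the `M`-th powers of the roots of `P'` has `R0.ncard` elements, by
`hcard` it is the whole set (`Set.eq_of_subset_of_ncard_le`).
Let `y` be a root of `P'`. There are `z'` in `R0` with `‖y - z'‖ < ε'` and `z ∈ R0` with `y ^ M = (β z) ^ M`. Then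
`‖z' ^ M - z ^ M‖ < s` (both are closer than `s` to `y ^ M`), so `z' = z`. So `‖y - β z‖ < ε'`,
`‖β z‖ = ‖z‖ > μ` (`‖β z - z‖ < μ < ‖z‖`), `ζ = y / β z` satisfies `ζ ^ M = 1` and
`‖ζ - 1‖ = ‖y - β z‖ / ‖β z‖ < ε' / μ ≤ g`, so `ζ = 1`, `y = β z`. This is `surj`, and shows uniqueness: (U) a
root `y` of `P'` with `‖y - z‖ < ε'`, `z ∈ R0`, is `β z`.
`InjPow P' M`: `y = β z`, `y' = β z'`, equal `M`-th powers, so `z = z'` by injectivity. Cardinality: `β` is a
bijection from `R0` onto the roots of `P'`. `equi`: `σ (β z)` is a root of `P'` (aeval_algHom_apply) and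
`‖σ (β z) - σ z‖ = ‖β z - z‖ < ε'` (`norm_gal`, `map_sub`), so it is `β (σ z)` by (U). -/
theorem exists_rootMapM {l : ℕ} [Fact l.Prime] (P0 : ℚ_[l][X]) (hm : P0.Monic)
    (h0 : ∀ z : PadicAlgCl l, aeval z P0 = 0 → z ≠ 0) {M : ℕ} (hM : 0 < M) (hinj : InjPow P0 M)
    (ε : ℝ) (hε : 0 < ε) :
    ∃ δ : ℝ, 0 < δ ∧ ∀ P' : ℚ_[l][X], P'.Monic → P'.natDegree = P0.natDegree →
      (∀ i, ‖P'.coeff i - P0.coeff i‖ ≤ δ) →
      ((fun a : PadicAlgCl l => a ^ M) '' P'.rootSet (PadicAlgCl l)).ncard ≤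
        (P0.rootSet (PadicAlgCl l)).ncard →
      InjPow P' M ∧ (P'.rootSet (PadicAlgCl l)).ncard = (P0.rootSet (PadicAlgCl l)).ncard ∧
        ∃ β : PadicAlgCl l → PadicAlgCl l,
          (∀ z, aeval z P0 = 0 → aeval (β z) P' = 0) ∧
          (∀ z, aeval z P0 = 0 → ‖β z - z‖ < ε) ∧
          (∀ y, aeval y P' = 0 → ∃ z, aeval z P0 = 0 ∧ β z = y) ∧
          (∀ (σ : Gal(PadicAlgCl l/ℚ_[l])) (z), aeval z P0 = 0 → σ (β z) = β (σ z)) := by
  classical
  have hP0 : P0 ≠ 0 := hm.ne_zero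
  obtain ⟨K, hK1, hKz, hclose⟩ := exists_close P0 hm
  obtain ⟨g, hg0, hg⟩ := exists_unity_gap l hM
  have hK : 0 < K ^ M := by positivity
  obtain ⟨R, hR⟩ : ∃ R, R = (P0.rootSet (PadicAlgCl l)).toFinite.toFinset := ⟨_, rfl⟩
  have hmem : ∀ z : PadicAlgCl l, z ∈ R ↔ aeval z P0 = 0 := by
    intro z
    rw [hR, Set.Finite.mem_toFinset, mem_rootSet]
    exact ⟨fun h => h.2, fun h => ⟨hP0, h⟩⟩
  obtain ⟨μ, hμ, hμR⟩ := c2_low R (fun z => ‖z‖) fun z hz =>
    norm_pos_iff.2 (h0 z ((hmem z).1 hz))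
  obtain ⟨s, hs, hsR⟩ := c2_low ((R ×ˢ R).filter fun x => x.1 ≠ x.2)
    (fun x => ‖x.1 ^ M - x.2 ^ M‖) fun x hx => by
      obtain ⟨h1, h2⟩ := Finset.mem_filter.1 hx
      obtain ⟨h3, h4⟩ := Finset.mem_product.1 h1
      exact norm_pos_iff.2 (sub_ne_zero.2 fun h =>
        h2 (hinj _ _ ((hmem _).1 h3) ((hmem _).1 h4) h))
  -- two roots with `M`-th powers close to `x`
  have hA : ∀ x z z' : PadicAlgCl l, aeval z P0 = 0 → aeval z' P0 = 0 → ‖x - z ^ M‖ < s →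
      ‖x - z' ^ M‖ < s → z = z' := by
    intro x z z' hz hz' h1 h2
    by_contra hne
    have h3 := hsR (z, z') (Finset.mem_filter.2
      ⟨Finset.mem_product.2 ⟨(hmem z).2 hz, (hmem z').2 hz'⟩, hne⟩)
    have h4 : ‖z ^ M - z' ^ M‖ < s := by
      refine lt_of_le_of_lt (c1_tri (z ^ M) x (z' ^ M)) (max_lt ?_ h2)
      rw [norm_sub_rev]
      exact h1
    exact absurd h3 (not_lt.2 h4.le)
  obtain ⟨e, he⟩ : ∃ e, e = min ε (min μ (min (g * μ) (s / K ^ M))) := ⟨_, rfl⟩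
  have he0 : 0 < e := by
    rw [he]
    exact lt_min hε (lt_min hμ (lt_min (mul_pos hg0 hμ) (div_pos hs hK)))
  have heε : e ≤ ε := by
    rw [he]
    exact min_le_left _ _
  have heμ : e ≤ μ := by
    rw [he]
    exact (min_le_right _ _).trans (min_le_left _ _)
  have heg : e ≤ g * μ := by
    rw [he]
    exact (min_le_right _ _).trans ((min_le_right _ _).trans (min_le_left _ _))
  have hes : e ≤ s / K ^ M := by
    rw [he]
    exact (min_le_right _ _).trans ((min_le_right _ _).trans (min_le_right _ _))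
  obtain ⟨δ, hδ, H⟩ := hclose e he0
  refine ⟨δ, hδ, fun P' hm' hd' hc hcard => ?_⟩
  have hP' : P' ≠ 0 := hm'.ne_zero
  obtain ⟨hKy, hzy, hyz⟩ := H P' hm' hd' hc
  have hpow : ∀ y z : PadicAlgCl l, aeval y P' = 0 → aeval z P0 = 0 → ‖y - z‖ < e →
      ‖y ^ M - z ^ M‖ < s := by
    intro y z hy hz h
    calc ‖y ^ M - z ^ M‖ ≤ ‖y - z‖ * K ^ M := pow_sub_le y z hK1 (hKy y hy) (hKz z hz) M
      _ < e * K ^ M := mul_lt_mul_of_pos_right h hK
      _ ≤ s / K ^ M * K ^ M := mul_le_mul_of_nonneg_right hes hK.le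
      _ = s := div_mul_cancel₀ _ hK.ne'
  have hex : ∀ z : PadicAlgCl l, ∃ y : PadicAlgCl l, aeval z P0 = 0 → aeval y P' = 0 ∧ ‖y - z‖ < e := by
    intro z
    by_cases hz : aeval z P0 = 0
    · obtain ⟨y, hy⟩ := hzy z hz
      exact ⟨y, fun _ => hy⟩
    · exact ⟨0, fun h => absurd h hz⟩
  choose β hβ using hex
  have hβs : ∀ z, aeval z P0 = 0 → ‖(β z) ^ M - z ^ M‖ < s := fun z hz =>
    hpow _ _ (hβ z hz).1 hz (hβ z hz).2
  have hβinj : ∀ z z' : PadicAlgCl l, aeval z P0 = 0 → aeval z' P0 = 0 →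
      (β z) ^ M = (β z') ^ M → z = z' := by
    intro z z' hz hz' h
    refine hA ((β z) ^ M) z z' hz hz' (hβs z hz) ?_
    rw [h]
    exact hβs z' hz'
  have hsub : (fun z => (β z) ^ M) '' (P0.rootSet (PadicAlgCl l)) ⊆
      (fun a : PadicAlgCl l => a ^ M) '' P'.rootSet (PadicAlgCl l) := by
    rintro _ ⟨z, hz, rfl⟩
    exact ⟨β z, mem_rootSet.2 ⟨hP', (hβ z (mem_rootSet.1 hz).2).1⟩, rfl⟩
  have hfin : ((fun a : PadicAlgCl l => a ^ M) '' P'.rootSet (PadicAlgCl l)).Finite :=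
    (P'.rootSet (PadicAlgCl l)).toFinite.image _
  have hc1 : ((fun z => (β z) ^ M) '' (P0.rootSet (PadicAlgCl l))).ncard =
      (P0.rootSet (PadicAlgCl l)).ncard :=
    Set.InjOn.ncard_image fun z hz z' hz' h =>
      hβinj z z' (mem_rootSet.1 hz).2 (mem_rootSet.1 hz').2 h
  have heq := Set.eq_of_subset_of_ncard_le hsub (by rw [hc1]; exact hcard) hfin
  -- every root of `P'` is some `β z`
  have hsurj : ∀ y, aeval y P' = 0 → ∃ z, aeval z P0 = 0 ∧ β z = y := by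
    intro y hy
    have h1 : y ^ M ∈ (fun a : PadicAlgCl l => a ^ M) '' P'.rootSet (PadicAlgCl l) :=
      ⟨y, mem_rootSet.2 ⟨hP', hy⟩, rfl⟩
    rw [← heq] at h1
    obtain ⟨z, hz, hzy'⟩ := h1
    have hz0 := (mem_rootSet.1 hz).2
    have hzy2 : (β z) ^ M = y ^ M := hzy'
    obtain ⟨z', hz', hyz'⟩ := hyz y hy
    have hzz : z' = z := by
      refine hA (y ^ M) z' z hz' hz0 (hpow y z' hy hz' hyz') ?_
      rw [← hzy2]
      exact hβs z hz0
    rw [hzz] at hyz'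
    have hzn : μ < ‖z‖ := hμR z ((hmem z).2 hz0)
    have hbz : ‖β z - z‖ < μ := (hβ z hz0).2.trans_le heμ
    have hβn : ‖β z‖ = ‖z‖ := by
      have h2 : β z = z + (β z - z) := by ring
      rw [h2, IsUltrametricDist.norm_add_eq_max_of_norm_ne_norm (hbz.trans hzn).ne',
        max_eq_left (hbz.trans hzn).le]
    have hβ0 : β z ≠ 0 := by
      rw [← norm_pos_iff, hβn]
      exact hμ.trans hzn
    have h3 : y / β z = 1 := by
      refine hg _ ?_ ?_
      · rw [div_pow, hzy2, div_self (pow_ne_zero _ ?_)]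
        intro h4
        rw [h4, zero_pow hM.ne'] at hzy2
        exact pow_ne_zero M hβ0 hzy2
      · have h4 : y / β z - 1 = (y - β z) / β z := by field_simp
        rw [h4, norm_div, div_lt_iff₀ (by rw [hβn]; exact hμ.trans hzn), hβn]
        have h5 : ‖y - β z‖ < e := by
          refine lt_of_le_of_lt (c1_tri y z (β z)) (max_lt hyz' ?_)
          rw [norm_sub_rev]
          exact (hβ z hz0).2
        calc ‖y - β z‖ < e := h5
          _ ≤ g * μ := heg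
          _ ≤ g * ‖z‖ := mul_le_mul_of_nonneg_left hzn.le hg0.le
    exact ⟨z, hz0, ((div_eq_one_iff_eq hβ0).1 h3).symm⟩
  have huniq : ∀ y z, aeval y P' = 0 → aeval z P0 = 0 → ‖y - z‖ < e → y = β z := by
    intro y z hy hz h
    obtain ⟨z1, hz1, rfl⟩ := hsurj y hy
    rw [hA ((β z1) ^ M) z1 z hz1 hz (hβs z1 hz1) (hpow _ _ hy hz h)]
  refine ⟨?_, ?_, β, fun z hz => (hβ z hz).1, fun z hz => (hβ z hz).2.trans_le heε, hsurj, ?_⟩
  · intro a a' ha ha' haa
    obtain ⟨z, hz, rfl⟩ := hsurj a ha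
    obtain ⟨z', hz', rfl⟩ := hsurj a' ha'
    rw [hβinj z z' hz hz' haa]
  · have h1 : P'.rootSet (PadicAlgCl l) = β '' (P0.rootSet (PadicAlgCl l)) := by
      ext y
      constructor
      · intro hy
        obtain ⟨z, hz, hzy'⟩ := hsurj y (mem_rootSet.1 hy).2
        exact ⟨z, mem_rootSet.2 ⟨hP0, hz⟩, hzy'⟩
      · rintro ⟨z, hz, rfl⟩
        exact mem_rootSet.2 ⟨hP', (hβ z (mem_rootSet.1 hz).2).1⟩
    rw [h1]
    refine Set.InjOn.ncard_image fun z hz z' hz' h => ?_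
    refine hβinj z z' (mem_rootSet.1 hz).2 (mem_rootSet.1 hz').2 ?_
    rw [h]
  · intro σ z hz
    have hσz : aeval (σ z) P0 = 0 := by
      have h := Polynomial.aeval_algHom_apply (σ : PadicAlgCl l →ₐ[ℚ_[l]] PadicAlgCl l) z P0
      rw [hz, map_zero] at h
      exact h
    have hσy : aeval (σ (β z)) P' = 0 := by
      have h := Polynomial.aeval_algHom_apply (σ : PadicAlgCl l →ₐ[ℚ_[l]] PadicAlgCl l) (β z) P'
      rw [(hβ z hz).1, map_zero] at h
      exact h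
    refine huniq _ _ hσy hσz ?_
    rw [← map_sub, norm_gal]
    exact (hβ z hz).2

end Pool.Agent.Lib.H90A
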