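import Mathlib
import Pool.Agent.Lib.H90A.Defs
import Pool.Agent.Lib.H90A.L4
import Pool.Agent.Lib.H81D.E2
import Pool.Agent.Lib.H81D.R1

/-!
# The exponent and the maximal number of roots (complete)
-/

namespace Pool.Agent.Lib.H90A

open Polynomial Module Filter Topology NumberField Pool.Agent.GSem Pool.Agent.GSD Pool.Agent.Ord
  Pool.Agent.Lib.H81D

/-- `M` is an exponent for the roots of unity which occur as quotients of roots of polynomials of
degree at most `n`, and `d` is the maximal number of `M`-th powers of roots of Frobenius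
polynomials. -/
structure IsMax {Ω : Type} [Field Ω] [CharZero Ω] {Γ : Subgroup Gal(Ω/ℚ)} {n : ℕ}
    (ρ : ∀ (p : ℕ) [Fact p.Prime], Representation ℚ_[p] Γ (Fin n → ℚ_[p])) (w : ℤ)
    (M d : ℕ) : Prop where
  pos : 0 < M
  exp : ∀ P : ℚ[X], P ≠ 0 → P.natDegree ≤ n → ∀ z z' : Ω, aeval z P = 0 →
      aeval z' P = 0 → z' ≠ 0 → ∀ k : ℕ, 0 < k → z ^ k = z' ^ k → z ^ M = z' ^ M
  max : ∀ (q : ℕ) (P : ℚ[X]), IsFrobPoly ρ w q P → numPow Ω P M ≤ d

variable {Ω : Type} [Field Ω] [CharZero Ω] [IsAlgClosure ℚ Ω]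

/-- The roots of `P` in the closure of `ℚ_l` are the images of the roots in `Ω`. -/
theorem rootSet_map {l : ℕ} [Fact l.Prime] (ι : Ω →+* PadicAlgCl l) {P : ℚ[X]} (hP : P ≠ 0) :
    (P.map (algebraMap ℚ ℚ_[l])).rootSet (PadicAlgCl l) = ι '' (P.rootSet Ω) := by
  ext y
  have h0 : P.map (algebraMap ℚ ℚ_[l]) ≠ 0 := (Polynomial.map_ne_zero_iff (algebraMap ℚ ℚ_[l]).injective).2 hP
  rw [mem_rootSet, e2_root ι hP y]
  constructor
  · rintro ⟨-, z, hz, rfl⟩
    exact ⟨z, mem_rootSet.2 ⟨hP, hz⟩, rfl⟩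
  · rintro ⟨z, hz, rfl⟩
    exact ⟨h0, z, (mem_rootSet.1 hz).2, rfl⟩

theorem ncard_map {l : ℕ} [Fact l.Prime] (ι : Ω →+* PadicAlgCl l) {P : ℚ[X]} (hP : P ≠ 0) :
    ((P.map (algebraMap ℚ ℚ_[l])).rootSet (PadicAlgCl l)).ncard = (P.rootSet Ω).ncard := by
  rw [rootSet_map ι hP]
  exact Set.ncard_image_of_injective _ ι.injective

theorem ncard_map_pow {l : ℕ} [Fact l.Prime] (ι : Ω →+* PadicAlgCl l) {P : ℚ[X]} (hP : P ≠ 0)
    (M : ℕ) : ((fun a : PadicAlgCl l => a ^ M) ''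
      (P.map (algebraMap ℚ ℚ_[l])).rootSet (PadicAlgCl l)).ncard = numPow Ω P M := by
  rw [rootSet_map ι hP, Set.image_image, numPow]
  have h1 : (fun z : Ω => ι z ^ M) '' P.rootSet Ω = ι '' ((fun z : Ω => z ^ M) '' P.rootSet Ω) := by
    rw [Set.image_image]
    refine Set.image_congr fun z _ => ?_
    rw [map_pow]
  rw [h1]
  exact Set.ncard_image_of_injective _ ι.injective

end Pool.Agent.Lib.H90A
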