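import Mathlib
import Pool.Agent.Lib.H90A.Bas

/-!
# Local transfer (complete)
-/

namespace Pool.Agent.Lib.H90A

open Polynomial Module Filter Topology NumberField Pool.Agent.GSem Pool.Agent.GSD Pool.Agent.Ord
  Pool.Agent.Lib.H81D

variable {Ω : Type} [Field Ω] [CharZero Ω] [IsAlgClosure ℚ Ω] {Γ : Subgroup Gal(Ω/ℚ)} {n : ℕ}
  {ρ : ∀ (p : ℕ) [Fact p.Prime], Representation ℚ_[p] Γ (Fin n → ℚ_[p])} {w : ℤ}

/-- The roots of the characteristic polynomial of `ρ l (φ0 ^ B)`. -/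
theorem root_pow_datum {q0 : ℕ} {φ0 : Γ} {P0 : ℚ[X]} (h0 : IsDatum ρ w q0 φ0 P0)
    (l : ℕ) [Fact l.Prime] (hl : l ≠ q0) {B : ℕ} (hB : 0 < B) (ι : Ω →+* PadicAlgCl l)
    (y : PadicAlgCl l) :
    aeval y (mat (ρ l) φ0 ^ B).charpoly = 0 ↔ ∃ z : Ω, aeval z P0 = 0 ∧ (ι z) ^ B = y := by
  have hP0 : P0 ≠ 0 := h0.monic.ne_zero
  have hA0 : (mat (ρ l) φ0).charpoly = P0.map (algebraMap ℚ ℚ_[l]) := by
    rw [mat_charpoly]
    exact h0.char l hl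
  rw [root_pow_iff _ hB]
  constructor
  · rintro ⟨a, ha, rfl⟩
    rw [hA0] at ha
    obtain ⟨z, hz, rfl⟩ := (e2_root ι hP0 a).1 ha
    exact ⟨z, hz, rfl⟩
  · rintro ⟨z, hz, rfl⟩
    refine ⟨ι z, ?_, rfl⟩
    rw [hA0]
    exact (e2_root ι hP0 _).2 ⟨z, hz, rfl⟩

theorem injPow_datum {q0 : ℕ} {φ0 : Γ} {P0 : ℚ[X]} (h0 : IsDatum ρ w q0 φ0 P0)
    (hn : NoTors Ω P0) (l : ℕ) [Fact l.Prime] (hl : l ≠ q0) {B : ℕ} (hB : 0 < B) {M : ℕ}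
    (hM : 0 < M) (ι : Ω →+* PadicAlgCl l) : InjPow (mat (ρ l) φ0 ^ B).charpoly M := by
  intro a a' ha ha' haa
  obtain ⟨z, hz, rfl⟩ := (root_pow_datum h0 l hl hB ι a).1 ha
  obtain ⟨z', hz', rfl⟩ := (root_pow_datum h0 l hl hB ι a').1 ha'
  rw [← pow_mul, ← pow_mul, ← map_pow, ← map_pow] at haa
  rw [hn z z' hz hz' (B * M) (Nat.mul_pos hB hM) (ι.injective haa)]

theorem ncard_datum {q0 : ℕ} {φ0 : Γ} {P0 : ℚ[X]} (h0 : IsDatum ρ w q0 φ0 P0)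
    (hn : NoTors Ω P0) (l : ℕ) [Fact l.Prime] (hl : l ≠ q0) {B : ℕ} (hB : 0 < B)
    (ι : Ω →+* PadicAlgCl l) :
    ((mat (ρ l) φ0 ^ B).charpoly.rootSet (PadicAlgCl l)).ncard = (P0.rootSet Ω).ncard := by
  have h1 : (mat (ρ l) φ0 ^ B).charpoly.rootSet (PadicAlgCl l) =
      (fun z : Ω => (ι z) ^ B) '' (P0.rootSet Ω) := by
    ext y
    rw [mem_rootSet, root_pow_datum h0 l hl hB ι y]
    constructor
    · rintro ⟨-, z, hz, rfl⟩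
      exact ⟨z, mem_rootSet.2 ⟨h0.monic.ne_zero, hz⟩, rfl⟩
    · rintro ⟨z, hz, rfl⟩
      exact ⟨(Matrix.charpoly_monic _).ne_zero, z, (mem_rootSet.1 hz).2, rfl⟩
  rw [h1]
  refine Set.InjOn.ncard_image fun z hz z' hz' h => ?_
  have h2 : ι (z ^ B) = ι (z' ^ B) := by
    rw [map_pow, map_pow]
    exact h
  exact hn z z' (mem_rootSet.1 hz).2 (mem_rootSet.1 hz').2 B hB (ι.injective h2)

theorem star_datum {q0 : ℕ} {φ0 : Γ} {P0 : ℚ[X]} (h0 : IsDatum ρ w q0 φ0 P0)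
    (l : ℕ) [Fact l.Prime] (hl : l ≠ q0) {B : ℕ} (hB : 0 < B) (ι : Ω →+* PadicAlgCl l) :
    Star (mat (ρ l) φ0 ^ B).charpoly (((q0 : ℚ_[l]) ^ B) ^ (-w)) := by
  intro y hy
  obtain ⟨z, hz, rfl⟩ := (root_pow_datum h0 l hl hB ι y).1 hy
  obtain ⟨h1, h2⟩ := star_root h0.prime.pos h0.pure hz
  have h3 : ι z ≠ 0 := by rwa [Ne, map_eq_zero]
  refine ⟨pow_ne_zero _ h3, (root_pow_datum h0 l hl hB ι _).2 ⟨_, h2, ?_⟩⟩
  rw [map_div₀, e2_zpow, div_pow, ← map_pow]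
  congr 2
  rw [← zpow_natCast, ← zpow_natCast, ← zpow_mul, ← zpow_mul, mul_comm]

/-- Local transfer: the proof of `H81D.transfer` with `exists_transM`. -/
theorem transferM {M d : ℕ} (hmax : IsMax ρ w M d) {q0 : ℕ} {φ0 : Γ} {P0 : ℚ[X]}
    (h0 : IsDatum ρ w q0 φ0 P0) (hn : NoTors Ω P0) (hd0 : (P0.rootSet Ω).ncard = d)
    (l : ℕ) [Fact l.Prime] (hl : l ≠ q0) {B : ℕ} (hB : 0 < B) :
    ∃ N : ℕ, ∀ (q : ℕ) (φ : Γ) (P : ℚ[X]), IsDatum ρ w q φ P → q ≠ l →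
      Cg N (kap (ρ l) φ) (kap (ρ l) φ0 ^ B) →
      NoTors Ω P ∧ (P.rootSet Ω).ncard = d ∧
        ∀ (ι : Ω →+* PadicAlgCl l) (σ : Gal(PadicAlgCl l/ℚ_[l])) (h : Gal(Ω/ℚ)),
        Compat ι σ h →
          (h ∈ kerP Ω P0 → h ∈ kerP Ω P) ∧ (IsOdd w q0 P0 h → IsOdd w q P h) := by
  classical
  have hcl : IsAlgClosed Ω := IsAlgClosure.isAlgClosed ℚ
  have halg : Algebra.IsAlgebraic ℚ Ω := IsAlgClosure.isAlgebraic
  let ι0 : Ω →+* PadicAlgCl l :=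
    (IsAlgClosed.lift (M := PadicAlgCl l) (R := ℚ) (S := Ω) : Ω →ₐ[ℚ] PadicAlgCl l)
  have hq0l : (q0 : ℚ_[l]) ≠ 0 := by
    exact_mod_cast h0.prime.ne_zero
  have hrootB := fun (ι : Ω →+* PadicAlgCl l) => root_pow_datum h0 l hl hB ι
  obtain ⟨δ, hδ, htr⟩ := exists_transM _ (Matrix.charpoly_monic _) hmax.pos
    (injPow_datum h0 hn l hl hB hmax.pos ι0) _ (star_datum h0 l hl hB ι0)
  obtain ⟨N1, hN1⟩ := exists_cg_charpoly (mat (ρ l) φ0 ^ B) δ hδ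
  obtain ⟨N2, hN2⟩ := exists_close_zpow ((q0 : ℚ_[l]) ^ B) (pow_ne_zero _ hq0l) w δ hδ
  refine ⟨max N1 N2, fun q φ P hd hql hcg => ?_⟩
  have hP : P ≠ 0 := hd.monic.ne_zero
  have hA : (mat (ρ l) φ).charpoly = P.map (algebraMap ℚ ℚ_[l]) := by
    rw [mat_charpoly]
    exact hd.char l hql.symm
  have h1 := cg_norm_of_kap (ρ l) (hcg.mono (le_max_right N1 N2)) hd.prime h0.prime hql hl.symm
    hd.frob h0.frob
  have h2 := hN1 _ (cg_mat_of_kap (ρ l) (hcg.mono (le_max_left N1 N2)))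
  rw [hA] at h2
  have hdeg : (P.map (algebraMap ℚ ℚ_[l])).natDegree = (mat (ρ l) φ0 ^ B).charpoly.natDegree := by
    rw [← hA, Matrix.charpoly_natDegree_eq_dim, Matrix.charpoly_natDegree_eq_dim]
  have hcard : ((fun a : PadicAlgCl l => a ^ M) ''
      (P.map (algebraMap ℚ ℚ_[l])).rootSet (PadicAlgCl l)).ncard ≤
        ((mat (ρ l) φ0 ^ B).charpoly.rootSet (PadicAlgCl l)).ncard := by
    rw [ncard_map_pow ι0 hP, ncard_datum h0 hn l hl hB ι0, hd0]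
    exact hmax.max q P ((isFrobPoly_iff ρ w q P).2 ⟨φ, hd⟩)
  obtain ⟨hinj, hcd, β, hβ⟩ := htr (P.map (algebraMap ℚ ℚ_[l])) ((q : ℚ_[l]) ^ (-w))
    (hd.monic.map _) hdeg h2 (hN2 _ h1) (e2_star ι0 hd.prime.pos hP hd.pure) hcard
  refine ⟨?_, ?_, fun ι σ h hc => ?_⟩
  · intro z z' hz hz' k hk hzz
    have h3 := hmax.exp P hP hd.natDegree.le z z' hz hz' (star_root hd.prime.pos hd.pure hz').1 k hk hzz
    refine ι0.injective (hinj _ _ ((e2_root ι0 hP _).2 ⟨z, hz, rfl⟩)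
      ((e2_root ι0 hP _).2 ⟨z', hz', rfl⟩) ?_)
    rw [← map_pow, ← map_pow, h3]
  · rw [← ncard_map ι0 hP, hcd, ncard_datum h0 hn l hl hB ι0, hd0]
  -- the roots of `P`
  have hy : ∀ y : Ω, aeval y P = 0 → ∃ z : Ω, aeval z P0 = 0 ∧
      ∀ k : ℕ, ι ((h ^ k) y) = β ((ι ((h ^ k) z)) ^ B) := by
    intro y hy
    obtain ⟨x, hx, hxy⟩ := hβ.surj (ι y) ((e2_root ι hP _).2 ⟨y, hy, rfl⟩)
    obtain ⟨z, hz, rfl⟩ := (hrootB ι x).1 hx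
    refine ⟨z, hz, fun k => ?_⟩
    rw [e2_compat_pow hc, e2_compat_pow hc, ← hxy, hβ.equi _ _ hx, map_pow]
  constructor
  · intro hk y hyP
    obtain ⟨z, hz, hzk⟩ := hy y hyP
    have h3 := hzk 1
    have h4 := hzk 0
    rw [pow_one, hk z hz] at h3
    rw [pow_zero, AlgEquiv.one_apply, AlgEquiv.one_apply, ← h3] at h4
    exact (ι.injective h4).symm
  · intro ho y hyP
    obtain ⟨z, hz, hzk⟩ := hy y hyP
    obtain ⟨k, hk⟩ := ho z hz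
    refine ⟨k, ?_⟩
    have hz0 : z ≠ 0 := (star_root h0.prime.pos h0.pure hz).1
    have hy0 : y ≠ 0 := (star_root hd.prime.pos hd.pure hyP).1
    have h3 := hzk k
    have h4 := hzk 0
    rw [pow_zero, AlgEquiv.one_apply, AlgEquiv.one_apply] at h4
    rw [← eq_div_iff hz0] at hk
    have h5 : (ι ((h ^ k) z)) ^ B =
        algebraMap ℚ_[l] (PadicAlgCl l) (((q0 : ℚ_[l]) ^ B) ^ (-w)) / (ι z) ^ B := by
      rw [hk, map_div₀, e2_zpow, div_pow, ← map_pow]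
      congr 2
      rw [← zpow_natCast, ← zpow_natCast, ← zpow_mul, ← zpow_mul, mul_comm]
    rw [h5, hβ.star _ ((hrootB ι _).2 ⟨z, hz, rfl⟩), ← h4, ← e2_zpow ι, ← map_div₀] at h3
    rw [ι.injective h3, div_mul_cancel₀ _ hy0]

end Pool.Agent.Lib.H90A
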