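import Mathlib
import Pool.Agent.Lib.H90A.E2
import Pool.Agent.Lib.H81D.E3

/-!
# Chunk N1a (S/M): numbers of powers of roots
-/

namespace Pool.Agent.Lib.H90A

open Polynomial Module Filter Topology NumberField Pool.Agent.GSem Pool.Agent.GSD Pool.Agent.Ord
  Pool.Agent.Lib.H81D

variable {Ω : Type} [Field Ω] [CharZero Ω] [IsAlgClosure ℚ Ω] {Γ : Subgroup Gal(Ω/ℚ)} {n : ℕ}
  {ρ : ∀ (p : ℕ) [Fact p.Prime], Representation ℚ_[p] Γ (Fin n → ℚ_[p])} {w : ℤ}

/-- `numPow Ω P k ≤ natDegree = n` for a Frobenius polynomial: `Set.ncard_image_le`, the root set has at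
most `natDegree` elements (`Polynomial.ncard_rootSet_le` or `card_rootSet_le`/`rootSet_def`,
`Multiset.toFinset_card_le`, `card_roots'`). -/
theorem numPow_le_n {q : ℕ} {P : ℚ[X]} (h : IsFrobPoly ρ w q P) (k : ℕ) : numPow Ω P k ≤ n := by
  classical
  obtain ⟨φ, hd⟩ := (isFrobPoly_iff ρ w q P).1 h
  have h1 : (P.rootSet Ω).ncard ≤ n := by
    rw [← hd.natDegree, ← natDegree_map (algebraMap ℚ Ω) (p := P), rootSet_def,
      Set.ncard_coe_finset]
    exact (Multiset.toFinset_card_le _).trans (card_roots' _)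
  exact (Set.ncard_image_le (P.rootSet Ω).toFinite).trans h1

/-- For an exponent `M` the number of `M`-th powers is the smallest: `z ^ k ↦ z ^ M` is well defined
(`exp`; the roots are nonzero by `star_root`), so the `M`-th powers are the image of the `k`-th powers
under a map (choose a root for every `k`-th power; `Set.ncard_image_le`). -/
theorem numPow_le {M d : ℕ} (hmax : IsMax ρ w M d) {q : ℕ} {P : ℚ[X]} (h : IsFrobPoly ρ w q P)
    {k : ℕ} (hk : 0 < k) : numPow Ω P M ≤ numPow Ω P k := by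
  classical
  obtain ⟨φ, hd⟩ := (isFrobPoly_iff ρ w q P).1 h
  have hP : P ≠ 0 := hd.monic.ne_zero
  let f : Ω → Ω := fun y => if hy : ∃ z : Ω, aeval z P = 0 ∧ z ^ k = y then
    (Classical.choose hy) ^ M else 0
  have hsub : (fun z : Ω => z ^ M) '' P.rootSet Ω ⊆ f '' ((fun z : Ω => z ^ k) '' P.rootSet Ω) := by
    rintro _ ⟨z, hz, rfl⟩
    have hz0 := (mem_rootSet.1 hz).2
    have hex : ∃ z' : Ω, aeval z' P = 0 ∧ z' ^ k = z ^ k := ⟨z, hz0, rfl⟩
    refine ⟨z ^ k, ⟨z, hz, rfl⟩, ?_⟩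
    show f (z ^ k) = z ^ M
    have h1 : f (z ^ k) = (Classical.choose hex) ^ M := dif_pos hex
    obtain ⟨h2, h3⟩ := Classical.choose_spec hex
    rw [h1]
    exact hmax.exp P hP hd.natDegree.le _ _ h2 hz0 (star_root hd.prime.pos hd.pure hz0).1 k hk h3
  have hfin : ((fun z : Ω => z ^ k) '' P.rootSet Ω).Finite := (P.rootSet Ω).toFinite.image _
  exact (Set.ncard_le_ncard hsub (hfin.image f)).trans (Set.ncard_image_le hfin)

/-- If no quotient of different roots is a root of unity, `z ↦ z ^ k` is injective on the roots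
(`Set.InjOn.ncard_image`). -/
theorem numPow_eq {P : ℚ[X]} (h : NoTors Ω P) {k : ℕ} (hk : 0 < k) :
    numPow Ω P k = (P.rootSet Ω).ncard := by
  exact Set.InjOn.ncard_image fun z hz z' hz' hzz =>
    h z z' (mem_rootSet.1 hz).2 (mem_rootSet.1 hz').2 k hk hzz

end Pool.Agent.Lib.H90A
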