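import Mathlib
import Pool.Agent.Lib.H90A.E2
import Pool.Agent.Lib.H81D.E3
import Pool.Agent.Lib.H90A.N1a

/-!
# Chunk N1 (S/M): the exponent and the maximum exist
-/

namespace Pool.Agent.Lib.H90A

open Polynomial Module Filter Topology NumberField Pool.Agent.GSem Pool.Agent.GSD Pool.Agent.Ord
  Pool.Agent.Lib.H81D

variable {Ω : Type} [Field Ω] [CharZero Ω] [IsAlgClosure ℚ Ω] {Γ : Subgroup Gal(Ω/ℚ)} {n : ℕ}
  {ρ : ∀ (p : ℕ) [Fact p.Prime], Representation ℚ_[p] Γ (Fin n → ℚ_[p])} {w : ℤ}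

/-- Proof. `M` from `H81D.exists_exp Ω n`. There is a Frobenius polynomial: `exists_frob_mem` with
`U = Set.univ`, `g = 1`, `b` = maximum of the exceptional set of `hsys` (as in `H81D.exists_neat_of_pow`). The
numbers `numPow Ω P M` of the Frobenius polynomials form a nonempty bounded set (`numPow_le_n`); `d` is
its maximum (`Nat.sSup_mem`, `le_csSup`). -/
theorem exists_isMax (hΓ : IsOpen (Γ : Set Gal(Ω/ℚ))) (hsys : IsPureSys ρ w) :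
    ∃ M d : ℕ, IsMax ρ w M d ∧ ∃ (q : ℕ) (φ : Γ) (P : ℚ[X]), IsDatum ρ w q φ P ∧
      numPow Ω P M = d := by
  obtain ⟨M, hM, hexp⟩ := exists_exp Ω n
  obtain ⟨T, hT⟩ := hsys
  obtain ⟨q, hq, hqp, φ, -, hfr⟩ := exists_frob_mem hΓ Set.univ isOpen_univ (1 : Γ)
    (Set.mem_univ _) (T.sup id)
  have hqT : q ∉ T := by
    intro h
    have h1 : q ≤ T.sup id := Finset.le_sup (f := id) h
    exact absurd hq (not_lt.2 h1)
  obtain ⟨P, hP, hchar⟩ := hT q hqp hqT φ hfr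
  have hd : IsDatum ρ w q φ P := ⟨hqp, hP, hfr, fun p' _ hp' => hchar p' hp'⟩
  let S : Set ℕ := {m | ∃ (q : ℕ) (P : ℚ[X]), IsFrobPoly ρ w q P ∧ numPow Ω P M = m}
  have hne : S.Nonempty := ⟨numPow Ω P M, q, P, (isFrobPoly_iff ρ w q P).2 ⟨φ, hd⟩, rfl⟩
  have hbdd : BddAbove S := ⟨n, by
    rintro m ⟨q, P, hqP, rfl⟩
    exact numPow_le_n hqP M⟩
  obtain ⟨q1, P1, hqP1, hm⟩ := Nat.sSup_mem hne hbdd
  obtain ⟨φ1, hd1⟩ := (isFrobPoly_iff ρ w q1 P1).1 hqP1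
  exact ⟨M, sSup S, ⟨hM, hexp, fun q P hqP => le_csSup hbdd ⟨q, P, hqP, rfl⟩⟩,
    q1, φ1, P1, hd1, hm⟩

end Pool.Agent.Lib.H90A
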