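import Mathlib
import Pool.Agent.Lib.H90A.N1

/-!
# Chunk N2a (S): the eigenvalues are nonzero
-/

namespace Pool.Agent.Lib.H90A

open Polynomial Module Filter Topology NumberField Pool.Agent.GSem Pool.Agent.GSD Pool.Agent.Ord
  Pool.Agent.Lib.H81D

variable {Ω : Type} [Field Ω] [CharZero Ω] [IsAlgClosure ℚ Ω] {Γ : Subgroup Gal(Ω/ℚ)} {n : ℕ}
  {ρ : ∀ (p : ℕ) [Fact p.Prime], Representation ℚ_[p] Γ (Fin n → ℚ_[p])} {w : ℤ}

/-- The element `g` has `d` eigenvalues modulo roots of unity: `d` different `M`-th powers of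
eigenvalues, and `z ^ M`, `z' ^ M` do not differ by an `M`-th root of unity unless they are equal. -/
structure IsTop {l : ℕ} [Fact l.Prime] (r : Representation ℚ_[l] Γ (Fin n → ℚ_[l])) (g : Γ)
    (M d : ℕ) : Prop where
  card : ((fun a : PadicAlgCl l => a ^ M) ''
    (mat r g).charpoly.rootSet (PadicAlgCl l)).ncard = d
  inj : ∀ a a' : PadicAlgCl l, aeval a (mat r g).charpoly = 0 → aeval a' (mat r g).charpoly = 0 →
    (a ^ M) ^ M = (a' ^ M) ^ M → a ^ M = a' ^ M

/-- The eigenvalues of `r g` are nonzero: `mat r g * mat r g⁻¹ = 1` (`mat_mul`, `mat_one`), so the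
determinant is nonzero; the constant coefficient of the charpoly is `± det`
(`Matrix.det_eq_sign_charpoly_coeff`), or `0` is not in the spectrum of a unit
(`spectrum.zero_notMem_iff`, see the proof of `H81D.root_pow_iff`). -/
theorem root_ne_zero {l : ℕ} [Fact l.Prime] (r : Representation ℚ_[l] Γ (Fin n → ℚ_[l])) (g : Γ)
    (a : PadicAlgCl l) (ha : aeval a (mat r g).charpoly = 0) : a ≠ 0 := by
  rintro rfl
  have h1 : (mat r g).charpoly.coeff 0 = 0 := by
    rw [← coeff_zero_eq_aeval_zero'] at ha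
    exact (algebraMap ℚ_[l] (PadicAlgCl l)).injective (by rw [ha, map_zero])
  have h2 : (mat r g).det = 0 := by
    rw [Matrix.det_eq_sign_charpoly_coeff, h1, mul_zero]
  have h3 : mat r g * mat r g⁻¹ = 1 := by
    rw [← mat_mul, mul_inv_cancel, mat_one]
  have h4 := congrArg Matrix.det h3
  rw [Matrix.det_mul, h2, zero_mul, Matrix.det_one] at h4
  exact zero_ne_one h4

end Pool.Agent.Lib.H90A
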