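import Mathlib
import Pool.Agent.Lib.H90A.N1
import Pool.Agent.Lib.H90A.N2a

/-!
# Chunk N2 (M): neat Frobenius polynomials close to an element with many eigenvalues
-/

namespace Pool.Agent.Lib.H90A

open Polynomial Module Filter Topology NumberField Pool.Agent.GSem Pool.Agent.GSD Pool.Agent.Ord
  Pool.Agent.Lib.H81D

variable {Ω : Type} [Field Ω] [CharZero Ω] [IsAlgClosure ℚ Ω] {Γ : Subgroup Gal(Ω/ℚ)} {n : ℕ}
  {ρ : ∀ (p : ℕ) [Fact p.Prime], Representation ℚ_[p] Γ (Fin n → ℚ_[p])} {w : ℤ}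

/-- Proof. `A0 = mat (ρ l) g ^ M`: its roots are the `a ^ M` (`root_pow_iff`), there are `d` of them
(`hg.card`), and `InjPow A0.charpoly M` (`hg.inj`); they are nonzero (`root_ne_zero`). `δ` from `exists_rootMapM` for
`A0.charpoly`, `ε = 1`; `N` from `exists_cg_charpoly A0 δ`. The set `U' = {φ | Cg N (mat (ρ l) φ) (mat (ρ l) (g ^ M))}`
is open (copy from `H81D.exists_neat_split`) and contains `g ^ M` (`mat_pow`, `Cg.refl`). `exists_frob_mem`
gives a Frobenius element `φ ∈ U'` at a prime `q > l`, `q > b`, `q` not in the exceptional set of `hsys`, `P` from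
`hsys` (copy from `H81D.exists_neat_mem`). The charpoly of `mat (ρ l) φ` is `P` over `ℚ_l`. The hypothesis
on the cardinality in `exists_rootMapM` holds by `ncard_map_pow` and `hmax.max` (as in `transferM`). So
`InjPow` holds for `P` over `ℚ_l`, and `NoTors Ω P`, `ncard = d` follow as in `transferM`. If the charpoly of
`A = mat (ρ l) g` splits, its roots `a` are in `ℚ_l`, so are the `a ^ M`, fixed by `σ`; so `σ (ι y) = ι y` for the
roots `y` of `P` (`β` is onto and equivariant), i.e. `h y = y`: the end of the proof of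
`H81D.exists_neat_split`. -/
theorem exists_near {M d : ℕ} (hmax : IsMax ρ w M d) (hΓ : IsOpen (Γ : Set Gal(Ω/ℚ)))
    (hsys : IsPureSys ρ w) (l : ℕ) [Fact l.Prime] (hcont : IsCont (ρ l)) (g : Γ)
    (hg : IsTop (ρ l) g M d) (b : ℕ) :
    ∃ (q : ℕ) (φ : Γ) (P : ℚ[X]), b < q ∧ l ≠ q ∧ IsDatum ρ w q φ P ∧ NoTors Ω P ∧
      (P.rootSet Ω).ncard = d ∧ ((LinearMap.charpoly (ρ l g)).Splits →
        ∀ (ι : Ω →+* PadicAlgCl l) (σ : Gal(PadicAlgCl l/ℚ_[l])) (h : Gal(Ω/ℚ)),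
          Compat ι σ h → h ∈ kerP Ω P) := by
  classical
  have halg : Algebra.IsAlgebraic ℚ Ω := IsAlgClosure.isAlgebraic
  have hcl : IsAlgClosed Ω := IsAlgClosure.isAlgClosed ℚ
  let ι0 : Ω →+* PadicAlgCl l :=
    (IsAlgClosed.lift (M := PadicAlgCl l) (R := ℚ) (S := Ω) : Ω →ₐ[ℚ] PadicAlgCl l)
  have hroot : ∀ y : PadicAlgCl l, aeval y (mat (ρ l) g ^ M).charpoly = 0 ↔
      ∃ a : PadicAlgCl l, aeval a (mat (ρ l) g).charpoly = 0 ∧ a ^ M = y :=
    root_pow_iff _ hmax.pos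
  have hset : (mat (ρ l) g ^ M).charpoly.rootSet (PadicAlgCl l) =
      (fun a : PadicAlgCl l => a ^ M) '' (mat (ρ l) g).charpoly.rootSet (PadicAlgCl l) := by
    ext y
    rw [mem_rootSet, hroot]
    constructor
    · rintro ⟨-, a, ha, rfl⟩
      exact ⟨a, mem_rootSet.2 ⟨(Matrix.charpoly_monic _).ne_zero, ha⟩, rfl⟩
    · rintro ⟨a, ha, rfl⟩
      exact ⟨(Matrix.charpoly_monic _).ne_zero, a, (mem_rootSet.1 ha).2, rfl⟩
  have hinj : InjPow (mat (ρ l) g ^ M).charpoly M := by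
    intro y y' hy hy' hyy
    obtain ⟨a, ha, rfl⟩ := (hroot y).1 hy
    obtain ⟨a', ha', rfl⟩ := (hroot y').1 hy'
    exact hg.inj a a' ha ha' hyy
  have hnz : ∀ y : PadicAlgCl l, aeval y (mat (ρ l) g ^ M).charpoly = 0 → y ≠ 0 := by
    intro y hy
    obtain ⟨a, ha, rfl⟩ := (hroot y).1 hy
    exact pow_ne_zero _ (root_ne_zero _ _ a ha)
  obtain ⟨δ, hδ, H⟩ := exists_rootMapM (mat (ρ l) g ^ M).charpoly (Matrix.charpoly_monic _)
    hnz hmax.pos hinj 1 one_pos
  obtain ⟨N, hN⟩ := exists_cg_charpoly (mat (ρ l) g ^ M) δ hδ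
  let U' : Set Γ := {φ | Cg N (mat (ρ l) φ) (mat (ρ l) g ^ M)}
  have hU' : IsOpen U' := by
    have h0 : (0 : ℝ) < l := by exact_mod_cast (Fact.out : l.Prime).pos
    have h1 : U' = ⋂ i : Fin n, ⋂ j : Fin n,
        (fun φ : Γ => mat (ρ l) φ i j) ⁻¹' (Metric.closedBall ((mat (ρ l) g ^ M) i j)
          (((l : ℝ) ^ N)⁻¹)) := by
      ext φ
      simp only [Set.mem_iInter, Set.mem_preimage, Metric.mem_closedBall, dist_eq_norm]
      rfl
    rw [h1]
    refine isOpen_iInter_of_finite fun i => isOpen_iInter_of_finite fun j => ?_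
    refine (IsUltrametricDist.isOpen_closedBall _ (by positivity)).preimage ?_
    exact (continuous_mat hcont).matrix_elem i j
  have hgU : g ^ M ∈ U' := by
    show Cg N (mat (ρ l) (g ^ M)) (mat (ρ l) g ^ M)
    rw [mat_pow]
    exact Cg.refl _ _
  obtain ⟨T, hT⟩ := hsys
  obtain ⟨q, hq, hqp, φ, hφ, hfr⟩ := exists_frob_mem hΓ _ hU' (g ^ M) hgU
    (max b (max l (T.sup id)))
  have hbq : b < q := lt_of_le_of_lt (le_max_left _ _) hq
  have hlq : l ≠ q :=
    (lt_of_le_of_lt ((le_max_left _ _).trans (le_max_right _ _)) hq).ne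
  have hqT : q ∉ T := by
    intro h
    have h1 : q ≤ T.sup id := Finset.le_sup (f := id) h
    exact absurd (lt_of_le_of_lt ((le_max_right _ _).trans (le_max_right _ _)) hq) (not_lt.2 h1)
  obtain ⟨P, hP, hchar⟩ := hT q hqp hqT φ hfr
  have hd : IsDatum ρ w q φ P := ⟨hqp, hP, hfr, fun p' _ hp' => hchar p' hp'⟩
  have hP0 : P ≠ 0 := hd.monic.ne_zero
  have hA : (mat (ρ l) φ).charpoly = P.map (algebraMap ℚ ℚ_[l]) := by
    rw [mat_charpoly]
    exact hd.char l hlq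
  have hdeg : (P.map (algebraMap ℚ ℚ_[l])).natDegree = (mat (ρ l) g ^ M).charpoly.natDegree := by
    rw [← hA, Matrix.charpoly_natDegree_eq_dim, Matrix.charpoly_natDegree_eq_dim]
  have hco := hN _ hφ
  rw [hA] at hco
  have hcard : ((fun a : PadicAlgCl l => a ^ M) ''
      (P.map (algebraMap ℚ ℚ_[l])).rootSet (PadicAlgCl l)).ncard ≤
        ((mat (ρ l) g ^ M).charpoly.rootSet (PadicAlgCl l)).ncard := by
    rw [ncard_map_pow ι0 hP0, hset, hg.card]
    exact hmax.max q P ((isFrobPoly_iff ρ w q P).2 ⟨φ, hd⟩)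
  obtain ⟨hinj', hcd, β, -, -, hsurj, hequi⟩ := H _ (hd.monic.map _) hdeg hco hcard
  refine ⟨q, φ, P, hbq, hlq, hd, ?_, ?_, fun hs ι σ h hc y hy => ?_⟩
  · intro z z' hz hz' k hk hzz
    have h3 := hmax.exp P hP0 hd.natDegree.le z z' hz hz' (star_root hd.prime.pos hd.pure hz').1
      k hk hzz
    refine ι0.injective (hinj' _ _ ((e2_root ι0 hP0 _).2 ⟨z, hz, rfl⟩)
      ((e2_root ι0 hP0 _).2 ⟨z', hz', rfl⟩) ?_)
    rw [← map_pow, ← map_pow, h3]
  · rw [← ncard_map ι0 hP0, hcd, hset, hg.card]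
  · obtain ⟨z, hz, hzy⟩ := hsurj (ι y) ((e2_root ι hP0 _).2 ⟨y, hy, rfl⟩)
    have hzl : σ z = z := by
      obtain ⟨a, ha, rfl⟩ := (hroot z).1 hz
      rw [← mat_charpoly] at hs
      obtain ⟨x, hx⟩ : ∃ x : ℚ_[l], algebraMap ℚ_[l] (PadicAlgCl l) x = a := by
        have h2 := hs.eq_prod_roots_of_monic (Matrix.charpoly_monic _)
        rw [h2, map_multiset_prod, Multiset.map_map, Multiset.prod_eq_zero_iff] at ha
        obtain ⟨x, -, hx⟩ := Multiset.mem_map.1 ha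
        refine ⟨x, ?_⟩
        simp only [Function.comp, map_sub, aeval_X, aeval_C] at hx
        exact (sub_eq_zero.1 hx).symm
      rw [← hx, map_pow, AlgEquiv.commutes]
    have h3 := hequi σ z hz
    rw [hzl, hzy, ← hc] at h3
    exact ι.injective h3

end Pool.Agent.Lib.H90A
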