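import Mathlib
import Pool.Agent.Lib.H90A.N2
import Pool.Agent.Lib.H81D.NeatDef

/-!
# Chunk N3a (S/M): neat Frobenius polynomials exist
-/

namespace Pool.Agent.Lib.H90A

open Polynomial Module Filter Topology NumberField Pool.Agent.GSem Pool.Agent.GSD Pool.Agent.Ord
  Pool.Agent.Lib.H81D

variable {Ω : Type} [Field Ω] [CharZero Ω] [IsAlgClosure ℚ Ω] {Γ : Subgroup Gal(Ω/ℚ)} {n : ℕ}
  {ρ : ∀ (p : ℕ) [Fact p.Prime], Representation ℚ_[p] Γ (Fin n → ℚ_[p])} {w : ℤ}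

/-- For a Frobenius datum with `numPow Ω P M = d` and `l ≠ q`: `IsTop (ρ l) φ M d`. The roots in the closure
of `ℚ_l` are the images of the roots in `Ω` (`e2_root`, `ncard_map_pow`), and
`z ^ (M * M) = z' ^ (M * M)` implies `z ^ M = z' ^ M` by `hmax.exp` (`star_root`: roots are nonzero). -/
theorem isTop_datum {M d : ℕ} (hmax : IsMax ρ w M d) {q : ℕ} {φ : Γ} {P : ℚ[X]}
    (h : IsDatum ρ w q φ P) (hd : numPow Ω P M = d) (l : ℕ) [Fact l.Prime] (hl : l ≠ q) :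
    IsTop (ρ l) φ M d := by
  classical
  have halg : Algebra.IsAlgebraic ℚ Ω := IsAlgClosure.isAlgebraic
  have hcl : IsAlgClosed Ω := IsAlgClosure.isAlgClosed ℚ
  let ι0 : Ω →+* PadicAlgCl l :=
    (IsAlgClosed.lift (M := PadicAlgCl l) (R := ℚ) (S := Ω) : Ω →ₐ[ℚ] PadicAlgCl l)
  have hP : P ≠ 0 := h.monic.ne_zero
  have hA : (mat (ρ l) φ).charpoly = P.map (algebraMap ℚ ℚ_[l]) := by
    rw [mat_charpoly]
    exact h.char l hl
  refine ⟨?_, fun a a' ha ha' haa => ?_⟩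
  · rw [hA, ncard_map_pow ι0 hP, hd]
  · rw [hA] at ha ha'
    obtain ⟨z, hz, rfl⟩ := (e2_root ι0 hP a).1 ha
    obtain ⟨z', hz', rfl⟩ := (e2_root ι0 hP a').1 ha'
    rw [← pow_mul, ← pow_mul, ← map_pow, ← map_pow] at haa
    have h1 := hmax.exp P hP h.natDegree.le z z' hz hz' (star_root h.prime.pos h.pure hz').1
      (M * M) (Nat.mul_pos hmax.pos hmax.pos) (ι0.injective haa)
    rw [← map_pow, ← map_pow, h1]

/-- Neat Frobenius polynomials exist: take a prime `l ≠ q` (`a1_prime`), `isTop_datum`, `exists_near`. -/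
theorem exists_neatM {M d : ℕ} (hmax : IsMax ρ w M d) (hΓ : IsOpen (Γ : Set Gal(Ω/ℚ)))
    (hsys : IsPureSys ρ w) (hcont : ∀ (p : ℕ) [Fact p.Prime], IsCont (ρ p))
    {q : ℕ} {φ : Γ} {P : ℚ[X]} (h : IsDatum ρ w q φ P) (hd : numPow Ω P M = d) (b : ℕ) :
    ∃ (q' : ℕ) (φ' : Γ) (P' : ℚ[X]), b < q' ∧ IsDatum ρ w q' φ' P' ∧ NoTors Ω P' ∧
      (P'.rootSet Ω).ncard = d := by
  obtain ⟨l, hl, hlq⟩ := a1_prime q
  have hlp : Fact l.Prime := ⟨hl⟩
  obtain ⟨q', φ', P', h1, -, h2, h3, h4, -⟩ := exists_near hmax hΓ hsys l (hcont l) φ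
    (isTop_datum hmax h hd l hlq) b
  exact ⟨q', φ', P', h1, h2, h3, h4⟩

end Pool.Agent.Lib.H90A
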