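import Mathlib
import Pool.Agent.Lib.H90A.N2
import Pool.Agent.Lib.H81D.NeatDef
import Pool.Agent.Lib.H90A.N3a

/-!
# Chunk N3 (S/M): the set of the neat polynomials
-/

namespace Pool.Agent.Lib.H90A

open Polynomial Module Filter Topology NumberField Pool.Agent.GSem Pool.Agent.GSD Pool.Agent.Ord
  Pool.Agent.Lib.H81D

variable {Ω : Type} [Field Ω] [CharZero Ω] [IsAlgClosure ℚ Ω] {Γ : Subgroup Gal(Ω/ℚ)} {n : ℕ}
  {ρ : ∀ (p : ℕ) [Fact p.Prime], Representation ℚ_[p] Γ (Fin n → ℚ_[p])} {w : ℤ}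

/-- The neat polynomials are those without torsion and with `d` roots. (→) `numPow_eq` and `hmax.max` give
`ncard ≤ d`; the property of `neatMax` for the polynomial `P1` of `hex` and `numPow_le` give
`d = numPow P1 M ≤ numPow P1 k ≤ ncard`. (←) `k = M`. -/
theorem mem_neatMax_iff {M d : ℕ} (hmax : IsMax ρ w M d)
    (hex : ∃ (q : ℕ) (φ : Γ) (P : ℚ[X]), IsDatum ρ w q φ P ∧ numPow Ω P M = d)
    (x : ℕ × ℚ[X]) : x ∈ neatMax ρ w ↔
      IsFrobPoly ρ w x.1 x.2 ∧ NoTors Ω x.2 ∧ (x.2.rootSet Ω).ncard = d := by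
  constructor
  · rintro ⟨h1, h2, h3⟩
    refine ⟨h1, h2, le_antisymm ?_ ?_⟩
    · rw [← numPow_eq h2 hmax.pos]
      exact hmax.max x.1 x.2 h1
    · obtain ⟨q, φ, P, hdat, hP⟩ := hex
      have hqP : IsFrobPoly ρ w q P := (isFrobPoly_iff ρ w q P).2 ⟨φ, hdat⟩
      obtain ⟨k, hk, hle⟩ := h3 q P hqP
      rw [← hP]
      exact (numPow_le hmax hqP hk).trans hle
  · rintro ⟨h1, h2, h3⟩
    refine ⟨h1, h2, fun q P hqP => ⟨M, hmax.pos, ?_⟩⟩
    rw [h3]
    exact hmax.max q P hqP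

/-- If there is a neat polynomial with simple roots, the two notions coincide: its `n` roots give
`n ≤ ncard` for `x ∈ neatMax` (`numPow_eq` with the `k` of the definition), so `x.2` is separable
(`card_rootSet_eq_natDegree_iff_of_splits`, see `separable_pow`); conversely use `numPow_le_n`. -/
theorem neatMax_eq_neatSet (h : (neatSet ρ w).Nonempty) : neatMax ρ w = neatSet ρ w := by
  classical
  have hcl : IsAlgClosed Ω := IsAlgClosure.isAlgClosed ℚ
  have hsp : ∀ f : ℚ[X], (f.map (algebraMap ℚ Ω)).Splits := fun f => IsAlgClosed.splits _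
  -- separable means `n` roots
  have hsep : ∀ (q : ℕ) (P : ℚ[X]), IsFrobPoly ρ w q P →
      (P.Separable ↔ (P.rootSet Ω).ncard = n) := by
    intro q P hqP
    obtain ⟨φ, hd⟩ := (isFrobPoly_iff ρ w q P).1 hqP
    rw [← card_rootSet_eq_natDegree_iff_of_splits (K := Ω) hd.monic.ne_zero (hsp P), hd.natDegree,
      ← Nat.card_eq_fintype_card]
    exact Iff.rfl
  obtain ⟨x0, h01, h02⟩ := h
  ext x
  constructor
  · rintro ⟨h1, h2, h3⟩
    obtain ⟨k, hk, hle⟩ := h3 x0.1 x0.2 h01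
    rw [numPow_eq (fun z z' hz hz' k hk => h02.2 z z' hz hz' k hk) hk,
      (hsep _ _ h01).1 h02.1] at hle
    refine ⟨h1, (hsep _ _ h1).2 (le_antisymm ?_ hle), fun z z' hz hz' k hk => h2 z z' hz hz' k hk⟩
    rw [← numPow_eq h2 one_pos]
    exact numPow_le_n h1 1
  · rintro ⟨h1, h2⟩
    refine ⟨h1, fun z z' hz hz' k hk => h2.2 z z' hz hz' k hk, fun q P hqP => ⟨1, one_pos, ?_⟩⟩
    rw [(hsep _ _ h1).1 h2.1]
    exact numPow_le_n hqP 1

end Pool.Agent.Lib.H90A
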