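import Mathlib
import Pool.Agent.Lib.H90A.N2

/-!
# Chunk T5 (M): no element of the group has more eigenvalues modulo roots of unity
-/

namespace Pool.Agent.Lib.H90A

open Polynomial Module Filter Topology NumberField Pool.Agent.GSem Pool.Agent.GSD Pool.Agent.Ord
  Pool.Agent.Lib.H81D

variable {Ω : Type} [Field Ω] [CharZero Ω] [IsAlgClosure ℚ Ω] {Γ : Subgroup Gal(Ω/ℚ)} {n : ℕ}
  {ρ : ∀ (p : ℕ) [Fact p.Prime], Representation ℚ_[p] Γ (Fin n → ℚ_[p])} {w : ℤ}

/-- Proof. `A0 = mat (ρ l) g ^ M`; the roots of its charpoly are the `a ^ M` (`root_pow_iff`), a finite set `R0`.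
Let `s > 0` be smaller than the distances of different elements of `R0` (`H81D.c2_low`, see
`H81D.exists_trans`), `δ` from `exists_close A0.charpoly` for `ε = s`, `N` from `exists_cg_charpoly A0 δ`.
`U' = {φ | Cg N (mat (ρ l) φ ^ M) (mat (ρ l) g ^ M)}` is open (`continuous_mat`, `Continuous.pow`, closed balls are open:
copy from `H81D.exists_neat_split`) and contains `g`. `exists_frob_mem` gives a Frobenius element `φ ∈ U'` at a prime
`q > l` outside the exceptional set, `P` from `hsys` (copy from `H81D.exists_neat_mem`). The roots of the charpoly of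
`mat (ρ l) φ ^ M` are the `M`-th powers of the roots of `P`, so there are at most `d` (`ncard_map_pow`,
`hmax.max`). Each `z ∈ R0` has such a root `y z` with `‖y z - z‖ < s`, and `y` is injective on `R0` by the ultrametric
inequality. So `R0.ncard ≤ d`. -/
theorem ncard_pow_le {M d : ℕ} (hmax : IsMax ρ w M d) (hΓ : IsOpen (Γ : Set Gal(Ω/ℚ)))
    (hsys : IsPureSys ρ w) (l : ℕ) [Fact l.Prime] (hcont : IsCont (ρ l)) (g : Γ) :
    ((fun a : PadicAlgCl l => a ^ M) ''
      (mat (ρ l) g).charpoly.rootSet (PadicAlgCl l)).ncard ≤ d := by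
  classical
  have hpow : ∀ A : Matrix (Fin n) (Fin n) ℚ_[l], (fun a : PadicAlgCl l => a ^ M) ''
      A.charpoly.rootSet (PadicAlgCl l) = (A ^ M).charpoly.rootSet (PadicAlgCl l) := by
    intro A
    ext y
    rw [mem_rootSet, root_pow_iff A hmax.pos]
    constructor
    · rintro ⟨a, ha, rfl⟩
      exact ⟨(Matrix.charpoly_monic _).ne_zero, a, (mem_rootSet.1 ha).2, rfl⟩
    · rintro ⟨-, a, ha, rfl⟩
      exact ⟨a, mem_rootSet.2 ⟨(Matrix.charpoly_monic _).ne_zero, ha⟩, rfl⟩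
  rw [hpow]
  set A0 := mat (ρ l) g ^ M with hA0
  set R : Finset (PadicAlgCl l) := (A0.charpoly.aroots (PadicAlgCl l)).toFinset with hR
  have hmem : ∀ z, z ∈ R ↔ aeval z A0.charpoly = 0 := by
    intro z
    rw [hR, Multiset.mem_toFinset, mem_aroots]
    exact ⟨fun h => h.2, fun h => ⟨(Matrix.charpoly_monic _).ne_zero, h⟩⟩
  obtain ⟨s, hs, hsR⟩ := c2_low ((R ×ˢ R).filter fun x => x.1 ≠ x.2) (fun x => ‖x.1 - x.2‖)
    fun x hx => norm_pos_iff.2 (sub_ne_zero.2 (Finset.mem_filter.1 hx).2)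
  have hsep : ∀ z z' : PadicAlgCl l, aeval z A0.charpoly = 0 → aeval z' A0.charpoly = 0 →
      ‖z - z'‖ < s → z = z' := by
    intro z z' hz hz' hle
    by_contra hne
    have := hsR (z, z') (Finset.mem_filter.2
      ⟨Finset.mem_product.2 ⟨(hmem z).2 hz, (hmem z').2 hz'⟩, hne⟩)
    exact absurd hle (not_lt.2 this.le)
  obtain ⟨K, -, -, hK⟩ := exists_close A0.charpoly (Matrix.charpoly_monic _)
  obtain ⟨δ, hδ, hclose⟩ := hK s hs
  obtain ⟨N, hN⟩ := exists_cg_charpoly A0 δ hδ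
  obtain ⟨T, hT⟩ := hsys
  let U' : Set Γ := {φ | Cg N (mat (ρ l) φ ^ M) A0}
  have hU' : IsOpen U' := by
    have h0 : (0 : ℝ) < l := by exact_mod_cast (Fact.out : l.Prime).pos
    have h1 : U' = ⋂ i : Fin n, ⋂ j : Fin n,
        (fun φ : Γ => (mat (ρ l) φ ^ M) i j) ⁻¹' (Metric.closedBall (A0 i j)
          (((l : ℝ) ^ N)⁻¹)) := by
      ext φ
      simp only [Set.mem_iInter, Set.mem_preimage, Metric.mem_closedBall, dist_eq_norm]
      rfl
    rw [h1]
    refine isOpen_iInter_of_finite fun i => isOpen_iInter_of_finite fun j => ?_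
    refine (IsUltrametricDist.isOpen_closedBall _ (by positivity)).preimage ?_
    exact ((continuous_mat hcont).pow M).matrix_elem i j
  obtain ⟨q, hq, hqp, φ, hφ, hfr⟩ := exists_frob_mem hΓ U' hU' g (Cg.refl _ _) (max l (T.sup id))
  have hlq : l ≠ q := (lt_of_le_of_lt (le_max_left _ _) hq).ne
  have hqT : q ∉ T := by
    intro h
    have h1 : q ≤ T.sup id := Finset.le_sup (f := id) h
    exact absurd (lt_of_le_of_lt (le_max_right l _) hq) (not_lt.2 h1)
  obtain ⟨P, hP, hchar⟩ := hT q hqp hqT φ hfr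
  have hd : IsDatum ρ w q φ P := ⟨hqp, hP, hfr, fun p' _ hp' => hchar p' hp'⟩
  have hchA : (mat (ρ l) φ).charpoly = P.map (algebraMap ℚ ℚ_[l]) := by
    rw [mat_charpoly]
    exact hchar l hlq
  have hP0 : P ≠ 0 := by
    rintro rfl
    have h1 : (mat (ρ l) φ).charpoly.Monic := Matrix.charpoly_monic _
    rw [hchA, Polynomial.map_zero] at h1
    exact h1.ne_zero rfl
  have halg : Algebra.IsAlgebraic ℚ Ω := IsAlgClosure.isAlgebraic
  let ι : Ω →ₐ[ℚ] PadicAlgCl l := IsAlgClosed.lift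
  have hcard : ((mat (ρ l) φ ^ M).charpoly.rootSet (PadicAlgCl l)).ncard ≤ d := by
    rw [← hpow, hchA, ncard_map_pow ι.toRingHom hP0 M]
    exact hmax.max q P ((isFrobPoly_iff ρ w q P).2 ⟨φ, hd⟩)
  obtain ⟨-, hz, -⟩ := hclose (mat (ρ l) φ ^ M).charpoly (Matrix.charpoly_monic _)
    (by rw [Matrix.charpoly_natDegree_eq_dim, Matrix.charpoly_natDegree_eq_dim]) (hN _ hφ)
  choose! y hy1 hy2 using hz
  refine le_trans (Set.ncard_le_ncard_of_injOn y (fun z hz => ?_) (fun z hz z' hz' h => ?_)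
    (rootSet_finite _ _)) hcard
  · exact mem_rootSet.2 ⟨(Matrix.charpoly_monic _).ne_zero, hy1 z (mem_rootSet.1 hz).2⟩
  · have e1 := hy2 z (mem_rootSet.1 hz).2
    have e2 := hy2 z' (mem_rootSet.1 hz').2
    refine hsep z z' (mem_rootSet.1 hz).2 (mem_rootSet.1 hz').2 ?_
    have e3 : z - z' = -(y z - z) + (y z' - z') := by
      rw [← h]
      ring
    rw [e3]
    refine lt_of_le_of_lt (IsUltrametricDist.norm_add_le_max _ _) ?_
    rw [norm_neg]
    exact max_lt e1 e2

end Pool.Agent.Lib.H90A
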