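import Mathlib
import Pool.Agent.Lib.H90A.N3
import Pool.Agent.Lib.H90A.T5

/-!
# Chunk G1a (S): the number of the eigenvalues of powers
-/

namespace Pool.Agent.Lib.H90A

open Polynomial Module Filter Topology NumberField Pool.Agent.GSem Pool.Agent.GSD Pool.Agent.Ord
  Pool.Agent.Lib.H81D

variable {Ω : Type} [Field Ω] [CharZero Ω] [IsAlgClosure ℚ Ω] {Γ : Subgroup Gal(Ω/ℚ)} {n : ℕ}
  {ρ : ∀ (p : ℕ) [Fact p.Prime], Representation ℚ_[p] Γ (Fin n → ℚ_[p])} {w : ℤ}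

/-- The eigenvalues of `r (g ^ k)` are the `k`-th powers (`mat_charpoly`, `mat_pow`, `root_pow_iff`). -/
theorem numEig_pow {l : ℕ} [Fact l.Prime] (r : Representation ℚ_[l] Γ (Fin n → ℚ_[l])) (g : Γ)
    {k : ℕ} (hk : 0 < k) : numEig (r (g ^ k)) = ((fun a : PadicAlgCl l => a ^ k) ''
      (mat r g).charpoly.rootSet (PadicAlgCl l)).ncard := by
  have h1 : numEig (r (g ^ k)) = ((mat r g ^ k).charpoly.rootSet (PadicAlgCl l)).ncard := by
    rw [← mat_pow, mat_charpoly]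
    rfl
  rw [h1]
  congr 1
  ext y
  rw [mem_rootSet, root_pow_iff _ hk]
  constructor
  · rintro ⟨-, a, ha, rfl⟩
    exact ⟨a, mem_rootSet.2 ⟨(Matrix.charpoly_monic _).ne_zero, ha⟩, rfl⟩
  · rintro ⟨a, ha, rfl⟩
    exact ⟨(Matrix.charpoly_monic _).ne_zero, a, (mem_rootSet.1 ha).2, rfl⟩

/-- For a Frobenius datum at `q ≠ l`: `numEig (ρ l (φ ^ j)) = numPow Ω P j` (`numEig_pow`, `mat_charpoly`,
`h.char`, `ncard_map_pow` for an embedding `ι0` as in `transferM`). -/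
theorem numEig_datum {q : ℕ} {φ : Γ} {P : ℚ[X]} (h : IsDatum ρ w q φ P) (l : ℕ) [Fact l.Prime]
    (hl : l ≠ q) {j : ℕ} (hj : 0 < j) : numEig (ρ l (φ ^ j)) = numPow Ω P j := by
  have halg : Algebra.IsAlgebraic ℚ Ω := IsAlgClosure.isAlgebraic
  let ι : Ω →ₐ[ℚ] PadicAlgCl l := IsAlgClosed.lift
  rw [numEig_pow _ _ hj, mat_charpoly, h.char l hl, ncard_map_pow ι.toRingHom h.monic.ne_zero j]

end Pool.Agent.Lib.H90A
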