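import Mathlib
import Pool.Agent.Lib.H90A.N3
import Pool.Agent.Lib.H90A.T5
import Pool.Agent.Lib.H90A.G1a

/-!
# Chunk G1 (M): elements with the maximal number of eigenvalues modulo roots of unity
-/

namespace Pool.Agent.Lib.H90A

open Polynomial Module Filter Topology NumberField Pool.Agent.GSem Pool.Agent.GSD Pool.Agent.Ord
  Pool.Agent.Lib.H81D

variable {Ω : Type} [Field Ω] [CharZero Ω] [IsAlgClosure ℚ Ω] {Γ : Subgroup Gal(Ω/ℚ)} {n : ℕ}
  {ρ : ∀ (p : ℕ) [Fact p.Prime], Representation ℚ_[p] Γ (Fin n → ℚ_[p])} {w : ℤ}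

/-- Proof. By `hex` and `exists_neatM` (with `b = l`) there is a datum `(q', φ', P')`, `q' > l`, `NoTors`, `d` roots; so
`numEig (ρ l (φ' ^ j)) = numPow Ω P' j = d` for all `j > 0` (`numEig_datum`, `numPow_eq`). By `hg` with `h = φ'`:
`d ≤ numEig (ρ l (g ^ k))` for all `k > 0`. `card`: `k = M` and `numEig_pow` give `≥ d`, `ncard_pow_le` gives `≤ d`.
`inj`: the map `x ↦ x ^ M` from the set of the `M`-th powers of the eigenvalues (`d` elements) is onto the set of the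
`M * M`-th powers, which has at least `d` elements (`k = M * M`, `numEig_pow`), so it is injective
(`Set.injOn_of_ncard_image_eq` or `Set.ncard_image_iff`). -/
theorem isTop_of_maxElt {M d : ℕ} (hmax : IsMax ρ w M d) (hΓ : IsOpen (Γ : Set Gal(Ω/ℚ)))
    (hsys : IsPureSys ρ w) (hcont : ∀ (p : ℕ) [Fact p.Prime], IsCont (ρ p))
    (hex : ∃ (q : ℕ) (φ : Γ) (P : ℚ[X]), IsDatum ρ w q φ P ∧ numPow Ω P M = d)
    (l : ℕ) [Fact l.Prime] (g : Γ) (hg : IsMaxElt (ρ l) g) : IsTop (ρ l) g M d := by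
  classical
  obtain ⟨q, φ, P, hP, hd⟩ := hex
  obtain ⟨q', φ', P', hb, hdat, hnt, hcard⟩ := exists_neatM hmax hΓ hsys hcont hP hd l
  have hlq : l ≠ q' := Nat.ne_of_lt hb
  have hlow : ∀ k : ℕ, 0 < k → d ≤ numEig (ρ l (g ^ k)) := by
    intro k hk
    obtain ⟨j, hj, hle⟩ := hg k hk φ'
    rw [numEig_datum hdat l hlq hj, numPow_eq hnt hj, hcard] at hle
    exact hle
  have hM := hmax.pos
  have hcardM : ((fun a : PadicAlgCl l => a ^ M) ''
      (mat (ρ l) g).charpoly.rootSet (PadicAlgCl l)).ncard = d := by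
    refine le_antisymm (ncard_pow_le hmax hΓ hsys l (hcont l) g) ?_
    have h1 := hlow M hM
    rwa [numEig_pow (ρ l) g hM] at h1
  refine ⟨hcardM, ?_⟩
  have hfin : ((fun a : PadicAlgCl l => a ^ M) ''
      (mat (ρ l) g).charpoly.rootSet (PadicAlgCl l)).Finite := (rootSet_finite _ _).image _
  have himg : (fun x : PadicAlgCl l => x ^ M) '' ((fun a : PadicAlgCl l => a ^ M) ''
      (mat (ρ l) g).charpoly.rootSet (PadicAlgCl l)) = (fun a : PadicAlgCl l => a ^ (M * M)) ''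
      (mat (ρ l) g).charpoly.rootSet (PadicAlgCl l) := by
    rw [Set.image_image]
    exact Set.image_congr fun a _ => (pow_mul a M M).symm
  have h2 : d ≤ ((fun x : PadicAlgCl l => x ^ M) '' ((fun a : PadicAlgCl l => a ^ M) ''
      (mat (ρ l) g).charpoly.rootSet (PadicAlgCl l))).ncard := by
    rw [himg, ← numEig_pow (ρ l) g (Nat.mul_pos hM hM)]
    exact hlow _ (Nat.mul_pos hM hM)
  have h3 : ((fun x : PadicAlgCl l => x ^ M) '' ((fun a : PadicAlgCl l => a ^ M) ''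
      (mat (ρ l) g).charpoly.rootSet (PadicAlgCl l))).ncard = ((fun a : PadicAlgCl l => a ^ M) ''
      (mat (ρ l) g).charpoly.rootSet (PadicAlgCl l)).ncard :=
    le_antisymm (Set.ncard_image_le hfin) (by rw [hcardM]; exact h2)
  have hinj := (Set.ncard_image_iff hfin).1 h3
  intro a a' ha ha' heq
  have hne : (mat (ρ l) g).charpoly ≠ 0 := (Matrix.charpoly_monic _).ne_zero
  exact hinj ⟨a, mem_rootSet.2 ⟨hne, ha⟩, rfl⟩ ⟨a', mem_rootSet.2 ⟨hne, ha'⟩, rfl⟩ heq

end Pool.Agent.Lib.H90A
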