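import Mathlib
import Pool.Agent.Lib.H90A.G1
import Pool.Agent.Lib.H81D.S3

/-!
# Chunk G2 (S/M): the common field is `ℚ` if there are enough split elements
-/

namespace Pool.Agent.Lib.H90A

open Polynomial Module Filter Topology NumberField Pool.Agent.GSem Pool.Agent.GSD Pool.Agent.Ord
  Pool.Agent.Lib.H81D

variable {Ω : Type} [Field Ω] [CharZero Ω] [IsAlgClosure ℚ Ω] {Γ : Subgroup Gal(Ω/ℚ)} {n : ℕ}
  {ρ : ∀ (p : ℕ) [Fact p.Prime], Representation ℚ_[p] Γ (Fin n → ℚ_[p])} {w : ℤ}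

/-- Proof. `neatMax ρ w` is nonempty (`hex`, `exists_neatM`, `mem_neatMax_iff`) and its members have `x.2 ≠ 0`
(`IsFrobPoly.ne_zero`). The proof of `H81D.commonField_eq_bot`: `N00 Ω (neatMax ρ w) = ⊤` by `top_of_density`: for
`l ∈ S` take `g`, `isTop_of_maxElt`, `exists_near` (with the last part), and the local Frobenius element
`Pool.Agent.PD.exists_compat_frob ι`. Then `fixedField_N00`, `InfiniteGalois.fixedField_bot`. -/
theorem commonField_eq_botM {M d : ℕ} (hmax : IsMax ρ w M d) (hΓ : IsOpen (Γ : Set Gal(Ω/ℚ)))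
    (hcont : ∀ (p : ℕ) [Fact p.Prime], IsCont (ρ p)) (hsys : IsPureSys ρ w)
    (hex : ∃ (q : ℕ) (φ : Γ) (P : ℚ[X]), IsDatum ρ w q φ P ∧ numPow Ω P M = d) (S : Set ℕ)
    (hS : ∀ l ∈ S, ∀ [Fact l.Prime], ∃ g : Γ, IsMaxElt (ρ l) g ∧
      (LinearMap.charpoly (ρ l g)).Splits)
    (hd : ∃ δ : ℝ, 1 / 2 < δ ∧ ∃ᶠ x : ℕ in atTop,
      δ * (Nat.primeCounting x : ℝ) ≤ ({l | l ≤ x ∧ l.Prime ∧ l ∈ S}.ncard : ℝ)) :
    commonField Ω (neatMax ρ w) = ⊥ := by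
  classical
  have hGal : IsGalois ℚ Ω := isGaloisΩ
  have hcl : IsAlgClosed Ω := IsAlgClosure.isAlgClosed ℚ
  have halg : Algebra.IsAlgebraic ℚ Ω := IsAlgClosure.isAlgebraic
  have hiff := mem_neatMax_iff hmax hex
  set X : Set (ℕ × ℚ[X]) := neatMax ρ w with hX
  have hP : ∀ x ∈ X, x.2 ≠ 0 := fun x hx => ((hiff x).1 hx).1.ne_zero
  have hne : X.Nonempty := by
    obtain ⟨q, φ, P, hdat, hP1⟩ := hex
    obtain ⟨q', φ', P', -, hd', hn', hc'⟩ := exists_neatM hmax hΓ hsys hcont hdat hP1 0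
    exact ⟨(q', P'), (hiff _).2 ⟨(isFrobPoly_iff ρ w q' P').2 ⟨φ', hd'⟩, hn', hc'⟩⟩
  have htop : N00 Ω X = ⊤ := by
    refine top_of_density (N00 Ω X) (isOpen_N00 hne hP) S (fun l hlS hl => ?_) hd
    have hlp : Fact l.Prime := ⟨hl⟩
    obtain ⟨g, hg, hs⟩ := hS l hlS
    obtain ⟨q, φ, P, -, -, hdat, hn, hc, hk⟩ := exists_near hmax hΓ hsys l (hcont l) g
      (isTop_of_maxElt hmax hΓ hsys hcont hex l g hg) 0
    let ι : Ω →+* PadicAlgCl l :=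
      (IsAlgClosed.lift (M := PadicAlgCl l) (R := ℚ) (S := Ω) : Ω →ₐ[ℚ] PadicAlgCl l)
    obtain ⟨τ, h, hcomp, -, hfr⟩ := Pool.Agent.PD.exists_compat_frob ι
    refine ⟨h, ?_, hfr⟩
    have hmem : ((q, P) : ℕ × ℚ[X]) ∈ X :=
      (hiff _).2 ⟨(isFrobPoly_iff ρ w q P).2 ⟨φ, hdat⟩, hn, hc⟩
    have h1 : kerP Ω ((q, P) : ℕ × ℚ[X]).2 ≤ N00 Ω X :=
      le_iSup₂_of_le (f := fun (x : ℕ × ℚ[X]) (_ : x ∈ X) => kerP Ω x.2) (q, P) hmem le_rfl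
    exact h1 (hk hs ι τ h hcomp)
  rw [← fixedField_N00 X hP, htop, InfiniteGalois.fixedField_bot]

end Pool.Agent.Lib.H90A
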