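import Mathlib
import Pool.Agent.Lib.H90A.Defs

/-!
# Chunk G3a (S/M): traces of polynomials in T
-/

namespace Pool.Agent.Lib.H90A

open Polynomial Module

variable {K V : Type} [Field K] [CharZero K] [AddCommGroup V] [Module K V] [FiniteDimensional K V]

/-- Stability under `T` gives stability under `aeval T f`. -/
theorem aeval_stable {T : V →ₗ[K] V} {Y : Submodule K V} (h : ∀ x ∈ Y, T x ∈ Y) (f : K[X]) :
    ∀ x ∈ Y, aeval T f x ∈ Y := by
  have hpow : ∀ j : ℕ, ∀ x ∈ Y, (T ^ j) x ∈ Y := by
    intro j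
    induction j with
    | zero => intro x hx; simpa using hx
    | succ j ih =>
      intro x hx
      rw [pow_succ']
      exact h _ (ih x hx)
  intro x hx
  rw [Polynomial.aeval_eq_sum_range, LinearMap.sum_apply]
  apply Submodule.sum_mem
  intro j _
  rw [LinearMap.smul_apply]
  exact Y.smul_mem _ (hpow j x hx)

/-- The trace of `aeval T f` on `Y` is linear in `f`: `∑ coeff j * trOn (T ^ j) Y`
(`Polynomial.aeval_eq_sum_range`, restriction and trace are linear). -/
theorem trOn_aeval {T : V →ₗ[K] V} {Y : Submodule K V} (h : ∀ x ∈ Y, T x ∈ Y) (f : K[X])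
    (hj : ∀ j : ℕ, ∀ x ∈ Y, (T ^ j) x ∈ Y) :
    trOn (aeval T f) Y (aeval_stable h f) =
      ∑ j ∈ Finset.range (f.natDegree + 1), f.coeff j * trOn (T ^ j) Y (hj j) := by
  have hres : (aeval T f).restrict (aeval_stable h f) =
      ∑ j ∈ Finset.range (f.natDegree + 1), f.coeff j • (T ^ j).restrict (hj j) := by
    apply LinearMap.ext
    intro x
    apply Subtype.ext
    rw [LinearMap.coe_restrict_apply, Polynomial.aeval_eq_sum_range, LinearMap.sum_apply,
      LinearMap.sum_apply, Submodule.coe_sum]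
    rfl
  unfold trOn
  rw [hres, map_sum]
  apply Finset.sum_congr rfl
  intro j _
  rw [map_smul, smul_eq_mul]

end Pool.Agent.Lib.H90A
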