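import Mathlib
import Pool.Agent.Lib.H90A.Defs
import Pool.Agent.Lib.H90A.G3a

/-!
# Chunk G3 (M/L): an endomorphism with distinct eigenvalues has different traces on subquotients
-/

namespace Pool.Agent.Lib.H90A

open Polynomial Module

variable {K V : Type} [Field K] [CharZero K] [AddCommGroup V] [Module K V] [FiniteDimensional K V]

/-- The trace of an operator with a stable subspace. -/
theorem g3_trace {k W : Type*} [Field k] [AddCommGroup W] [Module k W] [FiniteDimensional k W]
    (A : Submodule k W) (e : W →ₗ[k] W) (he : A ≤ A.comap e) :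
    LinearMap.trace k W e =
      LinearMap.trace k A (e.restrict he) + LinearMap.trace k (W ⧸ A) (A.mapQ A e he) := by
  classical
  let m := Module.Free.ChooseBasisIndex k A
  let bW : Module.Basis m k A := Module.Free.chooseBasis k A
  let n := Module.Free.ChooseBasisIndex k (W ⧸ A)
  let bQ : Module.Basis n k (W ⧸ A) := Module.Free.chooseBasis k (W ⧸ A)
  let b := Module.Basis.sumQuot bW bQ
  rw [LinearMap.trace_eq_matrix_trace k b e, LinearMap.trace_eq_matrix_trace k bW (e.restrict he),
    LinearMap.trace_eq_matrix_trace k bQ (A.mapQ A e he)]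
  simp only [Matrix.trace, Matrix.diag]
  rw [Fintype.sum_sum_type]
  congr 1
  · refine Finset.sum_congr rfl fun i _ => ?_
    simp only [b, Module.Basis.sumQuot_inl, LinearMap.toMatrix_apply]
    apply Module.Basis.sumQuot_repr_inl_of_mem
  · refine Finset.sum_congr rfl fun j _ => ?_
    simp only [LinearMap.toMatrix_apply, Module.Basis.sumQuot_repr_inr, b]
    rw [← Module.Basis.sumQuot_inr bW bQ j, A.mapQ_apply]
    simp

/-- Multiplicativity of characteristic polynomials. -/
theorem g3_charpoly {k W : Type*} [Field k] [AddCommGroup W] [Module k W] [FiniteDimensional k W]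
    [Infinite k] (T : W →ₗ[k] W) (Y : Submodule k W) (hW : Y ≤ Y.comap T) :
    T.charpoly = (T.restrict hW).charpoly * (Y.mapQ Y T hW).charpoly := by
  apply Polynomial.funext
  intro t
  rw [eval_mul, LinearMap.eval_charpoly, LinearMap.eval_charpoly, LinearMap.eval_charpoly]
  have he : Y ≤ Y.comap (algebraMap k (W →ₗ[k] W) t - T) := by
    intro x hx
    rw [Submodule.mem_comap, LinearMap.sub_apply]
    exact Y.sub_mem (Y.smul_mem t hx) (hW hx)
  rw [LinearMap.det_eq_det_mul_det Y _ he]
  have h1 : (algebraMap k (W →ₗ[k] W) t - T).restrict he =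
      algebraMap k (Y →ₗ[k] Y) t - T.restrict hW := by
    ext x
    rfl
  have h2 : Y.mapQ Y (algebraMap k (W →ₗ[k] W) t - T) he =
      algebraMap k (W ⧸ Y →ₗ[k] W ⧸ Y) t - Y.mapQ Y T hW := by
    ext x
    rfl
  rw [h1, h2]

/-- Polynomials in operators which correspond under a linear map. -/
theorem g3_aeval {k W Z : Type*} [Field k] [AddCommGroup W] [Module k W] [AddCommGroup Z] [Module k Z]
    (T : W →ₗ[k] W) (S : Z →ₗ[k] Z) (F : W →ₗ[k] Z) (hF : ∀ x, F (T x) = S (F x)) (f : k[X]) (x : W) :
    F (aeval T f x) = aeval S f (F x) := by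
  induction f using Polynomial.induction_on' generalizing x with
  | add p q hp hq => rw [map_add, map_add, LinearMap.add_apply, LinearMap.add_apply, map_add, hp, hq]
  | monomial n a =>
    rw [aeval_monomial, aeval_monomial]
    have h : ∀ (n : ℕ) (x : W), F ((T ^ n) x) = (S ^ n) (F x) := by
      intro n
      induction n with
      | zero => intro x; rfl
      | succ n ih =>
        intro x
        rw [pow_succ, pow_succ, Module.End.mul_apply, Module.End.mul_apply, ih, hF]
    rw [Module.End.mul_apply, Module.End.mul_apply, Module.algebraMap_end_apply, Module.algebraMap_end_apply,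
      map_smul, h]

/-- The quotient `Z / Y` with the operator induced by `T`. -/
theorem g3_quot (T : V →ₗ[K] V) {Y Z : Submodule K V} (hYZ : Y ≤ Z) (hY : ∀ x ∈ Y, T x ∈ Y)
    (hZ : ∀ x ∈ Z, T x ∈ Z) :
    ∃ (Q : Type) (_ : AddCommGroup Q) (_ : Module K Q) (_ : FiniteDimensional K Q) (Tb : Q →ₗ[K] Q),
      (T.restrict hZ).charpoly = (T.restrict hY).charpoly * Tb.charpoly ∧
      finrank K Q + finrank K Y = finrank K Z ∧
      ∀ f : K[X], trOn (aeval T f) Z (aeval_stable hZ f) - trOn (aeval T f) Y (aeval_stable hY f) =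
        LinearMap.trace K Q (aeval Tb f) := by
  let N : Submodule K Z := Y.submoduleOf Z
  let e : N ≃ₗ[K] Y := Submodule.submoduleOfEquivOfLe hYZ
  have heN : ∀ x : N, ((e x : Y) : V) = ((x : Z) : V) := fun x => rfl
  have hN : N ≤ N.comap (T.restrict hZ) := fun x hx => hY _ hx
  refine ⟨Z ⧸ N, inferInstance, inferInstance, inferInstance, N.mapQ N (T.restrict hZ) hN, ?_, ?_, ?_⟩
  · rw [g3_charpoly (T.restrict hZ) N hN]
    congr 1
    rw [← LinearEquiv.charpoly_conj e]
    congr 1
  · rw [← e.finrank_eq]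
    exact Submodule.finrank_quotient_add_finrank N
  · intro f
    have hNf : N ≤ N.comap ((aeval T f).restrict (aeval_stable hZ f)) := fun x hx => aeval_stable hY f _ hx
    have h1 := g3_trace N ((aeval T f).restrict (aeval_stable hZ f)) hNf
    have h2 : LinearMap.trace K N (((aeval T f).restrict (aeval_stable hZ f)).restrict hNf) =
        trOn (aeval T f) Y (aeval_stable hY f) := by
      rw [← LinearMap.trace_conj' _ e]
      unfold trOn
      congr 1
    have h3 : N.mapQ N ((aeval T f).restrict (aeval_stable hZ f)) hNf =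
        aeval (N.mapQ N (T.restrict hZ) hN) f := by
      apply LinearMap.ext
      intro q
      obtain ⟨x, rfl⟩ := N.mkQ_surjective q
      rw [← g3_aeval (T.restrict hZ) (N.mapQ N (T.restrict hZ) hN) N.mkQ (fun x => rfl) f x]
      show N.mkQ ((aeval T f).restrict (aeval_stable hZ f) x) = N.mkQ (aeval (T.restrict hZ) f x)
      congr 1
      apply Subtype.ext
      exact (g3_aeval (T.restrict hZ) T Z.subtype (fun x => rfl) f x).symm
    rw [h2, h3] at h1
    have h4 : trOn (aeval T f) Z (aeval_stable hZ f) = trOn (aeval T f) Y (aeval_stable hY f) +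
      LinearMap.trace K (Z ⧸ N) (aeval (N.mapQ N (T.restrict hZ) hN) f) := h1
    rw [h4]
    ring

/-- Proof. Suppose not. Let `g₁`, `g₂` be the characteristic polynomials of `T` on `B / A` and `D / C`
(`Submodule.mapQ` of the restrictions; or: `χ_B = χ_A g₁`, `χ_D = χ_C g₂`, `χ_A χ_(B/A) ∣ χ_C`...); `g₁ * g₂` divides `T.charpoly`, so
they are coprime (separable). There is `f` with `f ≡ 1` mod `g₁`, `f ≡ 0` mod `g₂`. `aeval T f` is the identity on `B / A` and 0 on
`D / C` (Cayley-Hamilton), so `trOn (aeval T f) B - trOn (aeval T f) A = finrank B - finrank A > 0` and the same for `D`, `C` is 0. By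
`trOn_aeval` both are the same linear combination of the differences of the traces of the `T ^ j`, contradiction.
Another way: over the algebraic closure `V` is the direct sum of `n` eigenlines for different eigenvalues, a stable subspace is a
sum of eigenlines (a set `s_Y` of eigenvalues), `trOn (T ^ j) Y = ∑_{a ∈ s_Y} a ^ j`; `s_B \ s_A` and `s_D \ s_C` are disjoint and nonempty, and
`∑_{s_B \ s_A} a ^ j = ∑_{s_D \ s_C} a ^ j` for all `j` is impossible (Vandermonde). Any way is fine. -/
theorem exists_trace_ne (T : V →ₗ[K] V) (hs : T.charpoly.Separable) (A B C D : Submodule K V)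
    (hA : ∀ j : ℕ, ∀ x ∈ A, (T ^ j) x ∈ A) (hB : ∀ j : ℕ, ∀ x ∈ B, (T ^ j) x ∈ B)
    (hC : ∀ j : ℕ, ∀ x ∈ C, (T ^ j) x ∈ C) (hD : ∀ j : ℕ, ∀ x ∈ D, (T ^ j) x ∈ D)
    (h1 : A < B) (h2 : B ≤ C) (h3 : C < D) :
    ∃ j : ℕ, trOn (T ^ j) B (hB j) - trOn (T ^ j) A (hA j) ≠
      trOn (T ^ j) D (hD j) - trOn (T ^ j) C (hC j) := by
  by_contra hcon
  push Not at hcon
  have hA1 : ∀ x ∈ A, T x ∈ A := fun x hx => by simpa using hA 1 x hx
  have hB1 : ∀ x ∈ B, T x ∈ B := fun x hx => by simpa using hB 1 x hx
  have hC1 : ∀ x ∈ C, T x ∈ C := fun x hx => by simpa using hC 1 x hx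
  have hD1 : ∀ x ∈ D, T x ∈ D := fun x hx => by simpa using hD 1 x hx
  obtain ⟨Q1, i1, i2, i3, T1, c1, d1, t1⟩ := g3_quot T h1.le hA1 hB1
  obtain ⟨Q2, j1, j2, j3, T2, c2, d2, t2⟩ := g3_quot T h3.le hC1 hD1
  obtain ⟨Q3, k1, k2, k3, T3, c3, d3, t3⟩ := g3_quot T h2 hB1 hC1
  have hcp : IsCoprime T1.charpoly T2.charpoly := by
    apply Polynomial.Separable.isCoprime
    apply hs.of_dvd
    rw [g3_charpoly T D hD1, c2, c3, c1]
    exact ⟨(T.restrict hA1).charpoly * T3.charpoly * (D.mapQ D T hD1).charpoly, by ring⟩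
  obtain ⟨a, b, hab⟩ := hcp
  have hsum : ∀ f : K[X], trOn (aeval T f) B (aeval_stable hB1 f) - trOn (aeval T f) A (aeval_stable hA1 f) =
      trOn (aeval T f) D (aeval_stable hD1 f) - trOn (aeval T f) C (aeval_stable hC1 f) := by
    intro f
    rw [trOn_aeval hB1 f hB, trOn_aeval hA1 f hA, trOn_aeval hD1 f hD, trOn_aeval hC1 f hC,
      ← Finset.sum_sub_distrib, ← Finset.sum_sub_distrib]
    refine Finset.sum_congr rfl fun j _ => ?_
    rw [← mul_sub, ← mul_sub, hcon j]
  have h5 := hsum (b * T2.charpoly)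
  rw [t1, t2] at h5
  have h6 : aeval T2 (b * T2.charpoly) = 0 := by
    rw [map_mul, LinearMap.aeval_self_charpoly, mul_zero]
  have h7 : aeval T1 (b * T2.charpoly) = 1 := by
    have : b * T2.charpoly = 1 - a * T1.charpoly := by rw [← hab]; ring
    rw [this, map_sub, map_mul, LinearMap.aeval_self_charpoly, mul_zero, map_one, sub_zero]
  rw [h6, h7, LinearMap.trace_one, map_zero, Nat.cast_eq_zero] at h5
  have h8 : finrank K A < finrank K B := Submodule.finrank_lt_finrank_of_lt h1
  omega

end Pool.Agent.Lib.H90A
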