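import Mathlib
import Pool.Agent.Lib.H90A.G3
import Pool.Agent.Lib.H90A.N3
import Pool.Agent.Lib.H81D.Exist

/-!
# Chunk G4a (S/M): neat polynomials with simple roots give multiplicity one
-/

namespace Pool.Agent.Lib.H90A

open Polynomial Module Filter Topology NumberField Pool.Agent.GSem Pool.Agent.GSD Pool.Agent.Ord
  Pool.Agent.Lib.H81D

variable {Ω : Type} [Field Ω] [CharZero Ω] [IsAlgClosure ℚ Ω] {Γ : Subgroup Gal(Ω/ℚ)} {n : ℕ}
  {ρ : ∀ (p : ℕ) [Fact p.Prime], Representation ℚ_[p] Γ (Fin n → ℚ_[p])} {w : ℤ}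

/-- Proof. Let `U` be open; `φ ^ m ∈ U` for some `m > 0` (`Γ` is compact, `U` of finite index, see the docstring of
`selfDual_of_odd`). `T = ρ p (φ ^ m)` has separable characteristic polynomial (`separable_pow` for `mat (ρ p) φ`, `mat_charpoly`,
`h.char`, neatness as in `H81D.transfer`). The subspaces are stable under `T ^ j = ρ p ((φ ^ m) ^ j)`, `(φ ^ m) ^ j ∈ U`.
`exists_trace_ne`. -/
theorem multFree_of_neat (hΓ : IsOpen (Γ : Set Gal(Ω/ℚ))) {q : ℕ} {φ : Γ} {P : ℚ[X]}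
    (h : IsDatum ρ w q φ P) (hn : IsNeat Ω P) (p : ℕ) [Fact p.Prime] (hp : p ≠ q) :
    PotMultFree (ρ p) := by
  intro U hU A B C D hA hB hC hD h1 h2 h3
  have halg : Algebra.IsAlgebraic ℚ Ω := IsAlgClosure.isAlgebraic
  have hcomp : CompactSpace Γ := by
    have h1 : IsClosed (Γ : Set Gal(Ω/ℚ)) := Subgroup.isClosed_of_isOpen Γ hΓ
    exact isCompact_iff_compactSpace.1 h1.isCompact
  have hfin : Finite (Γ ⧸ U) := Subgroup.quotient_finite_of_isOpen U hU
  have hfi : U.FiniteIndex := Subgroup.finiteIndex_of_finite_quotient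
  have hcore : U.normalCore.FiniteIndex := Subgroup.finiteIndex_normalCore U
  obtain ⟨m, hm⟩ : ∃ m, m = U.normalCore.index := ⟨_, rfl⟩
  have hm0 : 0 < m := by
    rw [hm]
    exact Nat.pos_of_ne_zero hcore.index_ne_zero
  have hφ : φ ^ m ∈ U := by
    rw [hm]
    exact U.normalCore_le (Subgroup.pow_index_mem U.normalCore φ)
  let ι : Ω →ₐ[ℚ] PadicAlgCl p := IsAlgClosed.lift
  have hchA : (mat (ρ p) φ).charpoly = P.map (algebraMap ℚ ℚ_[p]) := by
    rw [mat_charpoly]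
    exact h.char p hp
  have hs : (mat (ρ p) φ ^ m).charpoly.Separable := by
    refine separable_pow _ hm0 ?_ fun a a' ha ha' haa => ?_
    · rw [hchA]
      exact hn.1.map
    · rw [hchA, e2_root ι.toRingHom h.monic.ne_zero] at ha ha'
      obtain ⟨z, hz, rfl⟩ := ha
      obtain ⟨z', hz', rfl⟩ := ha'
      rw [hn.2 z z' hz hz' m hm0 (ι.toRingHom.injective (by rw [map_pow, map_pow]; exact haa))]
  have hT : (LinearMap.charpoly (ρ p (φ ^ m))).Separable := by
    rw [← mat_charpoly, mat_pow]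
    exact hs
  have hpow : ∀ j : ℕ, (ρ p (φ ^ m)) ^ j = ρ p ((φ ^ m) ^ j) := fun j => (map_pow _ _ _).symm
  have hmem : ∀ j : ℕ, (φ ^ m) ^ j ∈ U := fun j => U.pow_mem hφ j
  have key : ∀ (T S : (Fin n → ℚ_[p]) →ₗ[ℚ_[p]] (Fin n → ℚ_[p])) (_ : T = S)
      (Y : Submodule ℚ_[p] (Fin n → ℚ_[p])) (h1 : ∀ x ∈ Y, T x ∈ Y) (h2 : ∀ x ∈ Y, S x ∈ Y),
      trOn T Y h1 = trOn S Y h2 := by
    rintro T _ rfl Y _ _
    rfl
  obtain ⟨j, hj⟩ := exists_trace_ne (ρ p (φ ^ m)) hT A B C D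
    (fun j x hx => by rw [hpow j]; exact hA _ (hmem j) x hx)
    (fun j x hx => by rw [hpow j]; exact hB _ (hmem j) x hx)
    (fun j x hx => by rw [hpow j]; exact hC _ (hmem j) x hx)
    (fun j x hx => by rw [hpow j]; exact hD _ (hmem j) x hx) h1 h2 h3
  refine ⟨(φ ^ m) ^ j, hmem j, ?_⟩
  rw [key _ _ (hpow j).symm B _ (fun x hx => by rw [hpow j]; exact hB _ (hmem j) x hx),
    key _ _ (hpow j).symm A _ (fun x hx => by rw [hpow j]; exact hA _ (hmem j) x hx),
    key _ _ (hpow j).symm C _ (fun x hx => by rw [hpow j]; exact hC _ (hmem j) x hx),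
    key _ _ (hpow j).symm D _ (fun x hx => by rw [hpow j]; exact hD _ (hmem j) x hx)]
  exact hj

end Pool.Agent.Lib.H90A
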