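import Mathlib
import Pool.Agent.Lib.H90A.G3
import Pool.Agent.Lib.H90A.N3
import Pool.Agent.Lib.H81D.Exist
import Pool.Agent.Lib.H90A.G4a

/-!
# Chunk G4 (S/M): regular systems are potentially multiplicity free
-/

namespace Pool.Agent.Lib.H90A

open Polynomial Module Filter Topology NumberField Pool.Agent.GSem Pool.Agent.GSD Pool.Agent.Ord
  Pool.Agent.Lib.H81D

variable {Ω : Type} [Field Ω] [CharZero Ω] [IsAlgClosure ℚ Ω] {Γ : Subgroup Gal(Ω/ℚ)} {n : ℕ}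
  {ρ : ∀ (p : ℕ) [Fact p.Prime], Representation ℚ_[p] Γ (Fin n → ℚ_[p])} {w : ℤ}

/-- Proof. `H81D.exists_neat` gives a neat `(q, P)` with simple roots, so `neatSet ρ w` is nonempty and equal to `neatMax ρ w`
(`neatMax_eq_neatSet`). `exists_isMax`, `mem_neatMax_iff`; `exists_neatM` with `b = p` gives `(q', φ', P')` with `q' > p` in `neatMax`
(`isFrobPoly_iff`), so in `neatSet`, i.e. `IsNeat Ω P'`; `multFree_of_neat`. -/
theorem multFree_of_reg (hΓ : IsOpen (Γ : Set Gal(Ω/ℚ)))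
    (hcont : ∀ (p : ℕ) [Fact p.Prime], IsCont (ρ p)) (hsys : IsPureSys ρ w)
    (hreg : ∃ (p : ℕ) (_ : Fact p.Prime), (∃ g : Γ, IsStrReg (ρ p) g) ∨
      ∃ h : Fin n → ℤ, Function.Injective h ∧ IsHT (ρ p) h) (p : ℕ) [Fact p.Prime] :
    PotMultFree (ρ p) := by
  obtain ⟨q0, P0, hqP0, hn0⟩ := exists_neat hΓ hcont hsys hreg
  have hne : (neatSet ρ w).Nonempty := ⟨(q0, P0), hqP0, hn0⟩
  have heq := neatMax_eq_neatSet hne
  obtain ⟨M, d, hmax, q, φ, P, hdat, hP⟩ := exists_isMax hΓ hsys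
  obtain ⟨q', φ', P', hpq', hd', hn', hc'⟩ := exists_neatM hmax hΓ hsys hcont hdat hP p
  have h1 : ((q', P') : ℕ × ℚ[X]) ∈ neatMax ρ w :=
    (mem_neatMax_iff hmax ⟨q, φ, P, hdat, hP⟩ _).2
      ⟨(isFrobPoly_iff ρ w q' P').2 ⟨φ', hd'⟩, hn', hc'⟩
  rw [heq] at h1
  exact multFree_of_neat hΓ hd' h1.2 p hpq'.ne

end Pool.Agent.Lib.H90A
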