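import Mathlib
import Pool.Agent.Lib.H90A.Defs
import Pool.Agent.Lib.H81D.E1

/-!
# Chunk T1a (S/M): roots and Galois
-/

namespace Pool.Agent.Lib.H90A

open Polynomial Module Filter Topology Pool.Agent.GSem Pool.Agent.GSD Pool.Agent.Lib.H81D

variable {p : ℕ} [Fact p.Prime]

/-- The multiset of the roots of `f` over `ℚ_p` is stable under Galois: `Multiset.map τ` of the roots of
`f.map` are the roots of `(f.map).map τ = f.map` (`Polynomial.roots_map_of_injective_of_card_eq_natDegree`
or `Polynomial.aroots_map`-like lemma, `IsAlgClosed.splits`; or count: `rootMultiplicity` and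
`Polynomial.rootMultiplicity_map`/`eq_rootMultiplicity_map` for the injective ring homomorphism `τ`). -/
theorem aroots_gal (f : ℚ_[p][X]) (τ : Gal(PadicAlgCl p/ℚ_[p])) :
    (f.aroots (PadicAlgCl p)).map τ = f.aroots (PadicAlgCl p) := by
  have h1 : ((f.map (algebraMap ℚ_[p] (PadicAlgCl p))).map
      (τ : PadicAlgCl p →+* PadicAlgCl p)) = f.map (algebraMap ℚ_[p] (PadicAlgCl p)) := by
    rw [Polynomial.map_map]
    congr 1
    ext x
    exact τ.commutes x
  have h2 : (f.map (algebraMap ℚ_[p] (PadicAlgCl p))).Splits := IsAlgClosed.splits _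
  have h3 := h2.roots_map (τ : PadicAlgCl p →+* PadicAlgCl p)
  rw [h1] at h3
  rw [aroots_def]
  exact h3.symm

end Pool.Agent.Lib.H90A
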