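import Mathlib
import Pool.Agent.Lib.H90A.Defs
import Pool.Agent.Lib.H81D.E1
import Pool.Agent.Lib.H90A.T1a

/-!
# Chunk T1 (M): the roots of a polynomial over Q_p whose roots y are conjugate to Q / y
-/

namespace Pool.Agent.Lib.H90A

open Polynomial Module Filter Topology Pool.Agent.GSem Pool.Agent.GSD Pool.Agent.Lib.H81D

variable {p : ℕ} [Fact p.Prime]

/-- Proof. `Multiset.ext`: the count of `a ≠ 0` in the left hand side is the count of `Q / a` in the
roots `s` (`y ↦ Q / y` is injective on nonzero elements and an involution; `Multiset.count_map` or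
`Multiset.count_map_eq_count'`), the count of `0` is 0 on both sides (`h` for `y = 0` in `s` gives a
contradiction; `Q / y ≠ 0`). If neither `a` nor `Q / a` is in `s`, both counts are 0. If `a ∈ s`, `τ a = Q / a`,
then count of `Q / a` in `s` = count of `τ a` in `s.map τ` (`aroots_gal`) = count of `a` in `s` (`τ`
injective, `Multiset.count_map_eq_count'`). If `Q / a ∈ s`, the same for `Q / a`, as
`Q / (Q / a) = a`. -/
theorem aroots_symm (f : ℚ_[p][X]) (Q : PadicAlgCl p) (hQ : Q ≠ 0)
    (h : ∀ y ∈ f.aroots (PadicAlgCl p), y ≠ 0 ∧ ∃ τ : Gal(PadicAlgCl p/ℚ_[p]), τ y = Q / y) :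
    (f.aroots (PadicAlgCl p)).map (fun y => Q / y) = f.aroots (PadicAlgCl p) := by
  classical
  set s := f.aroots (PadicAlgCl p) with hs
  have hinv : ∀ a : PadicAlgCl p, a ≠ 0 → Q / (Q / a) = a := fun a ha => by
    field_simp
  have hgal : ∀ (τ : Gal(PadicAlgCl p/ℚ_[p])) (a : PadicAlgCl p), s.count (τ a) = s.count a := by
    intro τ a
    have h1 := aroots_gal f τ
    have h2 : (s.map τ).count (τ a) = s.count a :=
      Multiset.count_map_eq_count' (τ : PadicAlgCl p → PadicAlgCl p) s τ.injective a
    rw [← h2, hs, h1]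
  ext a
  by_cases ha : a = 0
  · subst ha
    rw [Multiset.count_eq_zero_of_notMem, Multiset.count_eq_zero_of_notMem]
    · intro h0
      exact (h 0 h0).1 rfl
    · intro h0
      rw [Multiset.mem_map] at h0
      obtain ⟨y, hy, hy0⟩ := h0
      exact div_ne_zero hQ (h y hy).1 hy0
  · have e1 : (s.map (fun y => Q / y)).count a = s.count (Q / a) := by
      rw [Multiset.count_map, Multiset.count_eq_card_filter_eq]
      congr 1
      refine Multiset.filter_congr fun y hy => ?_
      have hy0 := (h y hy).1
      constructor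
      · rintro rfl
        exact hinv y hy0
      · intro h1
        rw [← h1, hinv a ha]
    rw [e1]
    by_cases h1 : a ∈ s
    · obtain ⟨_, τ, hτ⟩ := h a h1
      rw [← hτ, hgal]
    · by_cases h2 : Q / a ∈ s
      · obtain ⟨_, τ, hτ⟩ := h _ h2
        rw [hinv a ha] at hτ
        have h3 := hgal τ (Q / a)
        rw [hτ] at h3
        exact h3.symm
      · rw [Multiset.count_eq_zero_of_notMem h1, Multiset.count_eq_zero_of_notMem h2]

end Pool.Agent.Lib.H90A
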