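import Mathlib
import Pool.Agent.Lib.H90A.T1

/-!
# Chunk T2a (S): the trace as a sum over the eigenvalues
-/

namespace Pool.Agent.Lib.H90A

open Polynomial Module Filter Topology Pool.Agent.GSem Pool.Agent.GSD Pool.Agent.Lib.H81D

variable {p : ℕ} [Fact p.Prime] {V : Type} [AddCommGroup V] [Module ℚ_[p] V]
  [FiniteDimensional ℚ_[p] V]

/-- The trace is the sum of the roots of the characteristic polynomial: choose a basis,
`LinearMap.trace_eq_matrix_trace`, `LinearMap.charpoly_toMatrix`, map the matrix to the algebraically closed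
field (`Matrix.charpoly_map`, `RingHom.map_trace`), `Matrix.trace_eq_sum_roots_charpoly`. -/
theorem trace_eq_sum (T : V →ₗ[ℚ_[p]] V) :
    algebraMap ℚ_[p] (PadicAlgCl p) (LinearMap.trace ℚ_[p] V T) =
      (T.charpoly.aroots (PadicAlgCl p)).sum := by
  classical
  obtain ⟨b⟩ : Nonempty (Basis (Fin (finrank ℚ_[p] V)) ℚ_[p] V) := ⟨Module.finBasis ℚ_[p] V⟩
  rw [LinearMap.trace_eq_matrix_trace ℚ_[p] b T, ← LinearMap.charpoly_toMatrix T b]
  have h1 : algebraMap ℚ_[p] (PadicAlgCl p) (LinearMap.toMatrix b b T).trace =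
      ((LinearMap.toMatrix b b T).map (algebraMap ℚ_[p] (PadicAlgCl p))).trace := by
    rw [Matrix.trace, map_sum]
    rfl
  rw [h1, Matrix.trace_eq_sum_roots_charpoly, Matrix.charpoly_map, aroots_def]

end Pool.Agent.Lib.H90A
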