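import Mathlib
import Pool.Agent.Lib.H90A.T1
import Pool.Agent.Lib.H90A.T2a

/-!
# Chunk T2 (M): the trace of the inverse
-/

namespace Pool.Agent.Lib.H90A

open Polynomial Module Filter Topology Pool.Agent.GSem Pool.Agent.GSD Pool.Agent.Lib.H81D

variable {p : ℕ} [Fact p.Prime] {V : Type} [AddCommGroup V] [Module ℚ_[p] V]
  [FiniteDimensional ℚ_[p] V]

/-- The roots of the characteristic polynomial of an inverse matrix. -/
theorem t2_roots_inv {L m : Type*} [Field L] [IsAlgClosed L] [Fintype m] [DecidableEq m]
    (A B : Matrix m m L) (h : B * A = 1) :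
    B.charpoly.roots = A.charpoly.roots.map (fun y => y⁻¹) := by
  set s := A.charpoly.roots with hs
  have hcard : s.card = Fintype.card m := by
    rw [hs, ← (IsAlgClosed.splits A.charpoly).natDegree_eq_card_roots, Matrix.charpoly_natDegree_eq_dim]
  have hA : A.charpoly = (s.map fun a => X - C a).prod :=
    (IsAlgClosed.splits A.charpoly).eq_prod_roots_of_monic A.charpoly_monic
  have hdet : A.det = s.prod := Matrix.det_eq_prod_roots_charpoly A
  have hBA : B.det * A.det = 1 := by rw [← Matrix.det_mul, h, Matrix.det_one]
  have h0 : ∀ a ∈ s, a ≠ 0 := by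
    rintro a ha rfl
    rw [hdet, Multiset.prod_eq_zero ha, mul_zero] at hBA
    exact zero_ne_one hBA
  have key : B.charpoly = (s.map fun a => X - C a⁻¹).prod := by
    apply Polynomial.eq_of_infinite_eval_eq
    refine Set.Infinite.mono (s := {(0 : L)}ᶜ) ?_ ((Set.finite_singleton (0 : L)).infinite_compl)
    intro t ht
    have ht0 : t ≠ 0 := ht
    show eval t B.charpoly = eval t (s.map fun a => X - C a⁻¹).prod
    have e1 : Matrix.scalar m t - B = B * ((-t) • (Matrix.scalar m t⁻¹ - A)) := by
      have e2 : (-t) • (Matrix.scalar m t⁻¹ - A) = t • A - 1 := by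
        ext i j
        simp only [Matrix.smul_apply, Matrix.sub_apply, Matrix.scalar_apply, Matrix.diagonal_apply,
          Matrix.one_apply, smul_eq_mul]
        split_ifs
        · field_simp
          ring
        · ring
      rw [e2, mul_sub, mul_one, Matrix.mul_smul, h]
      congr 1
      ext i j
      simp only [Matrix.smul_apply, Matrix.scalar_apply, Matrix.diagonal_apply, Matrix.one_apply, smul_eq_mul]
      split_ifs <;> simp
    rw [Matrix.eval_charpoly, e1, Matrix.det_mul, Matrix.det_smul, ← Matrix.eval_charpoly, hA,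
      eval_multiset_prod, eval_multiset_prod, Multiset.map_map, Multiset.map_map, ← hcard]
    have e3 : (-t) ^ s.card = (s.map fun _ => -t).prod := by
      rw [Multiset.map_const', Multiset.prod_replicate]
    rw [e3, ← Multiset.prod_map_mul]
    have e4 : (s.map fun i => -t * ((fun x => eval t⁻¹ x) ∘ fun a => X - C a) i) =
        s.map fun a => a * ((fun x => eval t x) ∘ fun a => X - C a⁻¹) a := by
      refine Multiset.map_congr rfl fun a ha => ?_
      have ha0 := h0 a ha
      simp only [Function.comp_apply, eval_sub, eval_X, eval_C]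
      field_simp
      ring
    rw [e4, Multiset.prod_map_mul, Multiset.map_id', ← hdet, ← mul_assoc, hBA, one_mul]
  have key2 : B.charpoly = ((s.map (fun y => y⁻¹)).map fun a => X - C a).prod := by
    rw [key, Multiset.map_map]
    rfl
  rw [key2, roots_multiset_prod_X_sub_C]

/-- The trace of the inverse is the sum of the inverses of the roots. Proof: choose a basis; `A` the
matrix of `T` over the algebraically closed field `K`, `A' ` that of `S`, `A' * A = 1`. The charpoly of `A'` has
the roots `y⁻¹` with the same multiplicities: `det (X - A') = det A' * det (X A - 1)`; or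
`Matrix.charpolyRev`, `Matrix.reverse_charpoly`; or: `A` is similar to an upper triangular matrix; or:
`trace A' = trace (adjugate A) / det A` and both sides are `± coeff 1 / coeff 0` of the charpoly
(`Matrix.trace_adjugate`-like lemma; `Multiset.esymm`, `Polynomial.coeff_eq_esymm_roots_of_card`).
Any way is fine. -/
theorem trace_inv_eq_sum (T S : V →ₗ[ℚ_[p]] V) (h : S ∘ₗ T = LinearMap.id) :
    algebraMap ℚ_[p] (PadicAlgCl p) (LinearMap.trace ℚ_[p] V S) =
      ((T.charpoly.aroots (PadicAlgCl p)).map (fun y => y⁻¹)).sum := by
  rw [trace_eq_sum S]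
  congr 1
  let b := Module.finBasis ℚ_[p] V
  have hm : ∀ F : V →ₗ[ℚ_[p]] V, F.charpoly.aroots (PadicAlgCl p) =
      ((LinearMap.toMatrix b b F).map (algebraMap ℚ_[p] (PadicAlgCl p))).charpoly.roots := by
    intro F
    rw [Matrix.charpoly_map, LinearMap.charpoly_toMatrix]
  rw [hm, hm]
  apply t2_roots_inv
  rw [← Matrix.map_mul, ← LinearMap.toMatrix_comp b b b, h, LinearMap.toMatrix_id]
  exact Matrix.map_one _ (map_zero _) (map_one _)

end Pool.Agent.Lib.H90A
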