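import Mathlib
import Pool.Agent.Lib.H90A.T2

/-!
# Chunk T3a (S/M): eigenvalues on a stable subspace
-/

namespace Pool.Agent.Lib.H90A

open Polynomial Module Filter Topology Pool.Agent.GSem Pool.Agent.GSD Pool.Agent.Lib.H81D

variable {p : ℕ} [Fact p.Prime] {V : Type} [AddCommGroup V] [Module ℚ_[p] V]
  [FiniteDimensional ℚ_[p] V]

/-- The eigenvalues (in an extension) on a stable subspace are eigenvalues: `T.charpoly` annihilates `T`
(`LinearMap.aeval_self_charpoly`), so also `T.restrict h` (`aeval` of the restriction is the restriction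
of `aeval`: `Polynomial.induction_on` or `LinearMap.restrict` lemmas); and if `f` annihilates an endomorphism `T'`
and `y` is a root of the charpoly of `T'` in the extension field `K`, then `f y = 0`: `y` is in the spectrum of
the matrix of `T'` over `K` (`Matrix.mem_spectrum_iff_isRoot_charpoly`, see the proof of
`H81D.root_pow_iff`), and `aeval y f` is in the spectrum of `f` of the matrix
(`spectrum.subset_polynomial_aeval`), which is 0. Or: `charpoly` of `T` is the product of the charpolys of the
restriction and of the quotient. -/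
theorem root_restrict (T : V →ₗ[ℚ_[p]] V) (Y : Submodule ℚ_[p] V) (h : ∀ x ∈ Y, T x ∈ Y)
    (y : PadicAlgCl p) (hy : aeval y (T.restrict h).charpoly = 0) :
    aeval y T.charpoly = 0 := by
  classical
  obtain ⟨b⟩ : Nonempty (Basis (Fin (finrank ℚ_[p] Y)) ℚ_[p] Y) := ⟨Module.finBasis ℚ_[p] Y⟩
  obtain ⟨A, hA⟩ : ∃ A, A = LinearMap.toMatrix b b (T.restrict h) := ⟨_, rfl⟩
  -- the characteristic polynomial of `T` annihilates the restriction
  have h1 : ∀ f : ℚ_[p][X], ∀ x : Y, ((aeval (T.restrict h) f x : Y) : V) = aeval T f (x : V) := by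
    intro f
    induction f using Polynomial.induction_on' with
    | add f g hf hg =>
      intro x
      rw [map_add, map_add, LinearMap.add_apply, LinearMap.add_apply, Submodule.coe_add, hf, hg]
    | monomial k a =>
      intro x
      rw [aeval_monomial, aeval_monomial]
      have h2 : ∀ (k : ℕ) (x : Y), ((((T.restrict h) ^ k) x : Y) : V) = (T ^ k) (x : V) := by
        intro k
        induction k with
        | zero => exact fun x => rfl
        | succ k ih =>
          intro x
          rw [pow_succ', pow_succ', Module.End.mul_apply, Module.End.mul_apply, ← ih x]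
          rfl
      rw [Module.End.mul_apply, Module.End.mul_apply, Module.algebraMap_end_apply,
        Module.algebraMap_end_apply, Submodule.coe_smul, h2]
  have h2 : aeval (T.restrict h) T.charpoly = 0 := by
    ext x
    rw [h1, LinearMap.aeval_self_charpoly]
    rfl
  have h3 : aeval A T.charpoly = 0 := by
    have h5 : A = (LinearMap.toMatrixAlgEquiv b).toAlgHom (T.restrict h) := hA
    rw [h5, aeval_algHom_apply, h2, map_zero]
  have h4 : aeval (A.map (algebraMap ℚ_[p] (PadicAlgCl p)))
      (T.charpoly.map (algebraMap ℚ_[p] (PadicAlgCl p))) = 0 := by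
    have h5 : (aeval (A.map (algebraMap ℚ_[p] (PadicAlgCl p))))
        (T.charpoly.map (algebraMap ℚ_[p] (PadicAlgCl p))) =
        (aeval A T.charpoly).map (algebraMap ℚ_[p] (PadicAlgCl p)) := by
      have h6 := (Polynomial.map_aeval_eq_aeval_map (φ := algebraMap ℚ_[p] (PadicAlgCl p))
        (ψ := (algebraMap ℚ_[p] (PadicAlgCl p)).mapMatrix) ?_ T.charpoly A)
      · exact h6.symm
      · ext x i j
        by_cases hij : i = j
        · simp [Matrix.algebraMap_matrix_apply, hij]
        · simp [Matrix.algebraMap_matrix_apply, hij]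
    rw [h5, h3]
    ext i j
    simp
  have h5 : y ∈ spectrum (PadicAlgCl p) (A.map (algebraMap ℚ_[p] (PadicAlgCl p))) := by
    rw [Matrix.mem_spectrum_iff_isRoot_charpoly, Matrix.charpoly_map, IsRoot.def,
      eval_map_algebraMap, hA, LinearMap.charpoly_toMatrix]
    exact hy
  have h6 := spectrum.subset_polynomial_aeval (A.map (algebraMap ℚ_[p] (PadicAlgCl p)))
    (T.charpoly.map (algebraMap ℚ_[p] (PadicAlgCl p))) ⟨y, h5, rfl⟩
  rw [h4] at h6
  have h7 : Nontrivial (Matrix (Fin (finrank ℚ_[p] Y)) (Fin (finrank ℚ_[p] Y)) (PadicAlgCl p)) := by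
    by_contra hcon
    rw [not_nontrivial_iff_subsingleton] at hcon
    rw [spectrum.of_subsingleton] at h5
    exact h5
  rw [spectrum.zero_eq, Set.mem_singleton_iff] at h6
  rw [← eval_map_algebraMap]
  exact h6

end Pool.Agent.Lib.H90A
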