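import Mathlib
import Pool.Agent.Lib.H90A.T2
import Pool.Agent.Lib.H90A.T3a

/-!
# Chunk T3 (S/M): the trace on a stable subspace
-/

namespace Pool.Agent.Lib.H90A

open Polynomial Module Filter Topology Pool.Agent.GSem Pool.Agent.GSD Pool.Agent.Lib.H81D

variable {p : ℕ} [Fact p.Prime] {V : Type} [AddCommGroup V] [Module ℚ_[p] V]
  [FiniteDimensional ℚ_[p] V]

/-- Proof: `f = (T.restrict h).charpoly`; by `root_restrict` all its roots satisfy the hypothesis. `trace_eq_sum`,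
`trace_inv_eq_sum` (for the restrictions), `aroots_symm`; `Q / y = Q * y⁻¹`, `Multiset.sum_map_mul_left`;
`algebraMap` is injective. -/
theorem trOn_eq (T S : V →ₗ[ℚ_[p]] V) (hTS : S ∘ₗ T = LinearMap.id) (Q : ℚ_[p]) (hQ : Q ≠ 0)
    (hc : ∀ y : PadicAlgCl p, aeval y T.charpoly = 0 → y ≠ 0 ∧
      ∃ τ : Gal(PadicAlgCl p/ℚ_[p]), τ y = algebraMap ℚ_[p] (PadicAlgCl p) Q / y)
    (Y : Submodule ℚ_[p] V) (hT : ∀ x ∈ Y, T x ∈ Y) (hS : ∀ x ∈ Y, S x ∈ Y) :
    trOn T Y hT = Q * trOn S Y hS := by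
  classical
  obtain ⟨f, hf⟩ : ∃ f, f = (T.restrict hT).charpoly := ⟨_, rfl⟩
  have hf0 : f ≠ 0 := by
    rw [hf]
    exact (LinearMap.charpoly_monic _).ne_zero
  have hQ' : algebraMap ℚ_[p] (PadicAlgCl p) Q ≠ 0 := by
    rwa [Ne, map_eq_zero]
  have hroots : ∀ y ∈ f.aroots (PadicAlgCl p), y ≠ 0 ∧
      ∃ τ : Gal(PadicAlgCl p/ℚ_[p]), τ y = algebraMap ℚ_[p] (PadicAlgCl p) Q / y := by
    intro y hy
    refine hc y (root_restrict T Y hT y ?_)
    rw [← hf]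
    exact (mem_aroots.1 hy).2
  have hcomp : S.restrict hS ∘ₗ T.restrict hT = LinearMap.id := by
    ext1 x
    exact Subtype.ext (LinearMap.congr_fun hTS (x : V))
  have h1 := trace_eq_sum (T.restrict hT)
  have h2 := trace_inv_eq_sum (T.restrict hT) (S.restrict hS) hcomp
  have h3 := aroots_symm f (algebraMap ℚ_[p] (PadicAlgCl p) Q) hQ' hroots
  rw [← hf] at h1 h2
  refine (algebraMap ℚ_[p] (PadicAlgCl p)).injective ?_
  rw [map_mul]
  unfold trOn
  rw [h1, h2, ← Multiset.sum_map_mul_left]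
  conv_lhs => rw [← h3]
  refine congrArg Multiset.sum (Multiset.map_congr rfl fun y _ => ?_)
  rw [div_eq_mul_inv]

end Pool.Agent.Lib.H90A
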