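import Mathlib
import Pool.Agent.Lib.H90A.Defs

/-!
# Chunk T4 (S/M): open subgroups with stable span
-/

namespace Pool.Agent.Lib.H90A

/-- Proof. Among the subspaces `span K (κ '' U)`, `U` an open subgroup, choose one, `A`, for `U0`, of smallest
dimension (`WellFounded.min` on `ℕ` or `Nat.find`). For `U ≤ U0` open: `span (κ '' U) ≤ A` and the dimension is not
smaller, so equality (`Submodule.eq_of_le_of_finrank_le`). Let `U` be open, `a ∈ U0`, `lam (κ (a * u)) = 0` for
`u ∈ U`; replace `U` by `U ⊓ U0` (open). `A` is closed under multiplication by `κ a` on the left (`κ a * κ u = κ (a u)`,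
`Submodule.span_induction`), and the map `x ↦ κ a * x` is injective (`κ a⁻¹ * κ a = 1`), so it maps `A` onto `A`
(`LinearMap.injective_iff_surjective` for the restriction, or `Submodule.map` has the same dimension).
The linear map `lam ∘ (κ a * ·)` vanishes on `κ '' U`, so on its span `A`; so `lam` vanishes on `κ a * A = A`,
which contains `κ u` for `u ∈ U0`. -/
theorem exists_span {G : Type} [Group G] [TopologicalSpace G] {K E : Type} [Field K] [Ring E]
    [Algebra K E] [FiniteDimensional K E] (κ : G →* E) :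
    ∃ U0 : Subgroup G, IsOpen (U0 : Set G) ∧ ∀ U : Subgroup G, IsOpen (U : Set G) →
      ∀ a ∈ U0, ∀ lam : E →ₗ[K] K, (∀ u ∈ U, lam (κ (a * u)) = 0) → ∀ u ∈ U0, lam (κ u) = 0 := by
  classical
  obtain ⟨U0, hU0, hmin⟩ : ∃ U0 : Subgroup G, IsOpen (U0 : Set G) ∧
      ∀ U : Subgroup G, IsOpen (U : Set G) →
        Module.finrank K (Submodule.span K (κ '' (U0 : Set G))) ≤
          Module.finrank K (Submodule.span K (κ '' (U : Set G))) := by
    have hne : {m | ∃ U : Subgroup G, IsOpen (U : Set G) ∧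
        Module.finrank K (Submodule.span K (κ '' (U : Set G))) = m}.Nonempty :=
      ⟨_, ⊤, isOpen_univ, rfl⟩
    obtain ⟨U0, h1, h2⟩ := Nat.sInf_mem hne
    refine ⟨U0, h1, fun U hU => ?_⟩
    rw [h2]
    exact Nat.sInf_le ⟨U, hU, rfl⟩
  refine ⟨U0, hU0, fun U hU a ha lam hlam => ?_⟩
  obtain ⟨A, hA⟩ : ∃ A, A = Submodule.span K (κ '' (U0 : Set G)) := ⟨_, rfl⟩
  have hle : Submodule.span K (κ '' ((U ⊓ U0 : Subgroup G) : Set G)) ≤ A := by
    rw [hA]
    exact Submodule.span_mono (Set.image_mono fun x hx => hx.2)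
  have hspan : Submodule.span K (κ '' ((U ⊓ U0 : Subgroup G) : Set G)) = A := by
    refine Submodule.eq_of_le_of_finrank_le hle ?_
    rw [hA]
    exact hmin _ (hU.inter hU0)
  have hinj : Function.Injective (LinearMap.mulLeft K (κ a)) := by
    intro x y hxy
    have h1 : κ a * x = κ a * y := hxy
    have h2 : κ a⁻¹ * κ a = 1 := by rw [← map_mul, inv_mul_cancel, map_one]
    have h3 := congrArg (κ a⁻¹ * ·) h1
    simp only [← mul_assoc, h2, one_mul] at h3
    exact h3
  have hmap : A.map (LinearMap.mulLeft K (κ a)) = A := by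
    refine Submodule.eq_of_le_of_finrank_eq ?_ ?_
    · rw [hA, Submodule.map_span_le]
      rintro _ ⟨u, hu, rfl⟩
      rw [LinearMap.mulLeft_apply, ← map_mul]
      exact Submodule.subset_span ⟨a * u, U0.mul_mem ha hu, rfl⟩
    · exact (LinearEquiv.finrank_eq (Submodule.equivMapOfInjective _ hinj A)).symm
  intro u hu
  have h1 : κ u ∈ A.map (LinearMap.mulLeft K (κ a)) := by
    rw [hmap, hA]
    exact Submodule.subset_span ⟨u, hu, rfl⟩
  obtain ⟨x, hx, hxu⟩ := h1
  rw [← hxu, LinearMap.mulLeft_apply]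
  rw [SetLike.mem_coe, ← hspan] at hx
  have h2 : Submodule.span K (κ '' ((U ⊓ U0 : Subgroup G) : Set G)) ≤
      LinearMap.ker (lam ∘ₗ LinearMap.mulLeft K (κ a)) := by
    rw [Submodule.span_le]
    rintro _ ⟨v, hv, rfl⟩
    rw [SetLike.mem_coe, LinearMap.mem_ker, LinearMap.comp_apply, LinearMap.mulLeft_apply,
      ← map_mul]
    exact hlam v hv.1
  exact h2 hx

end Pool.Agent.Lib.H90A
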