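import Mathlib
import Pool.Agent.Lib.H90A.Defs
import Pool.Agent.Lib.H81D.A1
import Pool.Agent.Lib.H81D.E1

/-!
# Chunk T6 (M): the eigenvalues of a polarised representation
-/

namespace Pool.Agent.Lib.H90A

open Polynomial Module Filter Topology NumberField Pool.Agent.GSem Pool.Agent.GSD Pool.Agent.Ord
  Pool.Agent.Lib.H81D

/-- Roots of the charpoly and eigenvectors. -/
theorem t6_eig {L : Type} [Field L] {n : ℕ} (C : Matrix (Fin n) (Fin n) L) (z : L) :
    C.charpoly.eval z = 0 ↔ ∃ v : Fin n → L, v ≠ 0 ∧ Matrix.mulVec C v = z • v := by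
  rw [Matrix.eval_charpoly, ← Matrix.exists_mulVec_eq_zero_iff]
  constructor
  · rintro ⟨v, hv, h⟩
    refine ⟨v, hv, ?_⟩
    rw [Matrix.sub_mulVec, sub_eq_zero] at h
    rw [← h]
    ext i
    simp [Matrix.scalar_apply, Matrix.mulVec_diagonal]
  · rintro ⟨v, hv, h⟩
    refine ⟨v, hv, ?_⟩
    rw [Matrix.sub_mulVec, sub_eq_zero, h]
    ext i
    simp [Matrix.scalar_apply, Matrix.mulVec_diagonal]

/-- Proof. Let `G = mat r g`, `b` the matrix of `B` (`b i j = B (e i) (e j)`, `Pi.basisFun`;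
`LinearMap.toMatrix₂'`), `Q = toQ (cyc g) ^ (-w)`. `hB.2` says `Gᵀ * b * G = Q • b` and `hB.1` that `b` is invertible
(`bᵀ` or `b` has trivial kernel). So `G = (Gᵀ b)⁻¹ (Q • b) = b⁻¹ (Q • (Gᵀ)⁻¹) b`, similar to `Q • (Gᵀ)⁻¹`. Over the
algebraically closed field: `y` root of the charpoly of `G` iff `y` in the spectrum of `G` (mapped;
`Matrix.mem_spectrum_iff_isRoot_charpoly`, see the proof of `H81D.root_pow_iff`); `y ≠ 0` as `G` is invertible;
`y⁻¹` is in the spectrum of `G⁻¹`, so of its transpose, `Q / y` in that of `Q • (Gᵀ)⁻¹`, so in that of `G`.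
Alternatively with vectors: if `x` is an eigenvector of `Gᵀ`-type ... (any way is fine). -/
theorem star_polar {p : ℕ} [Fact p.Prime] {Ω : Type} [Field Ω] [CharZero Ω]
    {Γ : Subgroup Gal(Ω/ℚ)} {n : ℕ} (r : Representation ℚ_[p] Γ (Fin n → ℚ_[p])) (w : ℤ)
    (B : (Fin n → ℚ_[p]) →ₗ[ℚ_[p]] (Fin n → ℚ_[p]) →ₗ[ℚ_[p]] ℚ_[p]) (hB : IsPolar r w B) (g : Γ) :
    Star (mat r g).charpoly (toQ (cyc p Ω (g : Gal(Ω/ℚ))) ^ (-w)) := by
  set Q : ℚ_[p] := toQ (cyc p Ω (g : Gal(Ω/ℚ))) ^ (-w) with hQ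
  set b : Matrix (Fin n) (Fin n) ℚ_[p] := LinearMap.toMatrix₂' ℚ_[p] B with hb
  set f : ℚ_[p] →+* PadicAlgCl p := algebraMap ℚ_[p] (PadicAlgCl p) with hf
  set G : Matrix (Fin n) (Fin n) ℚ_[p] := mat r g with hG
  have hbdet : b.det ≠ 0 := by
    rw [← LinearMap.separatingLeft_toLinearMap₂'_iff_det_ne_zero, hb, Matrix.toLinearMap₂'_toMatrix']
    exact hB.1
  have hrel : G.transpose * b * G = Q • b := by
    have h1 : B.compl₁₂ (r g) (r g) = Q • B := by
      ext x y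
      simp only [LinearMap.coe_comp, Function.comp_apply, LinearMap.compl₁₂_apply, LinearMap.smul_apply, smul_eq_mul]
      exact hB.2 g _ _
    have h2 := LinearMap.toMatrix₂'_compl₁₂ (R := ℚ_[p]) B (r g) (r g)
    rw [h1, map_smul] at h2
    exact h2.symm
  have hGdet : G.det ≠ 0 := by
    have h1 : mat r g * mat r g⁻¹ = 1 := by rw [← mat_mul, mul_inv_cancel, mat_one]
    intro h0
    have h2 := congrArg Matrix.det h1
    rw [Matrix.det_mul, ← hG, h0, zero_mul, Matrix.det_one] at h2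
    exact zero_ne_one h2
  have key : ∀ (C : Matrix (Fin n) (Fin n) ℚ_[p]) (z : PadicAlgCl p),
      aeval z C.charpoly = 0 ↔ ∃ v : Fin n → PadicAlgCl p, v ≠ 0 ∧ Matrix.mulVec (C.map f) v = z • v := by
    intro C z
    rw [← t6_eig, Matrix.charpoly_map, eval_map_algebraMap]
  intro z hz
  obtain ⟨v, hv, hv1⟩ := (key G z).1 hz
  have hdetL : ∀ C : Matrix (Fin n) (Fin n) ℚ_[p], C.det ≠ 0 → ∀ u : Fin n → PadicAlgCl p, u ≠ 0 →
      Matrix.mulVec (C.map f) u ≠ 0 := by
    intro C hC u hu h0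
    have h1 : (C.map f).det = 0 := Matrix.exists_mulVec_eq_zero_iff.1 ⟨u, hu, h0⟩
    have h2 : (C.map f).det = f C.det := (RingHom.map_det f C).symm
    rw [h2, map_eq_zero] at h1
    exact hC h1
  have hz0 : z ≠ 0 := by
    rintro rfl
    rw [zero_smul] at hv1
    exact hdetL G hGdet v hv hv1
  refine ⟨hz0, ?_⟩
  have hu : Matrix.mulVec (b.map f) v ≠ 0 := hdetL b hbdet v hv
  have hrelL : (G.map f).transpose * b.map f * G.map f = f Q • b.map f := by
    have h1 := congrArg (fun C : Matrix (Fin n) (Fin n) ℚ_[p] => f.mapMatrix C) hrel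
    simp only [map_mul, RingHom.mapMatrix_apply] at h1
    rw [← Matrix.transpose_map, h1]
    ext i j
    simp [Matrix.map_apply, Matrix.smul_apply]
  have h3 : Matrix.mulVec (G.map f).transpose (Matrix.mulVec (b.map f) v) =
      (f Q / z) • Matrix.mulVec (b.map f) v := by
    have h4 : Matrix.mulVec ((G.map f).transpose * b.map f * G.map f) v = f Q • Matrix.mulVec (b.map f) v := by
      rw [hrelL, Matrix.smul_mulVec]
    rw [← Matrix.mulVec_mulVec, hv1, Matrix.mulVec_smul, ← Matrix.mulVec_mulVec] at h4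
    have h5 := congrArg (fun u => z⁻¹ • u) h4
    simp only [smul_smul, inv_mul_cancel₀ hz0, one_smul] at h5
    rw [h5]
    congr 1
    rw [div_eq_inv_mul]
  have h6 := (t6_eig (G.map f).transpose (f Q / z)).2 ⟨_, hu, h3⟩
  rw [Matrix.charpoly_transpose, Matrix.charpoly_map, eval_map_algebraMap] at h6
  exact h6

end Pool.Agent.Lib.H90A
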