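import Mathlib
import Pool.Agent.Lib.H90A.T5
import Pool.Agent.Lib.H90A.T6
import Pool.Agent.Lib.H81D.D1
import Pool.Agent.Lib.H99.PD.LocalFrob

/-!
# Chunk T7a (S/M): open subgroups defined by congruences
Frobenius element are conjugate to `Q / y`
-/

namespace Pool.Agent.Lib.H90A

open Polynomial Module Filter Topology NumberField Pool.Agent.GSem Pool.Agent.GSD Pool.Agent.Ord
  Pool.Agent.Lib.H81D

variable {Ω : Type} [Field Ω] [CharZero Ω] [IsAlgClosure ℚ Ω] {Γ : Subgroup Gal(Ω/ℚ)} {n : ℕ}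
  {ρ : ∀ (p : ℕ) [Fact p.Prime], Representation ℚ_[p] Γ (Fin n → ℚ_[p])} {w : ℤ}

/-- A neighbourhood of `a` defined by congruences contains `a U` for an open subgroup `U`. Proof: the set
`{u : Γ | Cg N (kap r (a * u)) (kap r a)}` is open (`continuous_kap`, closed balls are open, see the proof of
`H81D.exists_frob_cg`) and contains 1 (`Cg.refl`); its image in `Gal(Ω/ℚ)` is an open neighbourhood of 1
(`hΓ.isOpenMap_subtype_val`), so it contains an open normal subgroup `N'`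
(`ProfiniteGrp.exist_openNormalSubgroup_sub_open_nhds_of_one`, see `H81D.exists_frob_mem`);
`U = N'.subgroupOf Γ` (`Subgroup.comap` of the subtype; `Continuous.isOpen_preimage`). -/
theorem exists_subgroup_cg (hΓ : IsOpen (Γ : Set Gal(Ω/ℚ))) {l : ℕ} [Fact l.Prime]
    (r : Representation ℚ_[l] Γ (Fin n → ℚ_[l])) (hr : IsCont r) (a : Γ) (N : ℕ) :
    ∃ U : Subgroup Γ, IsOpen (U : Set Γ) ∧ ∀ u ∈ U, Cg N (kap r (a * u)) (kap r a) := by
  have hgal : IsGalois ℚ Ω := IsAlgClosure.isGalois ℚ Ω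
  have hlpos : (0 : ℝ) < l := by exact_mod_cast (Fact.out : l.Prime).pos
  have hSo : IsOpen {u : Γ | Cg N (kap r (a * u)) (kap r a)} := by
    have e : {u : Γ | Cg N (kap r (a * u)) (kap r a)} =
        ⋂ i, ⋂ j, (fun u : Γ => kap r (a * u) i j) ⁻¹'
          (Metric.closedBall (kap r a i j) (((l : ℝ) ^ N)⁻¹)) := by
      ext u
      simp only [Set.mem_iInter, Set.mem_preimage, Metric.mem_closedBall, dist_eq_norm]
      rfl
    rw [e]
    refine isOpen_iInter_of_finite fun i => isOpen_iInter_of_finite fun j => ?_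
    refine (IsUltrametricDist.isOpen_closedBall _ (by positivity)).preimage ?_
    have h1 : Continuous fun u : Γ => kap r (a * u) :=
      (continuous_kap r hr).comp (continuous_mul_left a)
    exact h1.matrix_elem i j
  have h2 : IsOpen (((↑) : Γ → Gal(Ω/ℚ)) '' {u : Γ | Cg N (kap r (a * u)) (kap r a)}) :=
    hΓ.isOpenMap_subtype_val _ hSo
  have h3 : (1 : Gal(Ω/ℚ)) ∈ ((↑) : Γ → Gal(Ω/ℚ)) '' {u : Γ | Cg N (kap r (a * u)) (kap r a)} := by
    refine ⟨1, ?_, rfl⟩
    rw [Set.mem_ofPred_eq, mul_one]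
    exact Cg.refl _ _
  obtain ⟨N', hN'⟩ := ProfiniteGrp.exist_openNormalSubgroup_sub_open_nhds_of_one h2 h3
  refine ⟨N'.toSubgroup.subgroupOf Γ, ?_, fun u hu => ?_⟩
  · exact N'.isOpen'.preimage continuous_subtype_val
  · have h4 : (u : Gal(Ω/ℚ)) ∈ N'.toSubgroup := hu
    obtain ⟨v, hv, hvu⟩ := hN' h4
    have h5 : v = u := Subtype.ext hvu
    rw [← h5]
    exact hv

end Pool.Agent.Lib.H90A
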