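import Mathlib
import Pool.Agent.Lib.H90A.T5
import Pool.Agent.Lib.H90A.T6
import Pool.Agent.Lib.H81D.D1
import Pool.Agent.Lib.H99.PD.LocalFrob
import Pool.Agent.Lib.H90A.T7a

/-!
# Chunk T7 (M/L): conjugate eigenvalues close to a power of a neat Frobenius element at an odd prime
Frobenius element are conjugate to `Q / y`
-/

namespace Pool.Agent.Lib.H90A

open Polynomial Module Filter Topology NumberField Pool.Agent.GSem Pool.Agent.GSD Pool.Agent.Ord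
  Pool.Agent.Lib.H81D

variable {Ω : Type} [Field Ω] [CharZero Ω] [IsAlgClosure ℚ Ω] {Γ : Subgroup Gal(Ω/ℚ)} {n : ℕ}
  {ρ : ∀ (p : ℕ) [Fact p.Prime], Representation ℚ_[p] Γ (Fin n → ℚ_[p])} {w : ℤ}

/-- Proof. `b` = maximum of `q` and of the bound of `exists_bound_frob (kerP Ω P)` (`isOpen_kerP`). Let `p > b`, `φ'`
a Frobenius element at `p`, odd for `P`. `exists_isFrobFor` gives `ι` with `IsFrobFor p ι φ'`;
`Pool.Agent.PD.exists_compat_frob ι` gives `σ`, `h` with `Compat ι σ h` and `h` Frobenius for `ι` (see the proof of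
`H81D.exists_local`), so `φ'⁻¹ * h ∈ kerP Ω P` and `h` is odd for `P` (`IsOdd.mul_ker`).
`A0 = mat (ρ p) φ ^ m`, `Q0 = (q ^ m) ^ (-w)`; `δ` from `exists_transM` (`injPow_datum`, `star_datum`); `N1`, `N2` from
`exists_cg_charpoly`, `exists_close_zpow (q ^ m)` as in `transferM`; `U` from `exists_subgroup_cg` for `a = φ ^ m`,
`N = max N1 N2`. Let `u ∈ U`, `g = φ ^ m * u`, `P' = (mat (ρ p) g).charpoly`, `Q' = toQ (cyc g) ^ (-w)`. The entry of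
`kap` at `(inr, inr)` gives `‖toQ (cyc g) - q ^ m‖ ≤ p ^ (-N)` (`cyc_frob`, see `cg_norm_of_kap`); `Star P' Q'` is
`star_polar`; the cardinality hypothesis is `ncard_pow_le` with `ncard_datum`. So there is `β` with
`Trans A0.charpoly Q0 P' Q' β`.
Let `y` be a root of `P'`: `y = β ((ι z) ^ m)`, `z` a root of `P` in `Ω` (`surj`, `root_pow_datum`). `y ≠ 0` by `Star`.
`(h ^ k) z * z = q ^ (-w)` for some `k`. `τ = σ ^ k`: `τ (ι z) = ι ((h ^ k) z) = ι (q ^ (-w) / z)` (`e2_compat_pow`), so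
`τ ((ι z) ^ m) = Q0 / (ι z) ^ m`, and `τ y = β (τ ((ι z) ^ m)) = β (Q0 / (ι z) ^ m) = Q' / y` (`equi`, `star`). -/
theorem conj_near {M d : ℕ} (hmax : IsMax ρ w M d) (hΓ : IsOpen (Γ : Set Gal(Ω/ℚ)))
    (hcont : ∀ (p : ℕ) [Fact p.Prime], IsCont (ρ p)) (hsys : IsPureSys ρ w)
    (hpol : ∀ (p : ℕ) [Fact p.Prime], ∃ B, IsPolar (ρ p) w B)
    {q : ℕ} {φ : Γ} {P : ℚ[X]} (h : IsDatum ρ w q φ P) (hn : NoTors Ω P)
    (hd : (P.rootSet Ω).ncard = d) :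
    ∃ b : ℕ, ∀ (p : ℕ) [Fact p.Prime], b < p → ∀ φ' : Gal(Ω/ℚ), IsFrobAt p φ' →
      IsOdd w q P φ' → ∀ m : ℕ, 0 < m → ∃ U : Subgroup Γ, IsOpen (U : Set Γ) ∧ ∀ u ∈ U,
        ∀ y : PadicAlgCl p, aeval y (mat (ρ p) (φ ^ m * u)).charpoly = 0 → y ≠ 0 ∧
          ∃ τ : Gal(PadicAlgCl p/ℚ_[p]), τ y = algebraMap ℚ_[p] (PadicAlgCl p)
            (toQ (cyc p Ω ((φ ^ m * u : Γ) : Gal(Ω/ℚ))) ^ (-w)) / y := by
  classical
  have hcl : IsAlgClosed Ω := IsAlgClosure.isAlgClosed ℚ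
  have halg : Algebra.IsAlgebraic ℚ Ω := IsAlgClosure.isAlgebraic
  have hgal : IsGalois ℚ Ω := IsAlgClosure.isGalois ℚ Ω
  have hnorm : Normal ℚ Ω := hgal.to_normal
  have hP : P ≠ 0 := h.monic.ne_zero
  obtain ⟨b1, hb1⟩ := exists_bound_frob (kerP Ω P) (isOpen_kerP hP)
  refine ⟨max q b1, fun p hpp hp φ' hφ' hodd m hm => ?_⟩
  have hpq : p ≠ q := (lt_of_le_of_lt (le_max_left _ _) hp).ne'
  obtain ⟨ι, hι⟩ := exists_isFrobFor hφ'
  obtain ⟨σ, h', hc, hg, -⟩ := Pool.Agent.PD.exists_compat_frob ι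
  have hgF : IsFrobFor p ι h' := by
    intro x
    have h1 := hg x
    exact h1
  have hker : φ'⁻¹ * h' ∈ kerP Ω P := hb1 p (lt_of_le_of_lt (le_max_right _ _) hp) ι φ' h' hι hgF
  have hodd' : IsOdd w q P h' := by
    have h1 := hodd.mul_ker hker
    rwa [mul_inv_cancel_left] at h1
  have hq0 : (q : ℚ_[p]) ≠ 0 := by
    exact_mod_cast h.prime.ne_zero
  obtain ⟨δ, hδ, htr⟩ := exists_transM _ (Matrix.charpoly_monic _) hmax.pos
    (injPow_datum h hn p hpq hm hmax.pos ι) _ (star_datum h p hpq hm ι)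
  obtain ⟨N1, hN1⟩ := exists_cg_charpoly (mat (ρ p) φ ^ m) δ hδ
  obtain ⟨N2, hN2⟩ := exists_close_zpow ((q : ℚ_[p]) ^ m) (pow_ne_zero _ hq0) w δ hδ
  obtain ⟨U, hU, hUcg⟩ := exists_subgroup_cg hΓ (ρ p) (hcont p) (φ ^ m) (max N1 N2)
  refine ⟨U, hU, fun u hu y hy => ?_⟩
  have hcg := hUcg u hu
  -- the cyclotomic entry
  have h1 : ‖toQ (cyc p Ω ((φ ^ m * u : Γ) : Gal(Ω/ℚ))) - (q : ℚ_[p]) ^ m‖ ≤ ((p : ℝ) ^ N2)⁻¹ := by
    have h3 := (hcg.mono (le_max_right N1 N2)) (Sum.inr ()) (Sum.inr ())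
    have h4 : kap (ρ p) (φ ^ m) (Sum.inr ()) (Sum.inr ()) = (q : ℚ_[p]) ^ m := by
      have h5 : kap (ρ p) (φ ^ m) (Sum.inr ()) (Sum.inr ()) =
        toQ (cyc p Ω ((φ ^ m : Γ) : Gal(Ω/ℚ))) := rfl
      have h6 : (toQ (cyc p Ω (φ : Gal(Ω/ℚ))) : ℚ_[p]) = (q : ℚ_[p]) := by
        have h7 := cyc_frob (p := p) h.prime hpq.symm h.frob
        have h8 : (toQ (cyc p Ω (φ : Gal(Ω/ℚ))) : ℚ_[p]) =
          (((cyc p Ω (φ : Gal(Ω/ℚ)) : ℤ_[p]ˣ) : ℤ_[p]) : ℚ_[p]) := rfl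
        rw [h8, h7]
        simp
      rw [h5, Subgroup.coe_pow, map_pow, map_pow, h6]
    rw [h4] at h3
    exact h3
  -- the coefficients
  have h2 : ∀ i, ‖(mat (ρ p) (φ ^ m * u)).charpoly.coeff i -
      (mat (ρ p) φ ^ m).charpoly.coeff i‖ ≤ δ := by
    refine hN1 _ fun i j => ?_
    have h3 := (hcg.mono (le_max_left N1 N2)) (Sum.inl i) (Sum.inl j)
    rw [← mat_pow]
    exact h3
  obtain ⟨B, hB⟩ := hpol p
  have hstar := star_polar (ρ p) w B hB (φ ^ m * u)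
  have hdeg : (mat (ρ p) (φ ^ m * u)).charpoly.natDegree = (mat (ρ p) φ ^ m).charpoly.natDegree := by
    rw [Matrix.charpoly_natDegree_eq_dim, Matrix.charpoly_natDegree_eq_dim]
  have hcard : ((fun a : PadicAlgCl p => a ^ M) ''
      (mat (ρ p) (φ ^ m * u)).charpoly.rootSet (PadicAlgCl p)).ncard ≤
        ((mat (ρ p) φ ^ m).charpoly.rootSet (PadicAlgCl p)).ncard := by
    rw [ncard_datum h hn p hpq hm ι, hd]
    exact ncard_pow_le hmax hΓ hsys p (hcont p) (φ ^ m * u)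
  obtain ⟨-, -, β, hβ⟩ := htr _ _ (Matrix.charpoly_monic _) hdeg h2 (hN2 _ h1) hstar hcard
  refine ⟨(hstar y hy).1, ?_⟩
  obtain ⟨x, hx, rfl⟩ := hβ.surj y hy
  obtain ⟨z, hz, rfl⟩ := (root_pow_datum h p hpq hm ι x).1 hx
  obtain ⟨k, hk⟩ := hodd' z hz
  have hz0 : z ≠ 0 := (star_root h.prime.pos h.pure hz).1
  refine ⟨σ ^ k, ?_⟩
  rw [← eq_div_iff hz0] at hk
  have h5 : (σ ^ k) ((ι z) ^ m) =
      algebraMap ℚ_[p] (PadicAlgCl p) (((q : ℚ_[p]) ^ m) ^ (-w)) / (ι z) ^ m := by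
    rw [map_pow, ← e2_compat_pow hc, hk, map_div₀, e2_zpow, div_pow, ← map_pow]
    congr 2
    rw [← zpow_natCast, ← zpow_natCast, ← zpow_mul, ← zpow_mul, mul_comm]
  rw [hβ.equi _ _ hx, h5, hβ.star _ hx]

end Pool.Agent.Lib.H90A
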