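import Mathlib
import Pool.Agent.Lib.H90A.T3
import Pool.Agent.Lib.H90A.T4
import Pool.Agent.Lib.H90A.T7

/-!
# Chunk T8a (S/M): a linear form which computes traces on a subspace
-/

namespace Pool.Agent.Lib.H90A

open Polynomial Module Filter Topology NumberField Pool.Agent.GSem Pool.Agent.GSD Pool.Agent.Ord
  Pool.Agent.Lib.H81D

variable {Ω : Type} [Field Ω] [CharZero Ω] [IsAlgClosure ℚ Ω] {Γ : Subgroup Gal(Ω/ℚ)} {n : ℕ}
  {ρ : ∀ (p : ℕ) [Fact p.Prime], Representation ℚ_[p] Γ (Fin n → ℚ_[p])} {w : ℤ}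

/-- The homomorphism `g ↦ (r g, χ(g)^(-w) r g⁻¹)` to `End V × (End V)ᵐᵒᵖ`. -/
noncomputable def bi {p : ℕ} [Fact p.Prime] (r : Representation ℚ_[p] Γ (Fin n → ℚ_[p])) (w : ℤ) :
    Γ →* (Module.End ℚ_[p] (Fin n → ℚ_[p])) × (Module.End ℚ_[p] (Fin n → ℚ_[p]))ᵐᵒᵖ where
  toFun g := (r g, MulOpposite.op (toQ (cyc p Ω (g : Gal(Ω/ℚ))) ^ (-w) • r g⁻¹))
  map_one' := by
    simp
  map_mul' x y := by
    rw [Prod.mk_mul_mk, map_mul, ← MulOpposite.op_mul, mul_inv_rev, map_mul r, Subgroup.coe_mul,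
      map_mul, map_mul, mul_zpow, smul_mul_smul_comm, mul_comm (toQ _ ^ (-w))]

/-- A linear form which computes the difference of the traces on a subspace: choose a projection `π` onto `Y`
(`Submodule.exists_leftInverse...`: `Y.subtype` has a left inverse `π : V → Y`,
`LinearMap.exists_leftInverse_of_injective`), `lam (T, S) = trace (π ∘ T ∘ Y.subtype) - trace (π ∘ S.unop ∘ Y.subtype)`. -/
theorem exists_form {p : ℕ} [Fact p.Prime] (Y : Submodule ℚ_[p] (Fin n → ℚ_[p])) :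
    ∃ lam : (Module.End ℚ_[p] (Fin n → ℚ_[p])) × (Module.End ℚ_[p] (Fin n → ℚ_[p]))ᵐᵒᵖ →ₗ[ℚ_[p]]
      ℚ_[p], ∀ (T S : Module.End ℚ_[p] (Fin n → ℚ_[p])) (hT : ∀ x ∈ Y, T x ∈ Y)
        (hS : ∀ x ∈ Y, S x ∈ Y) (c : ℚ_[p]),
        lam (T, MulOpposite.op (c • S)) = trOn T Y hT - c * trOn S Y hS := by
  classical
  obtain ⟨π, hπ⟩ := LinearMap.exists_leftInverse_of_injective Y.subtype (Submodule.ker_subtype Y)
  let F : Module.End ℚ_[p] (Fin n → ℚ_[p]) →ₗ[ℚ_[p]] ℚ_[p] :=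
    { toFun := fun T => LinearMap.trace ℚ_[p] Y (π ∘ₗ T ∘ₗ Y.subtype)
      map_add' := fun T S => by
        rw [LinearMap.add_comp, LinearMap.comp_add, map_add]
      map_smul' := fun c T => by
        rw [LinearMap.smul_comp, LinearMap.comp_smul, map_smul, RingHom.id_apply] }
  have hF : ∀ (T : Module.End ℚ_[p] (Fin n → ℚ_[p])) (hT : ∀ x ∈ Y, T x ∈ Y),
      F T = trOn T Y hT := by
    intro T hT
    have h1 : π ∘ₗ T ∘ₗ Y.subtype = T.restrict hT := by
      ext1 x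
      exact LinearMap.congr_fun hπ ⟨T x, hT x x.2⟩
    show LinearMap.trace ℚ_[p] Y (π ∘ₗ T ∘ₗ Y.subtype) = _
    rw [h1]
    rfl
  refine ⟨{ toFun := fun x => F x.1 - F x.2.unop
            map_add' := fun x y => by
              rw [Prod.fst_add, Prod.snd_add, MulOpposite.unop_add, map_add, map_add]
              ring
            map_smul' := fun c x => by
              rw [Prod.smul_fst, Prod.smul_snd, MulOpposite.unop_smul, map_smul, map_smul,
                RingHom.id_apply, smul_sub] }, fun T S hT hS c => ?_⟩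
  show F T - F (c • S) = _
  rw [map_smul, hF T hT, hF S hS, smul_eq_mul]

end Pool.Agent.Lib.H90A
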