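import Mathlib
import Pool.Agent.Lib.H90A.T3
import Pool.Agent.Lib.H90A.T4
import Pool.Agent.Lib.H90A.T7
import Pool.Agent.Lib.H90A.T8a

/-!
# Chunk T8 (M): self-duality of all stable subspaces at an odd prime
-/

namespace Pool.Agent.Lib.H90A

open Polynomial Module Filter Topology NumberField Pool.Agent.GSem Pool.Agent.GSD Pool.Agent.Ord
  Pool.Agent.Lib.H81D

variable {Ω : Type} [Field Ω] [CharZero Ω] [IsAlgClosure ℚ Ω] {Γ : Subgroup Gal(Ω/ℚ)} {n : ℕ}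
  {ρ : ∀ (p : ℕ) [Fact p.Prime], Representation ℚ_[p] Γ (Fin n → ℚ_[p])} {w : ℤ}

/-- Proof. `b` from `conj_near`. Let `p`, `φ'` be as in the statement. `U0` from `exists_span (bi (ρ p) w)`; it is open, so
of finite index (`Γ` is compact: closed in `Gal(Ω/ℚ)` as an open subgroup, see `H81D.exists_transfer`;
`Subgroup.quotient_finite_of_isOpen`), so `φ ^ m ∈ U0` for some `m > 0` (`Subgroup.exists_pow_mem_of_index_ne_zero`).
`U` from `conj_near` for this `m`; `U1 = U ⊓ U0`. Let `Y` be stable under `U0`, `lam` from `exists_form`. For `u ∈ U1`,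
`g = φ ^ m * u ∈ U0`: `trOn_eq` for `T = ρ p g`, `S = ρ p g⁻¹`, `Q = toQ (cyc g) ^ (-w)` (`mat_charpoly` identifies the
charpolys) gives `lam (bi g) = 0`. By `exists_span` (with `a = φ ^ m`) `lam (bi u) = 0` for all `u ∈ U0`. -/
theorem selfDual_of_odd {M d : ℕ} (hmax : IsMax ρ w M d) (hΓ : IsOpen (Γ : Set Gal(Ω/ℚ)))
    (hcont : ∀ (p : ℕ) [Fact p.Prime], IsCont (ρ p)) (hsys : IsPureSys ρ w)
    (hpol : ∀ (p : ℕ) [Fact p.Prime], ∃ B, IsPolar (ρ p) w B)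
    {q : ℕ} {φ : Γ} {P : ℚ[X]} (h : IsDatum ρ w q φ P) (hn : NoTors Ω P)
    (hd : (P.rootSet Ω).ncard = d) :
    ∃ b : ℕ, ∀ (p : ℕ) [Fact p.Prime], b < p → ∀ φ' : Gal(Ω/ℚ), IsFrobAt p φ' →
      IsOdd w q P φ' → SelfDualSubs (ρ p) w := by
  obtain ⟨b, hb⟩ := conj_near hmax hΓ hcont hsys hpol h hn hd
  refine ⟨b, fun p hp hbp φ' hφ' hodd => ?_⟩
  have hGal : IsGalois ℚ Ω := isGaloisΩ
  have hcomp : CompactSpace Γ := by
    have h1 : IsClosed (Γ : Set Gal(Ω/ℚ)) := Subgroup.isClosed_of_isOpen Γ hΓ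
    exact isCompact_iff_compactSpace.1 h1.isCompact
  obtain ⟨U0, hU0, hspan⟩ := exists_span (K := ℚ_[p]) (bi (ρ p) w)
  refine ⟨U0, hU0, fun U2 hU20 hU2 Y hY u hu => ?_⟩
  have hfin : Finite (Γ ⧸ U2) := Subgroup.quotient_finite_of_isOpen U2 hU2
  have hidx : U2.index ≠ 0 := by
    rw [Subgroup.index]
    exact Nat.card_pos.ne'
  obtain ⟨m, hm, -, hmU⟩ := Subgroup.exists_pow_mem_of_index_ne_zero hidx φ
  obtain ⟨U, hU, hUc⟩ := hb p hbp φ' hφ' hodd m hm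
  obtain ⟨lam, hlam⟩ := exists_form (n := n) Y
  have key : ∀ u ∈ U ⊓ U2, lam (bi (ρ p) w (φ ^ m * u)) = 0 := by
    intro v hv
    have hg : φ ^ m * v ∈ U2 := U2.mul_mem hmU hv.2
    have hST : (ρ p (φ ^ m * v)⁻¹) ∘ₗ (ρ p (φ ^ m * v)) = LinearMap.id := by
      rw [← Module.End.mul_eq_comp, ← map_mul, inv_mul_cancel, map_one]
      rfl
    have hQ : toQ (cyc p Ω ((φ ^ m * v : Γ) : Gal(Ω/ℚ))) ^ (-w) ≠ 0 := by
      apply zpow_ne_zero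
      intro h0
      have h1 : toQ (cyc p Ω ((φ ^ m * v : Γ) : Gal(Ω/ℚ))) *
          toQ (cyc p Ω (((φ ^ m * v)⁻¹ : Γ) : Gal(Ω/ℚ))) = 1 := by
        rw [← map_mul, ← map_mul, ← Subgroup.coe_mul, mul_inv_cancel, Subgroup.coe_one, map_one, map_one]
      rw [h0, zero_mul] at h1
      exact zero_ne_one h1
    have h2 := trOn_eq (ρ p (φ ^ m * v)) (ρ p (φ ^ m * v)⁻¹) hST
      (toQ (cyc p Ω ((φ ^ m * v : Γ) : Gal(Ω/ℚ))) ^ (-w)) hQ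
      (fun y hy => hUc v hv.1 y (by rw [mat_charpoly]; exact hy)) Y (hY _ hg) (hY _ (U2.inv_mem hg))
    have h1 := hlam (ρ p (φ ^ m * v)) (ρ p (φ ^ m * v)⁻¹) (hY _ hg) (hY _ (U2.inv_mem hg))
      (toQ (cyc p Ω ((φ ^ m * v : Γ) : Gal(Ω/ℚ))) ^ (-w))
    rw [h2, sub_self] at h1
    exact h1
  have key2 : lam (bi (ρ p) w u) = 0 :=
    hspan (U ⊓ U2) (hU.inter hU2) (φ ^ m) (hU20 hmU) lam key u (hU20 hu)
  have h3 := hlam (ρ p u) (ρ p u⁻¹) (hY u hu) (hY u⁻¹ (U2.inv_mem hu)) (toQ (cyc p Ω (u : Gal(Ω/ℚ))) ^ (-w))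
  have h4 : lam (ρ p u, MulOpposite.op (toQ (cyc p Ω (u : Gal(Ω/ℚ))) ^ (-w) • ρ p u⁻¹)) = 0 := key2
  rw [h4] at h3
  exact sub_eq_zero.1 h3.symm

end Pool.Agent.Lib.H90A
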