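import Mathlib
import Pool.Agent.Lib.H90A.T8
import Pool.Agent.Lib.H90A.E6
import Pool.Agent.Lib.H81D.Main

/-!
# Self-duality for primes of density one: counting (complete)
-/

namespace Pool.Agent.Lib.H90A

open Polynomial Module Filter Topology NumberField Pool.Agent.GSem Pool.Agent.GSD Pool.Agent.Ord
  Pool.Agent.Lib.H81D

variable {Ω : Type} [Field Ω] [CharZero Ω] [IsAlgClosure ℚ Ω] {Γ : Subgroup Gal(Ω/ℚ)} {n : ℕ}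
  {ρ : ∀ (p : ℕ) [Fact p.Prime], Representation ℚ_[p] Γ (Fin n → ℚ_[p])} {w : ℤ}

/-- The main theorem, in terms of groups. -/
theorem density_groupsM {M d : ℕ} (hmax : IsMax ρ w M d) (hΓ : IsOpen (Γ : Set Gal(Ω/ℚ)))
    (hcont : ∀ (p : ℕ) [Fact p.Prime], IsCont (ρ p)) (hsys : IsPureSys ρ w)
    (hpol : ∀ (p : ℕ) [Fact p.Prime], ∃ B, IsPolar (ρ p) w B)
    (X : Set (ℕ × ℚ[X])) (hne : X.Nonempty)
    (hX : ∀ x ∈ X, IsFrobPoly ρ w x.1 x.2 ∧ NoTors Ω x.2 ∧ (x.2.rootSet Ω).ncard = d) :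
    HasNatLower {p | ∃ _ : Fact p.Prime, SelfDualSubs (ρ p) w}
      ((Nat.card {r : Gal(Ω/ℚ) ⧸ N00 Ω X | ∃ x ∈ X, ∃ τ : Gal(Ω/ℚ), IsOdd w x.1 x.2 τ ∧
        (τ : Gal(Ω/ℚ) ⧸ N00 Ω X) = r} : ℝ) / Nat.card (Gal(Ω/ℚ) ⧸ N00 Ω X)) := by
  classical
  have hGal : IsGalois ℚ Ω := isGaloisΩ
  have hP : ∀ x ∈ X, x.2 ≠ 0 := fun x hx => (hX x hx).1.ne_zero
  refine hasNatLower_of_forall fun ε hε => ?_
  set ι := {x : ℕ × ℚ[X] // IsFrobPoly ρ w x.1 x.2 ∧ NoTors Ω x.2 ∧ (x.2.rootSet Ω).ncard = d} with hι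
  let O : ι → Set Gal(Ω/ℚ) := fun x => {τ | IsOdd w x.1.1 x.1.2 τ}
  let K : ι → Subgroup Gal(Ω/ℚ) := fun x => kerP Ω x.1.2
  have hKn : ∀ x, (K x).Normal := fun x => kerP_normal _
  have hKo : ∀ x, IsOpen (K x : Set Gal(Ω/ℚ)) := fun x => isOpen_kerP x.2.1.ne_zero
  have hOu : ∀ x, IsUn (K x) (O x) := fun x a ha u hu => IsOdd.mul_ker ha hu
  have hKm : ∀ x, Nat.card (Gal(Ω/ℚ) ⧸ K x) ≤ n.factorial := by
    intro x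
    obtain ⟨φ, hφ⟩ := (isFrobPoly_iff ρ w _ _).1 x.2.1
    have h1 := card_quot_kerP (Ω := Ω) (P := x.1.2) x.2.1.ne_zero
    rwa [hφ.natDegree] at h1
  obtain ⟨S, hS⟩ := frac_classes O K hKn hKo hOu n.factorial_pos hKm (N00 Ω X) inferInstance
    (isOpen_N00 hne hP)
    {r : Gal(Ω/ℚ) ⧸ N00 Ω X | ∃ x ∈ X, ∃ τ : Gal(Ω/ℚ), IsOdd w x.1 x.2 τ ∧
        (τ : Gal(Ω/ℚ) ⧸ N00 Ω X) = r} (by
      rintro r ⟨x0, hx0, τ0, hτ0, rfl⟩ N' hN'n hN'o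
      obtain ⟨q, P, hqP, hsep, h⟩ := key2M hmax hΓ hcont hsys X hX hx0 hτ0 N' hN'o
      refine ⟨⟨(q, P), hqP, hsep⟩, fun s0 hs0 => ?_⟩
      obtain ⟨s, hs, hs'⟩ := h s0 (by
        rw [eq_comm, QuotientGroup.eq] at hs0
        exact hs0)
      exact ⟨s, hs', hs⟩) ε hε
  set M : Subgroup Gal(Ω/ℚ) := ⨅ x ∈ S, K x with hM
  have hMn : M.Normal := by
    rw [hM]
    exact Subgroup.normal_iInf_normal fun x => Subgroup.normal_iInf_normal fun _ => hKn x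
  have hMo : IsOpen (M : Set Gal(Ω/ℚ)) := by
    rw [hM]
    have h1 : ((⨅ x ∈ S, K x : Subgroup Gal(Ω/ℚ)) : Set Gal(Ω/ℚ)) =
        ⋂ x ∈ S, (K x : Set Gal(Ω/ℚ)) := by
      simp only [Subgroup.coe_iInf]
    rw [h1]
    exact isOpen_biInter_finset fun x _ => hKo x
  set A : Set Gal(Ω/ℚ) := ⋃ x ∈ S, O x with hA
  have hAu : IsUn M A := by
    intro a ha u hu
    rw [hA, Set.mem_iUnion₂] at ha ⊢
    obtain ⟨x, hx, hax⟩ := ha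
    refine ⟨x, hx, hOu x a hax u ?_⟩
    rw [hM] at hu
    exact (Subgroup.mem_iInf.1 ((Subgroup.mem_iInf.1 hu) x)) hx
  have hAc : ∀ a ∈ A, ∀ g : Gal(Ω/ℚ), g * a * g⁻¹ ∈ A := by
    intro a ha g
    rw [hA, Set.mem_iUnion₂] at ha ⊢
    obtain ⟨x, hx, hax⟩ := ha
    exact ⟨x, hx, IsOdd.conj hax g⟩
  have hcheb := cheb_union M hMo A hAu hAc
  -- semisimplicity
  have hss : ∀ x : ι, ∃ b : ℕ, ∀ (p : ℕ) [Fact p.Prime], b < p → ∀ φ' : Gal(Ω/ℚ),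
      IsFrobAt p φ' → IsOdd w x.1.1 x.1.2 φ' → SelfDualSubs (ρ p) w := by
    intro x
    obtain ⟨φ, hφ⟩ := (isFrobPoly_iff ρ w _ _).1 x.2.1
    exact selfDual_of_odd hmax hΓ hcont hsys hpol hφ x.2.2.1 x.2.2.2
  choose b hb using hss
  refine hcheb.mono hS (S.sup b) ?_
  rintro p hbp hp ⟨φ', hφ'A, hφ'⟩
  rw [hA, Set.mem_iUnion₂] at hφ'A
  obtain ⟨x, hx, hax⟩ := hφ'A
  haveI : Fact p.Prime := ⟨hp⟩
  exact ⟨⟨hp⟩, hb x p (lt_of_le_of_lt (Finset.le_sup hx) hbp) φ' hφ' hax⟩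

/-- **Self-duality of the constituents for primes of density one.** -/
theorem density_oneM {M d : ℕ} (hmax : IsMax ρ w M d) (hΓ : IsOpen (Γ : Set Gal(Ω/ℚ)))
    (hcont : ∀ (p : ℕ) [Fact p.Prime], IsCont (ρ p)) (hsys : IsPureSys ρ w)
    (hpol : ∀ (p : ℕ) [Fact p.Prime], ∃ B, IsPolar (ρ p) w B)
    (X : Set (ℕ × ℚ[X])) (hne : X.Nonempty)
    (hX : ∀ x ∈ X, IsFrobPoly ρ w x.1 x.2 ∧ NoTors Ω x.2 ∧ (x.2.rootSet Ω).ncard = d) :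
    HasNatLower {p | ∃ _ : Fact p.Prime, SelfDualSubs (ρ p) w}
      ((Nat.card (oddClasses Ω X w) : ℝ) / finrank ℚ (commonField Ω X)) ∧
    (commonField Ω X = ⊥ →
      Tendsto (fun x : ℕ => ({p | p ≤ x ∧ p.Prime ∧
        p ∈ {p | ∃ _ : Fact p.Prime, SelfDualSubs (ρ p) w}}.ncard : ℝ) /
          (Nat.primeCounting x : ℝ)) atTop (𝓝 1)) := by
  have hP : ∀ x ∈ X, x.2 ≠ 0 := fun x hx => (hX x hx).1.ne_zero
  have h1 := density_groupsM hmax hΓ hcont hsys hpol X hne hX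
  rw [card_oddClasses hne hP, card_N00 hne hP] at h1
  refine ⟨h1, fun hb => ?_⟩
  obtain ⟨h2, h3⟩ := card_of_bot (Ω := Ω) hne w
    (fun x hx => ⟨(hX x hx).1.1.pos, (hX x hx).1.2.1⟩) hb
  rw [h2, h3, Nat.cast_one, div_one] at h1
  exact h1.tendsto_one

end Pool.Agent.Lib.H90A
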