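import Mathlib
import Pool.Agent.Lib.H90A.Defs

/-!
# Chunk S1a (S): the orthogonal subspace
-/

namespace Pool.Agent.Lib.H90A

open Polynomial Module Filter Topology Pool.Agent.GSem Pool.Agent.GSD Pool.Agent.Lib.H81D

variable {K V : Type} [Field K] [AddCommGroup V] [Module K V] [FiniteDimensional K V]

/-- The orthogonal of `W` in the second variable. -/
def perp (B : V →ₗ[K] V →ₗ[K] K) (W : Submodule K V) : Submodule K V where
  carrier := {y | ∀ x ∈ W, B x y = 0}
  add_mem' := by
    intro a b ha hb x hx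
    rw [map_add, ha x hx, hb x hx, add_zero]
  zero_mem' := fun x _ => by rw [map_zero]
  smul_mem' := by
    intro c a ha x hx
    rw [map_smul, ha x hx, smul_zero]

/-- `perp B W` is stable: `B x (T y) = lam * B (S x) y` (`T (S x) = x`), `S x ∈ W`. -/
theorem perp_stable (B : V →ₗ[K] V →ₗ[K] K) (T S : V →ₗ[K] V) (hST : T ∘ₗ S = LinearMap.id)
    (lam : K) (hB : ∀ x y, B (T x) (T y) = lam * B x y) (W : Submodule K V)
    (hS : ∀ x ∈ W, S x ∈ W) : ∀ y ∈ perp B W, T y ∈ perp B W := by
  intro y hy x hx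
  have h1 : T (S x) = x := by
    have := LinearMap.congr_fun hST x
    simpa using this
  have h2 := hB (S x) y
  rw [h1, hy (S x) (hS x hx), mul_zero] at h2
  exact h2

/-- If the left kernel of `B` is 0 and `W ≠ 0`, then `perp B W ≠ ⊤` (an element `x ≠ 0` of `W` would be in the
left kernel). -/
theorem perp_ne_top (B : V →ₗ[K] V →ₗ[K] K) (hl : ∀ x, (∀ y, B x y = 0) → x = 0)
    (W : Submodule K V) (hW : W ≠ ⊥) : perp B W ≠ ⊤ := by
  intro h
  apply hW
  rw [Submodule.eq_bot_iff]
  intro x hx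
  apply hl
  intro y
  have hy : y ∈ perp B W := by rw [h]; trivial
  exact hy x hx

end Pool.Agent.Lib.H90A
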