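import Mathlib
import Pool.Agent.Lib.H90A.Defs
import Pool.Agent.Lib.H90A.S1a

/-!
# Chunk S1 (M): the trace on V / W^perp
-/

namespace Pool.Agent.Lib.H90A

open Polynomial Module Filter Topology Pool.Agent.GSem Pool.Agent.GSD Pool.Agent.Lib.H81D

variable {K V : Type} [Field K] [AddCommGroup V] [Module K V] [FiniteDimensional K V]

/-- The trace of an operator with a stable subspace. -/
theorem s1_trace {k W : Type*} [Field k] [AddCommGroup W] [Module k W] [FiniteDimensional k W]
    (A : Submodule k W) (e : W →ₗ[k] W) (he : A ≤ A.comap e) :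
    LinearMap.trace k W e =
      LinearMap.trace k A (e.restrict he) + LinearMap.trace k (W ⧸ A) (A.mapQ A e he) := by
  classical
  let m := Module.Free.ChooseBasisIndex k A
  let bW : Module.Basis m k A := Module.Free.chooseBasis k A
  let n := Module.Free.ChooseBasisIndex k (W ⧸ A)
  let bQ : Module.Basis n k (W ⧸ A) := Module.Free.chooseBasis k (W ⧸ A)
  let b := Module.Basis.sumQuot bW bQ
  rw [LinearMap.trace_eq_matrix_trace k b e, LinearMap.trace_eq_matrix_trace k bW (e.restrict he),
    LinearMap.trace_eq_matrix_trace k bQ (A.mapQ A e he)]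
  simp only [Matrix.trace, Matrix.diag]
  rw [Fintype.sum_sum_type]
  congr 1
  · refine Finset.sum_congr rfl fun i _ => ?_
    simp only [b, Module.Basis.sumQuot_inl, LinearMap.toMatrix_apply]
    apply Module.Basis.sumQuot_repr_inl_of_mem
  · refine Finset.sum_congr rfl fun j _ => ?_
    simp only [LinearMap.toMatrix_apply, Module.Basis.sumQuot_repr_inr, b]
    rw [← Module.Basis.sumQuot_inr bW bQ j, A.mapQ_apply]
    simp

/-- Proof. The map `V → Dual K W`, `y ↦ (x ↦ B x y)`, is onto: its kernel is `perp B W`; `B : V → Dual V` is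
injective, so bijective (finite dimension, `Subspace.dual_finrank_eq`), so its flip is bijective, and the restriction
`Dual V → Dual W` is onto (`Subspace.dualRestrict_surjective`). So `V / perp B W ≃ Dual K W` (`LinearMap.quotKerEquivOfSurjective`),
and `T` on the quotient (`Submodule.mapQ`) becomes `lam • (dual map of S on W)`: `B x (T y) = lam * B (S x) y`. The trace
of the dual map is the trace (`LinearMap.trace_dualMap` / `Module.Dual.transpose`, `LinearMap.trace_transpose`),
conjugate maps have the same trace (`LinearMap.trace_conj'`), and the trace is additive: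
`trace T = trOn T (perp B W) + trace (mapQ)` (Mathlib: `LinearMap.trace_eq_sum_trace_restrict` is not it; use
`LinearMap.trace_restrict_add_trace_mapQ`-like lemma or a basis adapted to a complement of `perp B W`:
`Submodule.exists_isCompl`; `trace T = trace (π₁ T ι₁) + trace (π₂ T ι₂)` as `ι₁ π₁ + ι₂ π₂ = 1`, `LinearMap.trace_comp_comm'`). -/
theorem trace_sub_perp (B : V →ₗ[K] V →ₗ[K] K) (hl : ∀ x, (∀ y, B x y = 0) → x = 0)
    (T S : V →ₗ[K] V) (hTS : S ∘ₗ T = LinearMap.id) (hST : T ∘ₗ S = LinearMap.id)
    (lam : K) (hB : ∀ x y, B (T x) (T y) = lam * B x y) (W : Submodule K V)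
    (hS : ∀ x ∈ W, S x ∈ W) (hT : ∀ y ∈ perp B W, T y ∈ perp B W) :
    LinearMap.trace K V T - trOn T (perp B W) hT = lam * trOn S W hS := by
  have hBi : Function.Injective B := by
    rw [← LinearMap.ker_eq_bot, LinearMap.ker_eq_bot']
    intro x hx
    exact hl x fun y => by rw [hx]; rfl
  have hfl : Function.Surjective B.flip := by
    have h1 : Function.Surjective B.dualMap := LinearMap.dualMap_surjective_of_injective hBi
    have h2 : Function.Surjective (Module.Dual.eval K V) := (Module.evalEquiv K V).surjective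
    intro f
    obtain ⟨g, hg⟩ := h1 f
    obtain ⟨y, hy⟩ := h2 g
    refine ⟨y, ?_⟩
    rw [← hg, ← hy]
    rfl
  let φ : V →ₗ[K] Module.Dual K W := W.dualRestrict ∘ₗ B.flip
  have hφa : ∀ (y : V) (x : W), φ y x = B x y := fun y x => rfl
  have hφ : Function.Surjective φ := (Subspace.dualRestrict_surjective).comp hfl
  have hk : perp B W = LinearMap.ker φ := by
    ext y
    rw [LinearMap.mem_ker]
    constructor
    · intro hy
      ext x
      exact hy x x.2
    · intro hy x hx
      have := hφa y ⟨x, hx⟩
      rw [hy] at this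
      exact this.symm
  let e : (V ⧸ perp B W) ≃ₗ[K] Module.Dual K W :=
    (Submodule.quotEquivOfEq _ _ hk).trans (φ.quotKerEquivOfSurjective hφ)
  have he : ∀ y : V, e ((perp B W).mkQ y) = φ y := fun y => rfl
  have hmap : e.conj ((perp B W).mapQ (perp B W) T hT) = lam • (Module.Dual.transpose (R := K) (S.restrict hS)) := by
    ext f x
    obtain ⟨q, rfl⟩ := e.surjective f
    obtain ⟨y, rfl⟩ := (perp B W).mkQ_surjective q
    rw [LinearEquiv.conj_apply_apply, LinearEquiv.symm_apply_apply, LinearMap.smul_apply, LinearMap.smul_apply]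
    have h1 : (perp B W).mapQ (perp B W) T hT ((perp B W).mkQ y) = (perp B W).mkQ (T y) := rfl
    rw [h1, he, he, hφa]
    have h2 : (Module.Dual.transpose (R := K) (S.restrict hS) (φ y)) x = B (S x) y := rfl
    rw [h2, smul_eq_mul, ← hB]
    have h3 : T (S (x : V)) = x := by
      rw [← LinearMap.comp_apply, hST, LinearMap.id_apply]
    rw [h3]
  rw [s1_trace (perp B W) T hT]
  have h4 : LinearMap.trace K (V ⧸ perp B W) ((perp B W).mapQ (perp B W) T hT) = lam * trOn S W hS := by
    rw [← LinearMap.trace_conj' _ e, hmap, map_smul, LinearMap.trace_transpose', smul_eq_mul]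
    rfl
  rw [h4]
  show trOn T (perp B W) hT + lam * trOn S W hS - trOn T (perp B W) hT = lam * trOn S W hS
  ring

end Pool.Agent.Lib.H90A
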