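import Mathlib
import Pool.Agent.Lib.H90A.S1
import Pool.Agent.Lib.Helper4.GSD.Main

/-!
# Chunk S2 (M): self-dual subquotients and multiplicity one give semisimplicity
-/

namespace Pool.Agent.Lib.H90A

open Polynomial Module Filter Topology Pool.Agent.GSem Pool.Agent.GSD Pool.Agent.Lib.H81D

variable {p : ℕ} [Fact p.Prime] {Ω : Type} [Field Ω] [CharZero Ω] {Γ : Subgroup Gal(Ω/ℚ)}
variable {V : Type} [AddCommGroup V] [Module ℚ_[p] V] [FiniteDimensional ℚ_[p] V]

theorem s2_trOn_top {K V : Type} [Field K] [AddCommGroup V] [Module K V] [FiniteDimensional K V]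
    (T : V →ₗ[K] V) (h : ∀ x ∈ (⊤ : Submodule K V), T x ∈ (⊤ : Submodule K V)) :
    trOn T ⊤ h = LinearMap.trace K V T := by
  unfold trOn
  rw [← LinearMap.trace_conj' (T.restrict h) Submodule.topEquiv]
  rfl

theorem s2_trOn_bot {K V : Type} [Field K] [AddCommGroup V] [Module K V] [FiniteDimensional K V]
    (T : V →ₗ[K] V) (h : ∀ x ∈ (⊥ : Submodule K V), T x ∈ (⊥ : Submodule K V)) :
    trOn T ⊥ h = 0 := by
  unfold trOn
  have : T.restrict h = 0 := by
    apply LinearMap.ext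
    intro x
    exact Subsingleton.elim _ _
  rw [this, map_zero]

/-- Proof. `semisimple_of_isotropic` (`GSD/Main`): let `W` be a stable isotropic subspace and suppose `W ≠ ⊥`. Let `U` be
the open subgroup of `hsd`. `A = ⊥ < B = W ≤ C = perp B W < D = ⊤` are stable under `U` (`perp_stable`,
`perp_ne_top`). For `u ∈ U`: `trOn ⊥ = 0`, `trOn ⊤ = trace` (`Submodule.topEquiv`, `LinearMap.trace_conj'`), and by
`trace_sub_perp` (`T = r u`, `S = r u⁻¹`, `lam = toQ (cyc u) ^ (-w)`) `trace (r u) - trOn (perp) = lam * trOn (r u⁻¹) W`, which is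
`trOn (r u) W` by `hsd`. This contradicts `hmf`. -/
theorem semisimple_of_multFree (r : Representation ℚ_[p] Γ V) (w : ℤ)
    (B : V →ₗ[ℚ_[p]] V →ₗ[ℚ_[p]] ℚ_[p]) (hB : IsPolar r w B) (hsd : SelfDualSubs r w)
    (hmf : PotMultFree r) : IsSemisimple r := by
  apply semisimple_of_isotropic r w B hB
  intro W hW hiso
  by_contra hne
  obtain ⟨U, hU, hsd⟩ := hsd
  have h1 : ∀ g : Γ, r g ∘ₗ r g⁻¹ = LinearMap.id := by
    intro g
    have : r g * r g⁻¹ = 1 := by rw [← map_mul, mul_inv_cancel, map_one]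
    exact this
  have h2 : ∀ g : Γ, r g⁻¹ ∘ₗ r g = LinearMap.id := by
    intro g
    have : r g⁻¹ * r g = 1 := by rw [← map_mul, inv_mul_cancel, map_one]
    exact this
  have hps : ∀ g : Γ, ∀ y ∈ perp B W, r g y ∈ perp B W := fun g =>
    perp_stable B (r g) (r g⁻¹) (h1 g) _ (hB.2 g) W (hW g⁻¹)
  obtain ⟨u, hu, hneq⟩ := hmf U hU ⊥ W (perp B W) ⊤
    (fun u _ x hx => by rw [Submodule.mem_bot] at hx; rw [hx, map_zero]; exact Submodule.zero_mem _)
    (fun u _ => hW u) (fun u _ => hps u) (fun u _ x _ => Submodule.mem_top)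
    (bot_lt_iff_ne_bot.2 hne) (fun y hy x hx => hiso x hx y hy)
    (lt_top_iff_ne_top.2 (perp_ne_top B hB.1 W hne))
  apply hneq
  rw [s2_trOn_bot, s2_trOn_top, sub_zero]
  rw [trace_sub_perp B hB.1 (r u) (r u⁻¹) (h2 u) (h1 u) _ (hB.2 u) W (hW u⁻¹) (hps u)]
  exact hsd U le_rfl hU W (fun u _ => hW u) u hu

end Pool.Agent.Lib.H90A
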