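import Mathlib
import Pool.Agent.Lib.H90A.Main
import Pool.Agent.Lib.H90A.G2
import Pool.Agent.Lib.H90A.G4
import Pool.Agent.Lib.H90A.S2
import Pool.Agent.Lib.H81D.S4

/-!
# Self-duality of the constituents for primes of density one: final form (complete)
-/

namespace Pool.Agent.Lib.H90A

open Polynomial Module Filter Topology NumberField Pool.Agent.GSem Pool.Agent.GSD Pool.Agent.Ord
  Pool.Agent.Lib.H81D

variable {Ω : Type} [Field Ω] [CharZero Ω] [IsAlgClosure ℚ Ω] {Γ : Subgroup Gal(Ω/ℚ)} {n : ℕ}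
  {ρ : ∀ (p : ℕ) [Fact p.Prime], Representation ℚ_[p] Γ (Fin n → ℚ_[p])} {w : ℤ}

theorem final (hΓ : IsOpen (Γ : Set Gal(Ω/ℚ)))
    (hcont : ∀ (p : ℕ) [Fact p.Prime], IsCont (ρ p))
    (hpol : ∀ (p : ℕ) [Fact p.Prime], ∃ B, IsPolar (ρ p) w B)
    (hsys : IsPureSys ρ w) :
    0 < (Nat.card (oddClasses Ω (neatMax ρ w) w) : ℝ) / finrank ℚ (commonField Ω (neatMax ρ w)) ∧
    HasNatLower {p | ∃ _ : Fact p.Prime, SelfDualSubs (ρ p) w ∧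
        (PotMultFree (ρ p) → IsSemisimple (ρ p))}
      ((Nat.card (oddClasses Ω (neatMax ρ w) w) : ℝ) /
        finrank ℚ (commonField Ω (neatMax ρ w))) ∧
    ((commonField Ω (neatMax ρ w) = ⊥ ∨
        ∃ S : Set ℕ, (∀ l ∈ S, ∀ [Fact l.Prime], ∃ g : Γ, IsMaxElt (ρ l) g ∧
            (LinearMap.charpoly (ρ l g)).Splits) ∧
          ∃ δ : ℝ, 1 / 2 < δ ∧ ∃ᶠ x : ℕ in atTop,
            δ * (Nat.primeCounting x : ℝ) ≤ ({l | l ≤ x ∧ l.Prime ∧ l ∈ S}.ncard : ℝ)) →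
      Tendsto (fun x : ℕ =>
        ({p | p ≤ x ∧ p.Prime ∧ ∃ _ : Fact p.Prime, SelfDualSubs (ρ p) w ∧
          (PotMultFree (ρ p) → IsSemisimple (ρ p))}.ncard : ℝ) /
          (Nat.primeCounting x : ℝ)) atTop (𝓝 1)) ∧
    ((∃ (p : ℕ) (_ : Fact p.Prime), (∃ g : Γ, IsStrReg (ρ p) g) ∨
        ∃ h : Fin n → ℤ, Function.Injective h ∧ IsHT (ρ p) h) →
      ∀ (p : ℕ) [Fact p.Prime], PotMultFree (ρ p)) := by
  obtain ⟨M, d, hmax, hex⟩ := exists_isMax hΓ hsys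
  obtain ⟨q, φ, P, hdat, hP⟩ := hex
  obtain ⟨q', φ', P', -, hd', hn', hc'⟩ := exists_neatM hmax hΓ hsys hcont hdat hP 0
  have hiff := mem_neatMax_iff hmax ⟨q, φ, P, hdat, hP⟩
  have hne : (neatMax ρ w).Nonempty :=
    ⟨(q', P'), (hiff _).2 ⟨(isFrobPoly_iff ρ w q' P').2 ⟨φ', hd'⟩, hn', hc'⟩⟩
  have h1 := density_oneM hmax hΓ hcont hsys hpol (neatMax ρ w) hne fun x hx => (hiff x).1 hx
  have hset : {p | ∃ _ : Fact p.Prime, SelfDualSubs (ρ p) w} =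
      {p | ∃ _ : Fact p.Prime, SelfDualSubs (ρ p) w ∧
        (PotMultFree (ρ p) → IsSemisimple (ρ p))} := by
    ext p
    constructor
    · rintro ⟨hp, hsd⟩
      refine ⟨hp, hsd, fun hmf => ?_⟩
      obtain ⟨B, hB⟩ := hpol p
      exact semisimple_of_multFree (ρ p) w B hB hsd hmf
    · rintro ⟨hp, hsd, -⟩
      exact ⟨hp, hsd⟩
  rw [hset] at h1
  refine ⟨odd_pos hne fun x hx => ?_, h1.1, ?_, fun hreg p hp => ?_⟩
  · have hx1 : IsFrobPoly ρ w x.1 x.2 := hx.1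
    exact ⟨hx1.1.pos, hx1.2.1, hx1.ne_zero⟩
  · rintro (hb | ⟨S, hS, hd⟩)
    · exact h1.2 hb
    · exact h1.2 (commonField_eq_botM hmax hΓ hcont hsys ⟨q, φ, P, hdat, hP⟩ S hS hd)
  · exact multFree_of_reg hΓ hcont hsys hreg p

end Pool.Agent.Lib.H90A
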