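import Mathlib

/-!
# Chunk K1 (M, only Mathlib): an endomorphism all of whose powers have trace 0 is nilpotent
-/

namespace Pool.Agent.Lib.H90A

open Polynomial Module

/-- Proof. `N = finrank K V`. `V` is the direct sum of `ker (x ^ N)` and `R = range (x ^ N)` (`LinearMap.isCompl_ker_pow_range_pow`-like: Fitting,
`LinearMap.eventually_isCompl_ker_pow_range_pow` or `Module.End.isCompl_genEigenspace...`; take any such `N > 0`), `x` is injective on `R`, so
bijective. Suppose `R ≠ ⊥`. `c` = characteristic polynomial of `x` on `R`, `c.coeff 0 ≠ 0` (invertible), `h = 1 - C (c.coeff 0)⁻¹ * c`, so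
`h.coeff 0 = 0` and `aeval x h` is the identity on `R` (Cayley-Hamilton). `f = h ^ N` has `coeff j = 0` for `j = 0`; `aeval x f` is the identity
on `R` and 0 on `ker (x ^ N)` (`X ^ N ∣ h ^ N`), so its trace is `finrank R ≠ 0` in `K` (`CharZero`; it is a projection:
`LinearMap.IsProj.trace` or `LinearMap.trace_eq_...`), but `trace (aeval x f) = ∑ coeff j * trace (x ^ j) = 0`. So `R = ⊥`, `x ^ N = 0`.
Another way: Newton identities / `charpoly` over the algebraic closure: all power sums of the eigenvalues vanish. Any way is fine. -/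
theorem isNilpotent_of_trace {K V : Type} [Field K] [CharZero K] [AddCommGroup V] [Module K V]
    [FiniteDimensional K V] (x : Module.End K V)
    (h : ∀ k : ℕ, 0 < k → LinearMap.trace K V (x ^ k) = 0) : IsNilpotent x := by
  classical
  have hint : IsIntegral K x := Algebra.IsIntegral.isIntegral x
  have hmu : minpoly K x ≠ 0 := minpoly.ne_zero hint
  obtain ⟨c, hc, hnd⟩ := exists_eq_pow_rootMultiplicity_mul_and_not_dvd (minpoly K x) hmu 0
  obtain ⟨a, ha⟩ : ∃ a, a = (minpoly K x).rootMultiplicity 0 := ⟨_, rfl⟩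
  rw [← ha, C_0, sub_zero] at hc
  rw [C_0, sub_zero] at hnd
  have hcop : IsCoprime (X ^ (a + 1)) c :=
    ((irreducible_X (R := K)).coprime_iff_not_dvd.2 hnd).pow_left
  obtain ⟨u, v, huv⟩ := hcop
  obtain ⟨e, he⟩ : ∃ e : Module.End K V, e = aeval x (u * X ^ (a + 1)) := ⟨_, rfl⟩
  have h1 : aeval x (v * c) = 1 - e := by
    have h2 : v * c = 1 - u * X ^ (a + 1) := by rw [← huv]; ring
    rw [h2, map_sub, map_one, ← he]
  have hmin : aeval x (X ^ a * c) = 0 := by rw [← hc]; exact minpoly.aeval K x
  have h3 : e * (1 - e) = 0 := by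
    rw [← h1, he, ← map_mul]
    have h4 : u * X ^ (a + 1) * (v * c) = (u * X * v) * (X ^ a * c) := by ring
    rw [h4, map_mul, hmin, mul_zero]
  have hidem : IsIdempotentElem e := by
    have h5 : e - e * e = 0 := by rw [← h3]; rw [mul_sub, mul_one]
    exact (sub_eq_zero.1 h5).symm
  have htr : LinearMap.trace K V e = 0 := by
    rw [he, aeval_eq_sum_range, map_sum]
    refine Finset.sum_eq_zero fun k _ => ?_
    rw [map_smul]
    rcases Nat.eq_zero_or_pos k with hk | hk
    · rw [hk, coeff_zero_eq_eval_zero, eval_mul, eval_pow, eval_X, zero_pow (Nat.succ_ne_zero a),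
        mul_zero, zero_smul]
    · rw [h k hk, smul_zero]
  have he0 : e = 0 := LinearMap.IsIdempotentElem.eq_zero_of_trace_eq_zero hidem htr
  refine ⟨a, ?_⟩
  have h6 : aeval x (v * c) = 1 := by rw [h1, he0, sub_zero]
  calc x ^ a = aeval x (X ^ a : K[X]) * aeval x (v * c) := by rw [h6, mul_one, map_pow, aeval_X]
    _ = aeval x (v * (X ^ a * c)) := by rw [← map_mul]; congr 1; ring
    _ = 0 := by rw [map_mul, hmin, mul_zero]

end Pool.Agent.Lib.H90A
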