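import Mathlib
import Pool.Agent.Lib.H90A.K1

/-!
# Chunk K2 (M, only Mathlib and K1): a monoid of endomorphisms of trace `dim V` has a fixed vector
-/

namespace Pool.Agent.Lib.H90A

open Polynomial Module

attribute [local instance 100] LieRing.ofAssociativeRing

/-- Proof. `I = span K {T - 1 | T ∈ S}`. It is closed under multiplication: `(T - 1) (T' - 1) = (T T' - 1) - (T - 1) - (T' - 1)`
(`Submodule.span_induction` twice), and all its elements have trace 0 (`trace 1 = finrank`). So for `x ∈ I` all powers `x ^ k`, `k > 0`, are in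
`I` and have trace 0: `x` is nilpotent (`isNilpotent_of_trace`). `I` is a Lie subalgebra of `Module.End K V` (commutators `x * y - y * x`) and
Engel's theorem (`LieModule.isNilpotent_iff_forall'` with `M = V`, `toEnd` of `x ∈ I` is `x`) gives that `V` is a nilpotent `I`-module, so
`maxTrivSubmodule` is not 0 (`LieModule.nontrivial_max_triv_of_isNilpotent`): there is `v ≠ 0` with `x v = 0` for `x ∈ I`, i.e. `T v = v` for
`T ∈ S`. (Engel by hand is also fine.) -/
theorem exists_fixed {K V : Type} [Field K] [CharZero K] [AddCommGroup V] [Module K V]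
    [FiniteDimensional K V] [Nontrivial V] (S : Submonoid (Module.End K V))
    (h : ∀ T ∈ S, LinearMap.trace K V T = finrank K V) :
    ∃ v : V, v ≠ 0 ∧ ∀ T ∈ S, T v = v := by
  classical
  obtain ⟨I, hI⟩ : ∃ I : Submodule K (Module.End K V),
      I = Submodule.span K {x | ∃ T ∈ S, x = T - 1} := ⟨_, rfl⟩
  have hmulI : ∀ x ∈ I, ∀ y ∈ I, x * y ∈ I := by
    intro x hx y hy
    rw [hI] at hx hy ⊢
    refine Submodule.span_induction (p := fun x _ => x * y ∈ _) ?_ ?_ ?_ ?_ hx
    · rintro x ⟨T, hT, rfl⟩
      refine Submodule.span_induction (p := fun y _ => (T - 1) * y ∈ _) ?_ ?_ ?_ ?_ hy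
      · rintro y ⟨T', hT', rfl⟩
        have h1 : (T - 1) * (T' - 1) = (T * T' - 1) - (T - 1) - (T' - 1) := by
          rw [sub_mul, mul_sub, mul_one, one_mul]; abel
        rw [h1]
        refine Submodule.sub_mem _ (Submodule.sub_mem _ ?_ ?_) ?_
        · exact Submodule.subset_span ⟨T * T', S.mul_mem hT hT', rfl⟩
        · exact Submodule.subset_span ⟨T, hT, rfl⟩
        · exact Submodule.subset_span ⟨T', hT', rfl⟩
      · rw [mul_zero]; exact Submodule.zero_mem _
      · intro a b _ _ ha hb
        rw [mul_add]; exact Submodule.add_mem _ ha hb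
      · intro a b _ hb
        rw [mul_smul_comm]; exact Submodule.smul_mem _ _ hb
    · rw [zero_mul]; exact Submodule.zero_mem _
    · intro a b _ _ ha hb
      rw [add_mul]; exact Submodule.add_mem _ ha hb
    · intro a b _ hb
      rw [smul_mul_assoc]; exact Submodule.smul_mem _ _ hb
  have htr : ∀ x ∈ I, LinearMap.trace K V x = 0 := by
    intro x hx
    rw [hI] at hx
    refine Submodule.span_induction (p := fun x _ => LinearMap.trace K V x = 0) ?_ ?_ ?_ ?_ hx
    · rintro x ⟨T, hT, rfl⟩
      rw [map_sub, h T hT, LinearMap.trace_one, sub_self]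
    · rw [map_zero]
    · intro a b _ _ ha hb
      rw [map_add, ha, hb, add_zero]
    · intro a b _ hb
      rw [map_smul, hb, smul_zero]
  have hpow : ∀ x ∈ I, ∀ k : ℕ, 0 < k → x ^ k ∈ I := by
    intro x hx k hk
    induction k with
    | zero => exact absurd hk (lt_irrefl _)
    | succ k ih =>
      rcases Nat.eq_zero_or_pos k with h0 | h0
      · rw [h0, zero_add, pow_one]; exact hx
      · rw [pow_succ]; exact hmulI _ (ih h0) _ hx
  have hnil : ∀ x ∈ I, IsNilpotent x := fun x hx =>
    isNilpotent_of_trace x fun k hk => htr _ (hpow x hx k hk)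
  let L : LieSubalgebra K (Module.End K V) :=
    { I with
      lie_mem' := by
        intro x y hx hy
        exact Submodule.sub_mem _ (hmulI x hx y hy) (hmulI y hy x hx) }
  have hnilM : LieModule.IsNilpotent L V := by
    rw [LieModule.isNilpotent_iff_forall' (R := K)]
    intro x
    obtain ⟨k, hk⟩ := hnil (x : Module.End K V) x.2
    refine ⟨k, ?_⟩
    have h2 : LieModule.toEnd K L V x = (x : Module.End K V) := by
      ext v
      rfl
    rw [h2]
    exact hk
  have hnt := LieModule.nontrivial_max_triv_of_isNilpotent K L V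
  obtain ⟨v, hv⟩ := exists_ne (0 : LieModule.maxTrivSubmodule K L V)
  refine ⟨v, fun h0 => hv (Subtype.ext h0), fun T hT => ?_⟩
  have hTI : T - 1 ∈ I := by
    rw [hI]
    exact Submodule.subset_span ⟨T, hT, rfl⟩
  have h3 := (LieModule.mem_maxTrivSubmodule K L V (v : V)).1 v.2 ⟨T - 1, hTI⟩
  have h4 : (T - 1) (v : V) = 0 := h3
  rw [LinearMap.sub_apply, Module.End.one_apply, sub_eq_zero] at h4
  exact h4

end Pool.Agent.Lib.H90A
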