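import Mathlib
import Pool.Agent.Lib.H90A.S1a
import Pool.Agent.Lib.H4S.FE

/-!
# Chunk R1 (M): an irreducible subspace orthogonal to all irreducible subspaces
-/

namespace Pool.Agent.Lib.H90A

open Polynomial Module H4S

/-- Proof. `T` = sum of the irreducible subspaces (`sSup {E | feIrr ρ U E}`). If `T = ⊤`, `H4S.fe_compl` gives the assertion of `hss`, so
`T ≠ ⊤`. `S = {x | ∀ y ∈ T, B x y = 0}` is a subspace, stable under `U` (`B (g x) y = lam g * B x (g⁻¹ y)`, `T` is stable: every
irreducible subspace is), and `S ≠ ⊥`: `B` is injective, so bijective `V → Dual V` (`hl`, finite dimension), and there is a linear form `≠ 0` which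
vanishes on the proper subspace `T` (`Submodule.exists_le_ker_of_lt_top` or `exists_dual_map_eq_bot_of_lt_top`). By `H4S.fe_exists_irr` there is
an irreducible `W ≤ S`. `y ∈ E`, `E` irreducible, is in `T` (`le_sSup`). -/
theorem exists_irr_perp {K G V : Type} [Field K] [Group G] [AddCommGroup V] [Module K V]
    [FiniteDimensional K V] (ρ : Representation K G V) (U : Subgroup G)
    (B : V →ₗ[K] V →ₗ[K] K) (hl : ∀ x, (∀ y, B x y = 0) → x = 0) (lam : G → K)
    (hB : ∀ g ∈ U, ∀ x y, B (ρ g x) (ρ g y) = lam g * B x y)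
    (hss : ¬ ∀ W : Submodule K V, feStab ρ (U : Set G) W →
      ∃ W', feStab ρ (U : Set G) W' ∧ IsCompl W W') :
    ∃ W : Submodule K V, feIrr ρ (U : Set G) W ∧
      ∀ E : Submodule K V, feIrr ρ (U : Set G) E → ∀ x ∈ W, ∀ y ∈ E, B x y = 0 := by
  classical
  obtain ⟨T, hT⟩ : ∃ T : Submodule K V, T = sSup {E : Submodule K V | feIrr ρ (U : Set G) E} :=
    ⟨_, rfl⟩
  have hTne : T ≠ ⊤ := by
    intro h
    exact hss fun W hW => fe_compl (by rw [← hT, h]) W hW
  have hTst : ∀ g ∈ U, ∀ x ∈ T, ρ g x ∈ T := by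
    intro g hg x hx
    have h1 : T.map (ρ g) ≤ T := by
      rw [Submodule.map_le_iff_le_comap, hT]
      refine sSup_le fun E hE => ?_
      have h2 : E ≤ sSup {E : Submodule K V | feIrr ρ (U : Set G) E} := le_sSup hE
      exact fun y hy => h2 (hE.1 g hg y hy)
    exact h1 ⟨x, hx, rfl⟩
  have hlam : ∀ g ∈ U, ∀ x y, B (ρ g x) y = lam g * B x (ρ g⁻¹ y) := by
    intro g hg x y
    rw [← hB g hg, fe_apply_inv]
  -- the left orthogonal of `T`
  obtain ⟨S, hS⟩ : ∃ S : Submodule K V, ∀ x, x ∈ S ↔ ∀ y ∈ T, B x y = 0 := by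
    refine ⟨{ carrier := {x | ∀ y ∈ T, B x y = 0}, add_mem' := ?_, zero_mem' := ?_,
              smul_mem' := ?_ }, fun x => Iff.rfl⟩
    · intro a b ha hb y hy
      rw [map_add, LinearMap.add_apply, ha y hy, hb y hy, add_zero]
    · intro y _
      rw [map_zero, LinearMap.zero_apply]
    · intro c a ha y hy
      rw [map_smul, LinearMap.smul_apply, ha y hy, smul_zero]
  have hSst : feStab ρ (U : Set G) S := by
    intro g hg x hx
    rw [hS] at hx ⊢
    intro y hy
    rw [hlam g hg, hx _ (hTst g⁻¹ (U.inv_mem hg) y hy), mul_zero]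
  have hinj : Function.Injective B := by
    rw [← LinearMap.ker_eq_bot, Submodule.eq_bot_iff]
    intro x hx
    exact hl x fun y => by rw [LinearMap.mem_ker.1 hx, LinearMap.zero_apply]
  have hsurj : Function.Surjective B :=
    (LinearMap.injective_iff_surjective_of_finrank_eq_finrank
      (Subspace.dual_finrank_eq (K := K) (V := V)).symm).1 hinj
  have hS0 : S ≠ ⊥ := by
    intro h0
    obtain ⟨f, hf, hfT⟩ := Submodule.exists_le_ker_of_lt_top T (lt_top_iff_ne_top.2 hTne)
    obtain ⟨x, hx⟩ := hsurj f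
    have hxS : x ∈ S := by
      rw [hS]
      intro y hy
      rw [hx]
      exact hfT hy
    rw [h0, Submodule.mem_bot] at hxS
    rw [hxS, map_zero] at hx
    exact hf hx.symm
  obtain ⟨W, hW, hWS⟩ := fe_exists_irr _ S rfl hSst hS0
  refine ⟨W, hW, fun E hE x hx y hy => ?_⟩
  have h2 : E ≤ T := by
    rw [hT]
    exact le_sSup hE
  exact (hS x).1 (hWS hx) y (h2 hy)

end Pool.Agent.Lib.H90A
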