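import Mathlib
import Pool.Agent.Lib.H4S.FE

/-!
# Chunk R1b (S): semisimplicity over a subgroup of finite index
-/

namespace Pool.Agent.Lib.H90A

open Polynomial Module H4S

/-- Semisimplicity over a subgroup of finite index implies semisimplicity. Proof: a stable `W` has a complement
stable under `U`; `H4S.projector_of_compl`, `H4S.average` (`H = ⊤`), `H4S.compl_of_projector`: copy the proof of
`H4S.ss_of_mult` (`Lib/H4S/FF.lean`). -/
theorem ss_of_finiteIndex {K G V : Type} [Field K] [CharZero K] [Group G] [AddCommGroup V]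
    [Module K V] [FiniteDimensional K V] (ρ : Representation K G V) (U : Subgroup G)
    (hU : U.FiniteIndex) (h : SSOn ρ (U : Set G)) : SSOn ρ Set.univ := by
  intro W hW
  obtain ⟨W2, hW2, hc2⟩ := h W (fun g _ x hx => hW g trivial x hx)
  obtain ⟨d, hd1, hd2, hd3⟩ := projector_of_compl W W2 hc2
  have hdA : ∀ g ∈ U, Commute (ρ g) d := fun g hg =>
    hd3 _ (fun w hw => hW g trivial w hw) (fun w hw => hW2 g hg w hw)
  obtain ⟨e, q1, q2, q3⟩ := average ρ ⊤ U le_top inferInstance W
    (fun g _ w hw => hW g trivial w hw) d hd1 hd2 hdA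
  refine ⟨LinearMap.ker e, ?_, compl_of_projector W e q1 q2⟩
  intro g _ x hx
  rw [LinearMap.mem_ker] at hx ⊢
  have h := LinearMap.congr_fun (q3 g (Subgroup.mem_top g)).eq x
  rw [Module.End.mul_apply, Module.End.mul_apply, hx, map_zero] at h
  exact h.symm

end Pool.Agent.Lib.H90A
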