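import Mathlib
import Pool.Agent.Lib.H90A.Defs

/-!
# Tate classes: definitions
-/

namespace Pool.Agent.Lib.H90A

open Polynomial Module Filter Topology Pool.Agent.GSem Pool.Agent.GSD Pool.Agent.Lib.H81D

variable {p : ℕ} [Fact p.Prime] {Ω : Type} [Field Ω] [CharZero Ω] {Γ : Subgroup Gal(Ω/ℚ)}
variable {V : Type} [AddCommGroup V] [Module ℚ_[p] V]

/-- The space of the (potential) Tate classes of `r(m)`: the vectors on which an open subgroup acts
through the power `-m` of the cyclotomic character. -/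
def tateClasses (r : Representation ℚ_[p] Γ V) (m : ℤ) : Submodule ℚ_[p] V where
  carrier := {v | ∃ U : Subgroup Γ, IsOpen (U : Set Γ) ∧
    ∀ u ∈ U, r u v = toQ (cyc p Ω (u : Gal(Ω/ℚ))) ^ (-m) • v}
  add_mem' := by
    rintro a b ⟨U, hU, ha⟩ ⟨U', hU', hb⟩
    refine ⟨U ⊓ U', hU.inter hU', fun u hu => ?_⟩
    rw [map_add, ha u hu.1, hb u hu.2, smul_add]
  zero_mem' := ⟨⊤, isOpen_univ, fun u _ => by rw [map_zero, smul_zero]⟩
  smul_mem' := by
    rintro c a ⟨U, hU, ha⟩
    refine ⟨U, hU, fun u hu => ?_⟩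
    rw [map_smul, ha u hu, smul_comm]

/-- The pairing `B` is nondegenerate on the (potential) Tate classes of `r(m)`. -/
def TateNondeg (r : Representation ℚ_[p] Γ V) (m : ℤ)
    (B : V →ₗ[ℚ_[p]] V →ₗ[ℚ_[p]] ℚ_[p]) : Prop :=
  ∀ v ∈ tateClasses r m, (∀ v' ∈ tateClasses r m, B v v' = 0) → v = 0

/-- Apart from potential Tate constituents `ℚ_p(-m)` the semisimplification of `r` is potentially
multiplicity free: if `A < B ≤ C < D` are stable under an open subgroup `U` and all `u ∈ U` have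
the same trace on `B / A` and `D / C`, then the traces on `B / A` of all elements `u` of some open
subgroup are `dim (B / A)` times the power `-m` of the cyclotomic character. -/
def PotMultFreeTate (r : Representation ℚ_[p] Γ V) (m : ℤ) : Prop :=
  ∀ U : Subgroup Γ, IsOpen (U : Set Γ) → ∀ (A B C D : Submodule ℚ_[p] V) (hA : StableBy r U A)
    (hB : StableBy r U B) (hC : StableBy r U C) (hD : StableBy r U D), A < B → B ≤ C → C < D →
      (∀ (u : Γ) (hu : u ∈ U), trOn (r u) B (hB u hu) - trOn (r u) A (hA u hu) =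
        trOn (r u) D (hD u hu) - trOn (r u) C (hC u hu)) →
      ∃ U' : Subgroup Γ, IsOpen (U' : Set Γ) ∧ ∀ (u : Γ) (hu : u ∈ U), u ∈ U' →
        trOn (r u) B (hB u hu) - trOn (r u) A (hA u hu) =
          toQ (cyc p Ω (u : Gal(Ω/ℚ))) ^ (-m) * ((finrank ℚ_[p] B : ℚ_[p]) - finrank ℚ_[p] A)

end Pool.Agent.Lib.H90A
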