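import Mathlib
import Pool.Agent.Lib.H90A.Tate

/-!
# Chunk R2a (S/M): one open subgroup for all Tate classes
-/

namespace Pool.Agent.Lib.H90A

open Polynomial Module Filter Topology Pool.Agent.GSem Pool.Agent.GSD
  Pool.Agent.Lib.H81D

variable {p : ℕ} [Fact p.Prime] {Ω : Type} [Field Ω] [CharZero Ω]
  {Γ : Subgroup Gal(Ω/ℚ)}
variable {V : Type} [AddCommGroup V] [Module ℚ_[p] V] [FiniteDimensional ℚ_[p] V]

/-- There is one open subgroup which acts on all Tate classes through the power `-m` of the cyclotomic character: a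
basis of `tateClasses r m` is finite; intersect the subgroups. -/
theorem exists_tate_subgroup (r : Representation ℚ_[p] Γ V) (m : ℤ) :
    ∃ U : Subgroup Γ, IsOpen (U : Set Γ) ∧ ∀ v ∈ tateClasses r m, ∀ u ∈ U,
      r u v = toQ (cyc p Ω (u : Gal(Ω/ℚ))) ^ (-m) • v := by
  classical
  obtain ⟨s, hs⟩ := (Submodule.fg_iff_finiteDimensional (tateClasses r m)).2 inferInstance
  have hmem : ∀ v : s, (v : V) ∈ tateClasses r m := fun v => by
    rw [← hs]
    exact Submodule.subset_span v.2
  choose U hU hv using fun v : s => hmem v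
  refine ⟨⨅ v : s, U v, ?_, ?_⟩
  · rw [Subgroup.coe_iInf]
    exact isOpen_iInter_of_finite hU
  · intro v hv' u hu
    rw [← hs] at hv'
    refine Submodule.span_induction (p := fun v _ => r u v =
      toQ (cyc p Ω (u : Gal(Ω/ℚ))) ^ (-m) • v) ?_ ?_ ?_ ?_ hv'
    · intro x hx
      exact hv ⟨x, hx⟩ u ((Subgroup.mem_iInf.1 hu) ⟨x, hx⟩)
    · rw [map_zero, smul_zero]
    · intro x y _ _ hx hy
      rw [map_add, hx, hy, smul_add]
    · intro c x _ hx
      rw [map_smul, hx, smul_comm]

end Pool.Agent.Lib.H90A
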