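import Mathlib
import Pool.Agent.Lib.H90A.R1
import Pool.Agent.Lib.H90A.R1b
import Pool.Agent.Lib.H90A.R2a
import Pool.Agent.Lib.H90A.S1
import Pool.Agent.Lib.H90A.K2
import Pool.Agent.Lib.H90A.Tate
import Pool.Agent.Lib.Helper4.GSD.Main

/-!
# Chunk R2 (M/L): a nondegenerate pairing on the Tate classes gives semisimplicity
-/

namespace Pool.Agent.Lib.H90A

open Polynomial Module Filter Topology Pool.Agent.GSem Pool.Agent.GSD Pool.Agent.Ord
  Pool.Agent.Lib.H81D H4S

variable {p : ℕ} [Fact p.Prime] {Ω : Type} [Field Ω] [CharZero Ω] [IsAlgClosure ℚ Ω]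
  {Γ : Subgroup Gal(Ω/ℚ)}
variable {V : Type} [AddCommGroup V] [Module ℚ_[p] V] [FiniteDimensional ℚ_[p] V]

/-- Proof. `U` = intersection of the subgroup of `hsd` and of the one of `exists_tate_subgroup`; it is open, of finite index (`Γ` is compact,
as in `H81D.exists_transfer`). Suppose `r` is not semisimple over `U` (otherwise `ss_of_finiteIndex`; `SSOn`, `feStab` and `IsSemisimple` unfold to
the same statements). Let `W` be the irreducible subspace of `exists_irr_perp` (`lam g = toQ (cyc g) ^ (-w)`). `B x y = 0` for `x, y ∈ W`.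
`C = perp B W` (`S1a`), `W ≤ C`, `C ≠ ⊤` (`perp_ne_top`), `C` is stable (`perp_stable`). As in `S2` the traces of `u ∈ U` on `W / 0` and `V / C` are equal
(`trace_sub_perp` and `hsd`; `s2_trOn_bot`, `s2_trOn_top` of `S2` may be copied). `hmf` gives `U'` with
`trOn (r u) W = toQ (cyc u) ^ (-m) * finrank W` for `u ∈ U ⊓ U'`. Let `S` be the submonoid of the endomorphisms
`toQ (cyc u) ^ m • (r u).restrict`, `u ∈ U ⊓ U'`, of `W` (`Nontrivial W`): `exists_fixed` gives `0 ≠ v ∈ W` with `r u v = toQ (cyc u) ^ (-m) • v`, so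
`v ∈ tateClasses r m`. For `v' ∈ tateClasses r m` not 0 the line `K v'` is irreducible under `U` (by the choice of `U`), so `B v v' = 0`. So `v = 0` by
`hnd`, contradiction. -/
theorem semisimple_of_tateNondeg (hΓ : IsOpen (Γ : Set Gal(Ω/ℚ))) (r : Representation ℚ_[p] Γ V)
    (w m : ℤ) (B : V →ₗ[ℚ_[p]] V →ₗ[ℚ_[p]] ℚ_[p]) (hB : IsPolar r w B)
    (hsd : SelfDualSubs r w) (hmf : PotMultFreeTate r m) (hnd : TateNondeg r m B) :
    IsSemisimple r := by
  classical
  obtain ⟨U₁, hU₁, hsd⟩ := hsd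
  obtain ⟨U₂, hU₂, htate⟩ := exists_tate_subgroup r m
  obtain ⟨U, hUdef⟩ : ∃ U, U = U₁ ⊓ U₂ := ⟨_, rfl⟩
  have hUo : IsOpen (U : Set Γ) := by rw [hUdef]; exact hU₁.inter hU₂
  have hU1 : U ≤ U₁ := by rw [hUdef]; exact inf_le_left
  have hU2 : U ≤ U₂ := by rw [hUdef]; exact inf_le_right
  have hcomp : CompactSpace Γ := by
    have h1 : IsClosed (Γ : Set Gal(Ω/ℚ)) := Subgroup.isClosed_of_isOpen Γ hΓ
    exact isCompact_iff_compactSpace.1 h1.isCompact
  have hfq : Finite (Γ ⧸ U) := Subgroup.quotient_finite_of_isOpen U hUo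
  have hfi : U.FiniteIndex := Subgroup.finiteIndex_of_finite_quotient
  have h1 : ∀ g : Γ, r g ∘ₗ r g⁻¹ = LinearMap.id := by
    intro g
    have : r g * r g⁻¹ = 1 := by rw [← map_mul, mul_inv_cancel, map_one]
    exact this
  have h2 : ∀ g : Γ, r g⁻¹ ∘ₗ r g = LinearMap.id := by
    intro g
    have : r g⁻¹ * r g = 1 := by rw [← map_mul, inv_mul_cancel, map_one]
    exact this
  have hbt : ∀ (T : V →ₗ[ℚ_[p]] V) (h : ∀ x ∈ (⊥ : Submodule ℚ_[p] V), T x ∈ (⊥ : Submodule ℚ_[p] V)),
      trOn T ⊥ h = 0 := by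
    intro T h
    unfold trOn
    have : T.restrict h = 0 := by
      apply LinearMap.ext
      intro x
      exact Subsingleton.elim _ _
    rw [this, map_zero]
  have htp : ∀ (T : V →ₗ[ℚ_[p]] V) (h : ∀ x ∈ (⊤ : Submodule ℚ_[p] V), T x ∈ (⊤ : Submodule ℚ_[p] V)),
      trOn T ⊤ h = LinearMap.trace ℚ_[p] V T := by
    intro T h
    unfold trOn
    rw [← LinearMap.trace_conj' (T.restrict h) Submodule.topEquiv]
    rfl
  have hss : SSOn r (U : Set Γ) := by
    by_contra hss
    obtain ⟨W, hW, hperp⟩ := exists_irr_perp r U B hB.1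
      (fun g => toQ (cyc p Ω (g : Gal(Ω/ℚ))) ^ (-w)) (fun g _ => hB.2 g) hss
    have hWst : ∀ u ∈ U, ∀ x ∈ W, r u x ∈ W := fun u hu => hW.1 u hu
    have hiso : ∀ x ∈ W, ∀ y ∈ W, B x y = 0 := hperp W hW
    have hps : ∀ u ∈ U, ∀ y ∈ perp B W, r u y ∈ perp B W := fun u hu =>
      perp_stable B (r u) (r u⁻¹) (h1 u) _ (hB.2 u) W (hWst u⁻¹ (U.inv_mem hu))
    obtain ⟨U', hU', htr⟩ := hmf U hUo ⊥ W (perp B W) ⊤
      (fun u _ x hx => by
        rw [Submodule.mem_bot] at hx
        rw [hx, map_zero]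
        exact Submodule.zero_mem _)
      hWst hps (fun u _ x _ => Submodule.mem_top)
      (bot_lt_iff_ne_bot.2 hW.2.1) (fun y hy x hx => hiso x hx y hy)
      (lt_top_iff_ne_top.2 (perp_ne_top B hB.1 W hW.2.1)) (by
        intro u hu
        rw [hbt, htp, sub_zero]
        rw [trace_sub_perp B hB.1 (r u) (r u⁻¹) (h2 u) (h1 u) _ (hB.2 u) W
          (hWst u⁻¹ (U.inv_mem hu)) (hps u hu)]
        exact hsd U hU1 hUo W hWst u hu)
    have hnt : Nontrivial W := Submodule.nontrivial_iff_ne_bot.2 hW.2.1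
    have htr' : ∀ (u : Γ) (hu : u ∈ U), u ∈ U' → LinearMap.trace ℚ_[p] W ((r u).restrict (hWst u hu)) =
        toQ (cyc p Ω (u : Gal(Ω/ℚ))) ^ (-m) * finrank ℚ_[p] W := by
      intro u hu hu'
      have h3 := htr u hu hu'
      rw [hbt, sub_zero, finrank_bot, Nat.cast_zero, sub_zero] at h3
      exact h3
    let S : Submonoid (Module.End ℚ_[p] W) :=
      { carrier := {T | ∃ (u : Γ) (hu : u ∈ U), u ∈ U' ∧
          T = toQ (cyc p Ω (u : Gal(Ω/ℚ))) ^ m • (r u).restrict (hWst u hu)}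
        mul_mem' := by
          rintro _ _ ⟨u, hu, hu', rfl⟩ ⟨v, hv, hv', rfl⟩
          refine ⟨u * v, U.mul_mem hu hv, U'.mul_mem hu' hv', ?_⟩
          have h4 : (r (u * v)).restrict (hWst (u * v) (U.mul_mem hu hv)) =
              (r u).restrict (hWst u hu) * (r v).restrict (hWst v hv) := by
            ext x
            change r (u * v) x = r u (r v x)
            rw [map_mul]
            rfl
          rw [h4, smul_mul_smul_comm, Subgroup.coe_mul, map_mul, map_mul, mul_zpow]
        one_mem' := by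
          refine ⟨1, U.one_mem, U'.one_mem, ?_⟩
          have h4 : (r 1).restrict (hWst 1 U.one_mem) = 1 := by
            ext x
            change r 1 x = x
            rw [map_one]
            rfl
          rw [h4, Subgroup.coe_one, map_one, map_one, one_zpow, one_smul] }
    obtain ⟨v, hv0, hv⟩ := exists_fixed S (by
      rintro _ ⟨u, hu, hu', rfl⟩
      rw [map_smul, htr' u hu hu', smul_eq_mul, ← mul_assoc, ← zpow_add₀ (toQ_ne_zero _),
        add_neg_cancel, zpow_zero, one_mul])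
    have hvt : (v : V) ∈ tateClasses r m := by
      refine ⟨U ⊓ U', hUo.inter hU', fun u hu => ?_⟩
      have h5 := hv _ ⟨u, hu.1, hu.2, rfl⟩
      have h6 : toQ (cyc p Ω (u : Gal(Ω/ℚ))) ^ m • r u (v : V) = v := congrArg Subtype.val h5
      have h7 : toQ (cyc p Ω (u : Gal(Ω/ℚ))) ^ (-m) •
          (toQ (cyc p Ω (u : Gal(Ω/ℚ))) ^ m • r u (v : V)) = r u (v : V) := by
        rw [smul_smul, ← zpow_add₀ (toQ_ne_zero _), neg_add_cancel, zpow_zero, one_smul]
      rw [h6] at h7
      exact h7.symm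
    apply hv0
    apply Subtype.ext
    refine hnd v hvt fun v' hv' => ?_
    by_cases hz : v' = 0
    · rw [hz, map_zero]
    · have hst : ∀ u ∈ U, r u v' = toQ (cyc p Ω (u : Gal(Ω/ℚ))) ^ (-m) • v' := fun u hu =>
        htate v' hv' u (hU2 hu)
      refine hperp (Submodule.span ℚ_[p] {v'}) ⟨?_, ?_, ?_⟩ v v.2 v'
        (Submodule.mem_span_singleton_self v')
      · intro u hu x hx
        obtain ⟨c, rfl⟩ := Submodule.mem_span_singleton.1 hx
        rw [map_smul, hst u hu]
        exact Submodule.smul_mem _ _ (Submodule.smul_mem _ _ (Submodule.mem_span_singleton_self v'))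
      · rw [Ne, Submodule.span_singleton_eq_bot]
        exact hz
      · intro E _ hE
        by_cases hE0 : E = ⊥
        · exact Or.inl hE0
        · right
          refine le_antisymm hE ?_
          obtain ⟨x, hx, hx0⟩ := (Submodule.ne_bot_iff E).1 hE0
          obtain ⟨c, hc⟩ := Submodule.mem_span_singleton.1 (hE hx)
          have hc0 : c ≠ 0 := by
            rintro rfl
            rw [zero_smul] at hc
            exact hx0 hc.symm
          rw [Submodule.span_singleton_le_iff_mem]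
          have h7 : v' = c⁻¹ • x := by rw [← hc, smul_smul, inv_mul_cancel₀ hc0, one_smul]
          rw [h7]
          exact E.smul_mem _ hx
  have h8 := ss_of_finiteIndex r U hfi hss
  intro W hW
  obtain ⟨W', hW', hc⟩ := h8 W (fun g _ x hx => hW g x hx)
  exact ⟨W', fun g x hx => hW' g trivial x hx, hc⟩

end Pool.Agent.Lib.H90A
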