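import Mathlib
import Pool.Agent.Lib.H90A.Tate

/-!
# Chunk R3a (S/M): the space of the Tate classes is stable
-/

namespace Pool.Agent.Lib.H90A

open Polynomial Module Filter Topology Pool.Agent.GSem Pool.Agent.GSD
  Pool.Agent.Lib.H81D

variable {p : ℕ} [Fact p.Prime] {Ω : Type} [Field Ω] [CharZero Ω]
  {Γ : Subgroup Gal(Ω/ℚ)}
variable {V : Type} [AddCommGroup V] [Module ℚ_[p] V] [FiniteDimensional ℚ_[p] V]

/-- The space of the Tate classes is stable: if `U` acts on `v` through `χ ^ (-m)`, so does `g U g⁻¹` on `r g v` (open: `Subgroup.map`/`comap` of the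
conjugation, a homeomorphism; `cyc` of a conjugate is the same, the target is commutative). -/
theorem tateClasses_stable (r : Representation ℚ_[p] Γ V) (m : ℤ) (g : Γ) :
    ∀ v ∈ tateClasses r m, r g v ∈ tateClasses r m := by
  rintro v ⟨U, hU, hv⟩
  refine ⟨U.comap (MulAut.conj g⁻¹).toMonoidHom, ?_, fun u hu => ?_⟩
  · refine hU.preimage (f := fun u : Γ => g⁻¹ * u * g⁻¹⁻¹) ?_
    exact (continuous_const.mul continuous_id).mul continuous_const
  · have hu' : g⁻¹ * u * g ∈ U := by
      have : (MulAut.conj g⁻¹).toMonoidHom u ∈ U := hu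
      simpa [MulAut.conj_apply] using this
    have h1 := hv _ hu'
    have h2 : (cyc p Ω ((g⁻¹ * u * g : Γ) : Gal(Ω/ℚ))) = cyc p Ω (u : Gal(Ω/ℚ)) := by
      rw [Subgroup.coe_mul, Subgroup.coe_mul, map_mul, map_mul, mul_comm, ← mul_assoc,
        ← map_mul, ← Subgroup.coe_mul, mul_inv_cancel, Subgroup.coe_one, map_one, one_mul]
    rw [h2] at h1
    have h3 : r u (r g v) = r g (r (g⁻¹ * u * g) v) := by
      rw [← Module.End.mul_apply, ← map_mul, ← Module.End.mul_apply, ← map_mul]
      congr 2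
      group
    rw [h3, h1, map_smul]

end Pool.Agent.Lib.H90A
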