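import Mathlib
import Pool.Agent.Lib.H90A.R1b
import Pool.Agent.Lib.H90A.R3a
import Pool.Agent.Lib.H90A.Tate
import Pool.Agent.Lib.Helper4.GSD.Main

/-!
# Chunk R3 (M/L): the pairing on the Tate classes of a semisimple representation is nondegenerate
-/

namespace Pool.Agent.Lib.H90A

open Polynomial Module Filter Topology Pool.Agent.GSem Pool.Agent.GSD Pool.Agent.Ord
  Pool.Agent.Lib.H81D H4S

variable {p : ℕ} [Fact p.Prime] {Ω : Type} [Field Ω] [CharZero Ω] [IsAlgClosure ℚ Ω]
  {Γ : Subgroup Gal(Ω/ℚ)}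
variable {V : Type} [AddCommGroup V] [Module ℚ_[p] V] [FiniteDimensional ℚ_[p] V]

/-- Proof. `T = tateClasses r m` has a stable complement `T'`. Let `v ∈ T` with `B v v' = 0` for all `v' ∈ T`; let `U` be open with
`r u v = χ(u) ^ (-m) • v` on `U`; `N` = an open normal subgroup of finite index of `Γ` contained in `U` (normal core; `Γ` is compact, as in
`H81D.exists_transfer`; open because it is a closed subgroup of finite index, or take the subgroup of `Γ` given by an open normal subgroup of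
`Gal(Ω/ℚ)` as in `T7a`). `f = B v` restricted to `T'`: for `u ∈ N`, `χ(u) ^ (-m) • B v (r u y) = B (r u v) (r u y) = χ(u) ^ (-w) * B v y`, so
`f (r u y) = χ(u) ^ (-m) * f y` as `w = 2 m`. Suppose `f ≠ 0` on `T'`. By `H4S.clifford` `r` is semisimple over `N`: the `N`-stable subspace
`T ⊔ (T' ⊓ ker f)` has an `N`-stable complement... simpler: `T' ⊓ ker (B v)` has an `N`-stable complement `E` in `V`; `E ⊓ T'` is `N`-stable, and by the modular
law `T' = (T' ⊓ ker (B v)) ⊕ (E ⊓ T')`, so `E ⊓ T'` contains `y` with `B v y ≠ 0`. For `u ∈ N` the vector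
`r u y - χ(u) ^ (-m) • y` is in `E ⊓ T'` and in `ker (B v)`, so it is 0: `y ∈ T`. But `T ⊓ T' = 0`, contradiction. So `B v` vanishes on `T` and on
`T'`, hence everywhere, and `v = 0`. -/
theorem tateNondeg_of_semisimple (hΓ : IsOpen (Γ : Set Gal(Ω/ℚ))) (r : Representation ℚ_[p] Γ V)
    (w m : ℤ) (hwm : w = 2 * m) (B : V →ₗ[ℚ_[p]] V →ₗ[ℚ_[p]] ℚ_[p]) (hB : IsPolar r w B)
    (hss : IsSemisimple r) : TateNondeg r m B := by
  classical
  intro v hv hperp
  obtain ⟨T', hT', hc⟩ := hss (tateClasses r m) (fun g x hx => tateClasses_stable r m g x hx)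
  obtain ⟨U, hU, hvU⟩ := id hv
  have hcomp : CompactSpace Γ := by
    have h1 : IsClosed (Γ : Set Gal(Ω/ℚ)) := Subgroup.isClosed_of_isOpen Γ hΓ
    exact isCompact_iff_compactSpace.1 h1.isCompact
  have hUc : IsClosed (U : Set Γ) := Subgroup.isClosed_of_isOpen U hU
  have hfq : Finite (Γ ⧸ U) := Subgroup.quotient_finite_of_isOpen U hU
  have hfi : U.FiniteIndex := Subgroup.finiteIndex_of_finite_quotient
  have hcore : U.normalCore.FiniteIndex := Subgroup.finiteIndex_normalCore U
  have hNc : IsClosed (U.normalCore : Set Γ) := U.normalCore_isClosed hUc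
  have hNo : IsOpen (U.normalCore : Set Γ) := Subgroup.isOpen_of_isClosed_of_finiteIndex _ hNc
  obtain ⟨chi, hchi⟩ : ∃ chi : Γ → ℚ_[p], chi = fun u : Γ => toQ (cyc p Ω (u : Gal(Ω/ℚ))) ^ (-m) :=
    ⟨_, rfl⟩
  have hne : ∀ u : Γ, chi u ≠ 0 := by
    intro u
    rw [hchi]
    exact zpow_ne_zero _ (toQ_ne_zero _)
  have hvN : ∀ u ∈ U.normalCore, r u v = chi u • v := by
    intro u hu
    rw [hchi]
    exact hvU u (Subgroup.normalCore_le U hu)
  have hmul : ∀ u ∈ U.normalCore, ∀ y, B v (r u y) = chi u * B v y := by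
    intro u hu y
    have h1 := hB.2 u v y
    rw [hvN u hu, map_smul, LinearMap.smul_apply, smul_eq_mul] at h1
    have h2 : toQ (cyc p Ω (u : Gal(Ω/ℚ))) ^ (-w) = chi u * chi u := by
      rw [hchi, hwm, ← zpow_add₀ (toQ_ne_zero _)]
      congr 1
      ring
    rw [h2, mul_assoc] at h1
    exact mul_left_cancel₀ (hne u) h1
  have hssN := clifford r U.normalCore (fun W hW => by
    obtain ⟨W', h1, h2⟩ := hss W (fun g x hx => hW g trivial x hx)
    exact ⟨W', fun g _ x hx => h1 g x hx, h2⟩)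
  obtain ⟨E, hE, hcE⟩ := hssN (T' ⊓ LinearMap.ker (B v)) (by
    intro u hu x hx
    refine ⟨hT' u x hx.1, ?_⟩
    have h2 : B v x = 0 := hx.2
    change B v (r u x) = 0
    rw [hmul u hu, h2, mul_zero])
  have hT'0 : ∀ t ∈ T', B v t = 0 := by
    intro t ht
    by_contra hne0
    have htop : t ∈ (T' ⊓ LinearMap.ker (B v)) ⊔ E := by rw [hcE.sup_eq_top]; trivial
    obtain ⟨a, ha, b, hb, hab⟩ := Submodule.mem_sup.1 htop
    have ha2 : B v a = 0 := ha.2
    have hbT : b ∈ T' := by
      have : b = t - a := by rw [← hab]; abel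
      rw [this]
      exact T'.sub_mem ht ha.1
    have hb0 : B v b ≠ 0 := by
      rw [← hab, map_add, ha2, zero_add] at hne0
      exact hne0
    have hbtate : b ∈ tateClasses r m := by
      refine ⟨U.normalCore, hNo, fun u hu => ?_⟩
      have hz : r u b - chi u • b ∈ (T' ⊓ LinearMap.ker (B v)) ⊓ E := by
        refine ⟨⟨T'.sub_mem (hT' u b hbT) (T'.smul_mem _ hbT), ?_⟩,
          E.sub_mem (hE u hu b hb) (E.smul_mem _ hb)⟩
        change B v (r u b - chi u • b) = 0
        rw [map_sub, map_smul, hmul u hu, smul_eq_mul, sub_self]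
      rw [hcE.inf_eq_bot, Submodule.mem_bot, sub_eq_zero, hchi] at hz
      exact hz
    have : b ∈ tateClasses r m ⊓ T' := ⟨hbtate, hbT⟩
    rw [hc.inf_eq_bot, Submodule.mem_bot] at this
    rw [this, map_zero] at hb0
    exact hb0 rfl
  apply hB.1
  intro y
  have hy : y ∈ tateClasses r m ⊔ T' := by rw [hc.sup_eq_top]; trivial
  obtain ⟨a, ha, b, hb, rfl⟩ := Submodule.mem_sup.1 hy
  rw [map_add, hperp a ha, hT'0 b hb, add_zero]

end Pool.Agent.Lib.H90A
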