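import Mathlib
import Pool.Agent.Lib.H90A.Final
import Pool.Agent.Lib.H90A.R2
import Pool.Agent.Lib.H90A.R3

/-!
# Self-duality of the constituents for primes of density one, with the Tate classes (complete)
-/

namespace Pool.Agent.Lib.H90A

open Polynomial Module Filter Topology NumberField Pool.Agent.GSem Pool.Agent.GSD Pool.Agent.Ord
  Pool.Agent.Lib.H81D

variable {Ω : Type} [Field Ω] [CharZero Ω] [IsAlgClosure ℚ Ω] {Γ : Subgroup Gal(Ω/ℚ)} {n : ℕ}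
  {ρ : ∀ (p : ℕ) [Fact p.Prime], Representation ℚ_[p] Γ (Fin n → ℚ_[p])} {w : ℤ}

/-- Nondegeneracy on the Tate classes is equivalent to semisimplicity. -/
theorem semisimple_iff_tateNondeg (hΓ : IsOpen (Γ : Set Gal(Ω/ℚ))) {p : ℕ} [Fact p.Prime]
    (hsd : SelfDualSubs (ρ p) w) (m : ℤ)
    (B : (Fin n → ℚ_[p]) →ₗ[ℚ_[p]] (Fin n → ℚ_[p]) →ₗ[ℚ_[p]] ℚ_[p]) (hwm : w = 2 * m)
    (hB : IsPolar (ρ p) w B) (hmf : PotMultFreeTate (ρ p) m) :
    IsSemisimple (ρ p) ↔ TateNondeg (ρ p) m B :=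
  ⟨fun h => tateNondeg_of_semisimple hΓ (ρ p) w m hwm B hB h,
    fun h => semisimple_of_tateNondeg hΓ (ρ p) w m B hB hsd hmf h⟩

theorem final2 (hΓ : IsOpen (Γ : Set Gal(Ω/ℚ)))
    (hcont : ∀ (p : ℕ) [Fact p.Prime], IsCont (ρ p))
    (hpol : ∀ (p : ℕ) [Fact p.Prime], ∃ B, IsPolar (ρ p) w B)
    (hsys : IsPureSys ρ w) :
    0 < (Nat.card (oddClasses Ω (neatMax ρ w) w) : ℝ) / finrank ℚ (commonField Ω (neatMax ρ w)) ∧
    HasNatLower {p | ∃ _ : Fact p.Prime, SelfDualSubs (ρ p) w ∧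
        (PotMultFree (ρ p) → IsSemisimple (ρ p)) ∧
        ∀ m B, w = 2 * m → IsPolar (ρ p) w B → PotMultFreeTate (ρ p) m →
          (IsSemisimple (ρ p) ↔ TateNondeg (ρ p) m B)}
      ((Nat.card (oddClasses Ω (neatMax ρ w) w) : ℝ) /
        finrank ℚ (commonField Ω (neatMax ρ w))) ∧
    ((commonField Ω (neatMax ρ w) = ⊥ ∨
        ∃ S : Set ℕ, (∀ l ∈ S, ∀ [Fact l.Prime], ∃ g : Γ, IsMaxElt (ρ l) g ∧
            (LinearMap.charpoly (ρ l g)).Splits) ∧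
          ∃ δ : ℝ, 1 / 2 < δ ∧ ∃ᶠ x : ℕ in atTop,
            δ * (Nat.primeCounting x : ℝ) ≤ ({l | l ≤ x ∧ l.Prime ∧ l ∈ S}.ncard : ℝ)) →
      Tendsto (fun x : ℕ =>
        ({p | p ≤ x ∧ p.Prime ∧ ∃ _ : Fact p.Prime, SelfDualSubs (ρ p) w ∧
          (PotMultFree (ρ p) → IsSemisimple (ρ p)) ∧
          ∀ m B, w = 2 * m → IsPolar (ρ p) w B → PotMultFreeTate (ρ p) m →
            (IsSemisimple (ρ p) ↔ TateNondeg (ρ p) m B)}.ncard : ℝ) /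
          (Nat.primeCounting x : ℝ)) atTop (𝓝 1)) ∧
    ((∃ (p : ℕ) (_ : Fact p.Prime), (∃ g : Γ, IsStrReg (ρ p) g) ∨
        ∃ h : Fin n → ℤ, Function.Injective h ∧ IsHT (ρ p) h) →
      ∀ (p : ℕ) [Fact p.Prime], PotMultFree (ρ p)) := by
  have h := final hΓ hcont hpol hsys
  have hset : {p | ∃ _ : Fact p.Prime, SelfDualSubs (ρ p) w ∧
        (PotMultFree (ρ p) → IsSemisimple (ρ p)) ∧
        ∀ m B, w = 2 * m → IsPolar (ρ p) w B → PotMultFreeTate (ρ p) m →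
          (IsSemisimple (ρ p) ↔ TateNondeg (ρ p) m B)} =
      {p | ∃ _ : Fact p.Prime, SelfDualSubs (ρ p) w ∧
        (PotMultFree (ρ p) → IsSemisimple (ρ p))} := by
    ext p
    constructor
    · rintro ⟨hp, hsd, h1, -⟩
      exact ⟨hp, hsd, h1⟩
    · rintro ⟨hp, hsd, h1⟩
      exact ⟨hp, hsd, h1, fun m B hwm hB hmf => semisimple_iff_tateNondeg hΓ hsd m B hwm hB hmf⟩
  have hset2 : ∀ x : ℕ, {p | p ≤ x ∧ p.Prime ∧ ∃ _ : Fact p.Prime, SelfDualSubs (ρ p) w ∧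
        (PotMultFree (ρ p) → IsSemisimple (ρ p)) ∧
        ∀ m B, w = 2 * m → IsPolar (ρ p) w B → PotMultFreeTate (ρ p) m →
          (IsSemisimple (ρ p) ↔ TateNondeg (ρ p) m B)} =
      {p | p ≤ x ∧ p.Prime ∧ ∃ _ : Fact p.Prime, SelfDualSubs (ρ p) w ∧
        (PotMultFree (ρ p) → IsSemisimple (ρ p))} := by
    intro x
    ext p
    have h1 := Set.ext_iff.1 hset p
    constructor
    · rintro ⟨h2, h3, h4⟩
      exact ⟨h2, h3, h1.1 h4⟩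
    · rintro ⟨h2, h3, h4⟩
      exact ⟨h2, h3, h1.2 h4⟩
  rw [hset]
  simp only [hset2]
  exact h

end Pool.Agent.Lib.H90A
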